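import Mathlib

/-!
The weights `W` (in terms of the height `x = |cos a|`) and `F` (in terms of the angle `a`).
-/

set_option autoImplicit false
set_option linter.unusedVariables false

namespace Pool.Agent.Helper74.Hom

open Real Set MeasureTheory intervalIntegral

/-- the smooth part of the density -/
noncomputable def w1 (η a : ℝ) : ℝ := 2 * cos a * sin a + 2 * η * cos a ^ 3 * sin a

/-- the density -/
noncomputable def ww (η b ε a : ℝ) : ℝ := |w1 η a| + ε * |sin a| + ε * b * |cos a|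

/-- the weight in terms of the angle -/
noncomputable def FF (η b ε a : ℝ) : ℝ := ∫ x in (0:ℝ)..a, ww η b ε x

/-- the weight in terms of the height -/
noncomputable def WW (η b ε x : ℝ) : ℝ :=
  x ^ 2 + η / 2 * x ^ 4 + ε * (x + b * (1 - √(1 - x ^ 2)))

/-- a constant -/
noncomputable def AA (η b ε : ℝ) : ℝ := 2 + 8 * η + ε + ε * b

variable {η b ε : ℝ}

theorem w1_cont : Continuous (w1 η) := by
  unfold w1; fun_prop

theorem ww_cont : Continuous (ww η b ε) := by
  have := w1_cont (η := η)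
  unfold ww; fun_prop

theorem ww_int (a c : ℝ) : IntervalIntegrable (ww η b ε) volume a c :=
  ww_cont.intervalIntegrable _ _

theorem FF_sub (a c : ℝ) : FF η b ε a - FF η b ε c = ∫ x in c..a, ww η b ε x := by
  unfold FF
  rw [intervalIntegral.integral_interval_sub_left (ww_int _ _) (ww_int _ _)]

theorem w1_lip (hη : 0 ≤ η) (a c : ℝ) : |w1 η a - w1 η c| ≤ (2 + 8 * η) * |a - c| := by
  have e1 : 2 * cos a * sin a = sin (2 * a) := by rw [Real.sin_two_mul]; ring
  have e2 : 2 * cos c * sin c = sin (2 * c) := by rw [Real.sin_two_mul]; ring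
  have hid : w1 η a - w1 η c = (sin (2 * a) - sin (2 * c))
      + 2 * η * (cos a ^ 3 * sin a - cos c ^ 3 * sin c) := by
    unfold w1; rw [e1, e2]; ring
  have h1 : |sin (2 * a) - sin (2 * c)| ≤ 2 * |a - c| := by
    refine (Real.abs_sin_sub_sin_le _ _).trans (le_of_eq ?_)
    rw [← mul_sub, abs_mul]; norm_num
  have hc := Real.abs_cos_sub_cos_le a c
  have hs := Real.abs_sin_sub_sin_le a c
  have ca := Real.abs_cos_le_one a
  have cc := Real.abs_cos_le_one c
  have sa := Real.abs_sin_le_one a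
  have h3 : |cos a ^ 3 - cos c ^ 3| ≤ 3 * |a - c| := by
    have : cos a ^ 3 - cos c ^ 3 = (cos a - cos c) * (cos a ^ 2 + cos a * cos c + cos c ^ 2) := by
      ring
    rw [this, abs_mul]
    have h4 : |cos a ^ 2 + cos a * cos c + cos c ^ 2| ≤ 3 := by
      calc _ ≤ |cos a ^ 2| + |cos a * cos c| + |cos c ^ 2| := by
            refine (abs_add_le _ _).trans ?_
            gcongr
            exact abs_add_le _ _
        _ = |cos a| ^ 2 + |cos a| * |cos c| + |cos c| ^ 2 := by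
            rw [abs_pow, abs_mul, abs_pow]
        _ ≤ 1 ^ 2 + 1 * 1 + 1 ^ 2 := by gcongr
        _ = 3 := by norm_num
    calc _ ≤ |a - c| * 3 := by gcongr
      _ = _ := by ring
  have h2 : |cos a ^ 3 * sin a - cos c ^ 3 * sin c| ≤ 4 * |a - c| := by
    have : cos a ^ 3 * sin a - cos c ^ 3 * sin c
        = (cos a ^ 3 - cos c ^ 3) * sin a + cos c ^ 3 * (sin a - sin c) := by ring
    rw [this]
    calc _ ≤ |(cos a ^ 3 - cos c ^ 3) * sin a| + |cos c ^ 3 * (sin a - sin c)| := abs_add_le _ _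
      _ = |cos a ^ 3 - cos c ^ 3| * |sin a| + |cos c| ^ 3 * |sin a - sin c| := by
          rw [abs_mul, abs_mul, abs_pow]
      _ ≤ (3 * |a - c|) * 1 + 1 ^ 3 * |a - c| := by gcongr
      _ = _ := by ring
  rw [hid]
  calc _ ≤ |sin (2 * a) - sin (2 * c)| + |2 * η * (cos a ^ 3 * sin a - cos c ^ 3 * sin c)| :=
        abs_add_le _ _
    _ = |sin (2 * a) - sin (2 * c)| + 2 * η * |cos a ^ 3 * sin a - cos c ^ 3 * sin c| := by
        rw [abs_mul (2 * η), abs_of_nonneg (by linarith : 0 ≤ 2 * η)]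
    _ ≤ 2 * |a - c| + 2 * η * (4 * |a - c|) := by gcongr
    _ = _ := by ring

theorem ww_lip (hη : 0 ≤ η) (hb : 0 ≤ b) (hε : 0 ≤ ε) (a c : ℝ) :
    |ww η b ε a - ww η b ε c| ≤ AA η b ε * |a - c| := by
  have h1 := w1_lip hη a c
  have hid : ww η b ε a - ww η b ε c = (|w1 η a| - |w1 η c|) + ε * (|sin a| - |sin c|)
      + ε * b * (|cos a| - |cos c|) := by unfold ww; ring
  have h2 : |(|w1 η a| - |w1 η c|)| ≤ |w1 η a - w1 η c| := abs_abs_sub_abs_le_abs_sub _ _
  have h3 : |(|sin a| - |sin c|)| ≤ |a - c| :=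
    (abs_abs_sub_abs_le_abs_sub _ _).trans (Real.abs_sin_sub_sin_le a c)
  have h4 : |(|cos a| - |cos c|)| ≤ |a - c| :=
    (abs_abs_sub_abs_le_abs_sub _ _).trans (Real.abs_cos_sub_cos_le a c)
  rw [hid]
  calc _ ≤ |(|w1 η a| - |w1 η c|)| + |ε * (|sin a| - |sin c|)| + |ε * b * (|cos a| - |cos c|)| := by
        refine (abs_add_le _ _).trans ?_
        gcongr
        exact abs_add_le _ _
    _ = |(|w1 η a| - |w1 η c|)| + ε * |(|sin a| - |sin c|)| + ε * b * |(|cos a| - |cos c|)| := by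
        rw [abs_mul ε, abs_mul (ε * b), abs_of_nonneg hε, abs_of_nonneg (mul_nonneg hε hb)]
    _ ≤ (2 + 8 * η) * |a - c| + ε * |a - c| + ε * b * |a - c| := by
        gcongr
        exact h2.trans h1
    _ = _ := by unfold AA; ring

theorem ww_nonneg (hb : 0 ≤ b) (hε : 0 ≤ ε) (a : ℝ) : 0 ≤ ww η b ε a := by
  unfold ww; positivity

theorem ww_le (hη : 0 ≤ η) (hb : 0 ≤ b) (hε : 0 ≤ ε) (a : ℝ) : ww η b ε a ≤ AA η b ε := by
  unfold ww AA
  have ca := Real.abs_cos_le_one a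
  have sa := Real.abs_sin_le_one a
  have h1 : |w1 η a| ≤ 2 + 8 * η := by
    unfold w1
    calc _ ≤ |2 * cos a * sin a| + |2 * η * cos a ^ 3 * sin a| := abs_add_le _ _
      _ = 2 * |cos a| * |sin a| + 2 * η * |cos a| ^ 3 * |sin a| := by
          rw [abs_mul, abs_mul, abs_mul, abs_mul, abs_pow, abs_of_nonneg (by linarith : 0 ≤ 2 * η)]
          norm_num
      _ ≤ 2 * 1 * 1 + 2 * η * 1 ^ 3 * 1 := by gcongr
      _ ≤ _ := by linarith
  have h2 : ε * |sin a| ≤ ε * 1 := by gcongr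
  have h3 : ε * b * |cos a| ≤ ε * b * 1 := by gcongr
  linarith

theorem ww_ge (hb : 1 ≤ b) (hε : 0 ≤ ε) (a : ℝ) : ε ≤ ww η b ε a := by
  unfold ww
  have h1 : 1 ≤ |sin a| + |cos a| := by
    have h := Real.sin_sq_add_cos_sq a
    have h2 : |sin a| ^ 2 + |cos a| ^ 2 = 1 := by rw [sq_abs, sq_abs]; exact h
    nlinarith [abs_nonneg (sin a), abs_nonneg (cos a), mul_nonneg (abs_nonneg (sin a))
      (abs_nonneg (cos a))]
  have h2 : 0 ≤ |w1 η a| := abs_nonneg _
  have h3 : ε * |cos a| ≤ ε * b * |cos a| := by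
    have := mul_nonneg hε (abs_nonneg (cos a))
    nlinarith
  nlinarith

theorem FF_le (hη : 0 ≤ η) (hb : 0 ≤ b) (hε : 0 ≤ ε) (a c : ℝ) :
    |FF η b ε a - FF η b ε c| ≤ AA η b ε * |a - c| := by
  rw [FF_sub]
  have := intervalIntegral.norm_integral_le_of_norm_le_const (a := c) (b := a) (C := AA η b ε)
    (f := ww η b ε) (fun x _ => by
      rw [Real.norm_of_nonneg (ww_nonneg hb hε x)]
      exact ww_le hη hb hε x)
  simpa using this

theorem FF_mono (hb : 0 ≤ b) (hε : 0 ≤ ε) {a c : ℝ} (h : c ≤ a) : FF η b ε c ≤ FF η b ε a := by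
  have := FF_sub (η := η) (b := b) (ε := ε) a c
  have h2 : 0 ≤ ∫ x in c..a, ww η b ε x :=
    intervalIntegral.integral_nonneg h (fun x _ => ww_nonneg hb hε x)
  linarith

theorem FF_ge (hb : 1 ≤ b) (hε : 0 ≤ ε) (a c : ℝ) :
    ε * |a - c| ≤ |FF η b ε a - FF η b ε c| := by
  wlog h : c ≤ a generalizing a c with H
  · rw [abs_sub_comm, abs_sub_comm (FF η b ε a)]
    exact H c a (le_of_not_ge h)
  rw [FF_sub, abs_of_nonneg (by linarith : 0 ≤ a - c)]
  have h2 : ∫ x in c..a, ε ≤ ∫ x in c..a, ww η b ε x :=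
    intervalIntegral.integral_mono_on h (by simp) (ww_int _ _) (fun x _ => ww_ge hb hε x)
  rw [intervalIntegral.integral_const, smul_eq_mul] at h2
  calc ε * (a - c) = (a - c) * ε := by ring
    _ ≤ _ := h2
    _ ≤ _ := le_abs_self _

theorem FF_pi_sub (a c : ℝ) :
    |FF η b ε (π - a) - FF η b ε (π - c)| = |FF η b ε a - FF η b ε c| := by
  rw [FF_sub, FF_sub]
  have h : (∫ x in (π - c)..(π - a), ww η b ε x) = ∫ x in a..c, ww η b ε (π - x) := by
    rw [intervalIntegral.integral_comp_sub_left (fun x => ww η b ε x) π]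
  have h2 : ∀ x, ww η b ε (π - x) = ww η b ε x := by
    intro x
    unfold ww w1
    rw [Real.sin_pi_sub, Real.cos_pi_sub]
    have : 2 * -cos x * sin x + 2 * η * (-cos x) ^ 3 * sin x
        = -(2 * cos x * sin x + 2 * η * cos x ^ 3 * sin x) := by ring
    rw [this, abs_neg, abs_neg]
  rw [h]
  simp_rw [h2]
  rw [intervalIntegral.integral_symm, abs_neg]

theorem FF_shift (hη : 0 ≤ η) (hb : 0 ≤ b) (hε : 0 ≤ ε) (α α' ω ω' : ℝ) :
    |FF η b ε (α + ω) - FF η b ε (α' + ω')|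
      ≤ |FF η b ε α - FF η b ε α'| + AA η b ε * |ω'| * |α - α'| + AA η b ε * |ω - ω'| := by
  have h1 : |FF η b ε (α + ω) - FF η b ε (α + ω')| ≤ AA η b ε * |ω - ω'| := by
    have := FF_le hη hb hε (α + ω) (α + ω')
    have e : α + ω - (α + ω') = ω - ω' := by ring
    rwa [e] at this
  have h2 : |(FF η b ε (α + ω') - FF η b ε (α' + ω')) - (FF η b ε α - FF η b ε α')|
      ≤ AA η b ε * |ω'| * |α - α'| := by
    rw [FF_sub, FF_sub]
    have e : (∫ x in (α' + ω')..(α + ω'), ww η b ε x) = ∫ x in α'..α, ww η b ε (x + ω') := by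
      rw [intervalIntegral.integral_comp_add_right (fun x => ww η b ε x) ω']
    have hc : Continuous (fun x => ww η b ε (x + ω')) := ww_cont.comp (by fun_prop)
    rw [e, ← intervalIntegral.integral_sub (hc.intervalIntegrable _ _) (ww_int _ _)]
    have := intervalIntegral.norm_integral_le_of_norm_le_const (a := α') (b := α)
      (C := AA η b ε * |ω'|)
      (f := fun x => ww η b ε (x + ω') - ww η b ε x) (fun x _ => by
        rw [Real.norm_eq_abs]
        have := ww_lip hη hb hε (x + ω') x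
        simpa using this)
    simpa using this
  calc |FF η b ε (α + ω) - FF η b ε (α' + ω')|
      = |(FF η b ε (α + ω) - FF η b ε (α + ω'))
        + (((FF η b ε (α + ω') - FF η b ε (α' + ω')) - (FF η b ε α - FF η b ε α'))
        + (FF η b ε α - FF η b ε α'))| := by congr 1; ring
    _ ≤ |FF η b ε (α + ω) - FF η b ε (α + ω')|
        + (|(FF η b ε (α + ω') - FF η b ε (α' + ω')) - (FF η b ε α - FF η b ε α')|
        + |FF η b ε α - FF η b ε α'|) := by
        refine (abs_add_le _ _).trans ?_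
        gcongr
        exact abs_add_le _ _
    _ ≤ AA η b ε * |ω - ω'| + (AA η b ε * |ω'| * |α - α'| + |FF η b ε α - FF η b ε α'|) := by
        gcongr
    _ = _ := by ring

/-- the weight as a function of the angle -/
theorem WW_cos (a : ℝ) : WW η b ε |cos a| =
    (cos a ^ 2 + η / 2 * cos a ^ 4) + ε * |cos a| + ε * b * (1 - |sin a|) := by
  unfold WW
  have h : √(1 - |cos a| ^ 2) = |sin a| := by
    rw [sq_abs, ← Real.sin_sq, Real.sqrt_sq_eq_abs]
  rw [h, sq_abs]
  have h4 : |cos a| ^ 4 = cos a ^ 4 := by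
    have : |cos a| ^ 4 = (|cos a| ^ 2) ^ 2 := by ring
    rw [this, sq_abs]; ring
  rw [h4]
  ring

theorem int_w1 (c a : ℝ) : ∫ x in c..a, w1 η x
    = (cos c ^ 2 + η / 2 * cos c ^ 4) - (cos a ^ 2 + η / 2 * cos a ^ 4) := by
  have h : ∀ x ∈ uIcc c a, HasDerivAt (fun x => -(cos x ^ 2 + η / 2 * cos x ^ 4)) (w1 η x) x := by
    intro x _
    have h1 := ((Real.hasDerivAt_cos x).pow 2).add (((Real.hasDerivAt_cos x).pow 4).const_mul (η / 2))
    have h2 := h1.neg
    refine h2.congr_deriv ?_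
    unfold w1
    push_cast
    ring
  rw [intervalIntegral.integral_eq_sub_of_hasDerivAt h (w1_cont.intervalIntegrable _ _)]
  ring

theorem WW_le_FF (hb : 0 ≤ b) (hε : 0 ≤ ε) (a c : ℝ) :
    |WW η b ε (|cos a|) - WW η b ε (|cos c|)| ≤ |FF η b ε a - FF η b ε c| := by
  wlog h : c ≤ a generalizing a c with H
  · rw [abs_sub_comm, abs_sub_comm (FF η b ε a)]
    exact H c a (le_of_not_ge h)
  rw [WW_cos, WW_cos]
  have h1 : |(cos a ^ 2 + η / 2 * cos a ^ 4) - (cos c ^ 2 + η / 2 * cos c ^ 4)|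
      ≤ ∫ x in c..a, |w1 η x| := by
    rw [abs_sub_comm, ← int_w1]
    exact intervalIntegral.abs_integral_le_integral_abs h
  have h2 : |(|cos a| - |cos c|)| ≤ ∫ x in c..a, |sin x| := by
    refine (abs_abs_sub_abs_le_abs_sub _ _).trans ?_
    rw [abs_sub_comm, ← integral_sin]
    exact intervalIntegral.abs_integral_le_integral_abs h
  have h3 : |(|sin a| - |sin c|)| ≤ ∫ x in c..a, |cos x| := by
    refine (abs_abs_sub_abs_le_abs_sub _ _).trans ?_
    rw [← integral_cos]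
    exact intervalIntegral.abs_integral_le_integral_abs h
  have hF : FF η b ε a - FF η b ε c = (∫ x in c..a, |w1 η x|) + ε * (∫ x in c..a, |sin x|)
      + ε * b * (∫ x in c..a, |cos x|) := by
    rw [FF_sub]
    unfold ww
    have i1 : IntervalIntegrable (fun x => |w1 η x|) volume c a :=
      (w1_cont.abs).intervalIntegrable _ _
    have i2 : IntervalIntegrable (fun x => ε * |sin x|) volume c a :=
      (by fun_prop : Continuous (fun x => ε * |sin x|)).intervalIntegrable _ _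
    have i3 : IntervalIntegrable (fun x => ε * b * |cos x|) volume c a :=
      (by fun_prop : Continuous (fun x => ε * b * |cos x|)).intervalIntegrable _ _
    rw [intervalIntegral.integral_add (i1.add i2) i3, intervalIntegral.integral_add i1 i2,
      intervalIntegral.integral_const_mul, intervalIntegral.integral_const_mul]
  have hid : (cos a ^ 2 + η / 2 * cos a ^ 4) + ε * |cos a| + ε * b * (1 - |sin a|)
      - ((cos c ^ 2 + η / 2 * cos c ^ 4) + ε * |cos c| + ε * b * (1 - |sin c|))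
      = ((cos a ^ 2 + η / 2 * cos a ^ 4) - (cos c ^ 2 + η / 2 * cos c ^ 4))
        + ε * (|cos a| - |cos c|) - ε * b * (|sin a| - |sin c|) := by ring
  rw [hid]
  refine le_trans ?_ (le_abs_self _)
  rw [hF]
  calc _ ≤ |(cos a ^ 2 + η / 2 * cos a ^ 4) - (cos c ^ 2 + η / 2 * cos c ^ 4)|
        + |ε * (|cos a| - |cos c|)| + |ε * b * (|sin a| - |sin c|)| := by
        refine (abs_sub _ _).trans ?_
        gcongr
        exact abs_add_le _ _
    _ = |(cos a ^ 2 + η / 2 * cos a ^ 4) - (cos c ^ 2 + η / 2 * cos c ^ 4)|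
        + ε * |(|cos a| - |cos c|)| + ε * b * |(|sin a| - |sin c|)| := by
        rw [abs_mul ε, abs_mul (ε * b), abs_of_nonneg hε, abs_of_nonneg (mul_nonneg hε hb)]
    _ ≤ _ := by gcongr

theorem FF_eq_WW (hη : 0 ≤ η) {a c : ℝ} (hc : 0 ≤ c) (hca : c ≤ a)
    (ha : a ≤ π / 2) : FF η b ε a - FF η b ε c = WW η b ε (cos c) - WW η b ε (cos a) := by
  have hπ := Real.pi_pos
  have h1 : ∀ x ∈ uIcc c a, ww η b ε x = w1 η x + ε * sin x + ε * b * cos x := by
    intro x hx
    rw [uIcc_of_le hca] at hx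
    have hs : 0 ≤ sin x := Real.sin_nonneg_of_nonneg_of_le_pi (by linarith [hx.1]) (by linarith [hx.2])
    have hcx : 0 ≤ cos x := Real.cos_nonneg_of_neg_pi_div_two_le_of_le (by linarith [hx.1])
      (by linarith [hx.2])
    unfold ww
    rw [abs_of_nonneg hs, abs_of_nonneg hcx, abs_of_nonneg]
    unfold w1
    positivity
  have hs : ∀ x, 0 ≤ x → x ≤ π / 2 → |sin x| = sin x := fun x h0 h2 =>
    abs_of_nonneg (Real.sin_nonneg_of_nonneg_of_le_pi h0 (by linarith))
  have hcc : ∀ x, 0 ≤ x → x ≤ π / 2 → |cos x| = cos x := fun x h0 h2 =>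
    abs_of_nonneg (Real.cos_nonneg_of_neg_pi_div_two_le_of_le (by linarith) h2)
  rw [FF_sub, intervalIntegral.integral_congr h1]
  have i1 : IntervalIntegrable (fun x => w1 η x) volume c a :=
      (w1_cont).intervalIntegrable _ _
  have i2 : IntervalIntegrable (fun x => ε * sin x) volume c a :=
    (by fun_prop : Continuous (fun x => ε * sin x)).intervalIntegrable _ _
  have i3 : IntervalIntegrable (fun x => ε * b * cos x) volume c a :=
    (by fun_prop : Continuous (fun x => ε * b * cos x)).intervalIntegrable _ _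
  rw [intervalIntegral.integral_add (i1.add i2) i3, intervalIntegral.integral_add i1 i2,
    intervalIntegral.integral_const_mul, intervalIntegral.integral_const_mul, int_w1,
    integral_sin, integral_cos]
  have e1 := WW_cos (η := η) (b := b) (ε := ε) c
  have e2 := WW_cos (η := η) (b := b) (ε := ε) a
  rw [hcc c hc (by linarith), hs c hc (by linarith)] at e1
  rw [hcc a (by linarith) ha, hs a (by linarith) ha] at e2
  rw [e1, e2]
  ring

theorem FF_le_WW (hη : 0 ≤ η) {a c : ℝ} (hc : c ∈ Icc 0 (π / 2))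
    (ha : a ∈ Icc 0 (π / 2)) : |FF η b ε a - FF η b ε c| = |WW η b ε (cos a) - WW η b ε (cos c)| := by
  rcases le_total c a with h | h
  · rw [FF_eq_WW hη hc.1 h ha.2, abs_sub_comm]
  · rw [abs_sub_comm, FF_eq_WW hη ha.1 h hc.2]

/-- lower bound for the increments of the weight -/
theorem WW_diff (hη : 0 ≤ η) (hb : 0 ≤ b) (hε : 0 ≤ ε) {x y : ℝ} (hy : 0 ≤ y) (hyx : y ≤ x)
    (hx : x ≤ 1) : WW η b ε x - WW η b ε y = (x ^ 2 - y ^ 2) * (1 + η / 2 * (x ^ 2 + y ^ 2))
      + ε * (x - y) + ε * b * (√(1 - y ^ 2) - √(1 - x ^ 2)) := by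
  unfold WW; ring

theorem sqrt_mono_aux {x y : ℝ} (hy : 0 ≤ y) (hyx : y ≤ x) : √(1 - x ^ 2) ≤ √(1 - y ^ 2) := by
  apply Real.sqrt_le_sqrt
  nlinarith

theorem WW_mono (hη : 0 ≤ η) (hb : 0 ≤ b) (hε : 0 ≤ ε) {x y : ℝ} (hy : 0 ≤ y) (hyx : y ≤ x)
    (hx : x ≤ 1) : WW η b ε y ≤ WW η b ε x := by
  have h := WW_diff hη hb hε hy hyx hx
  have h1 := sqrt_mono_aux hy hyx
  have h2 : 0 ≤ ε * (x - y) := mul_nonneg hε (by linarith)
  have h3 : 0 ≤ ε * b * (√(1 - y ^ 2) - √(1 - x ^ 2)) :=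
    mul_nonneg (mul_nonneg hε hb) (by linarith)
  have h4 : 0 ≤ (x ^ 2 - y ^ 2) * (1 + η / 2 * (x ^ 2 + y ^ 2)) := by
    apply mul_nonneg
    · nlinarith
    · positivity
  linarith

theorem WW_zero : WW η b ε 0 = 0 := by
  unfold WW; simp

theorem sq_le_WW (hη : 0 ≤ η) (hb : 0 ≤ b) (hε : 0 ≤ ε) {x y : ℝ} (hy : 0 ≤ y) (hyx : y ≤ x)
    (hx : x ≤ 1) : x ^ 2 - y ^ 2 ≤ WW η b ε x - WW η b ε y := by
  rw [WW_diff hη hb hε hy hyx hx]
  have h1 := sqrt_mono_aux hy hyx
  have h2 : 0 ≤ ε * (x - y) := mul_nonneg hε (by linarith)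
  have h3 : 0 ≤ ε * b * (√(1 - y ^ 2) - √(1 - x ^ 2)) :=
    mul_nonneg (mul_nonneg hε hb) (by linarith)
  have h4 : 0 ≤ x ^ 2 - y ^ 2 := by nlinarith
  have h5 : 0 ≤ (x ^ 2 - y ^ 2) * (η / 2 * (x ^ 2 + y ^ 2)) := by positivity
  nlinarith

theorem WW_cont : Continuous (WW η b ε) := by
  unfold WW; fun_prop

theorem WW_le_AA (hη : 0 ≤ η) (hb : 0 ≤ b) (hε : 0 ≤ ε) {x : ℝ} (hx : 0 ≤ x) (hx1 : x ≤ 1) :
    WW η b ε x ≤ AA η b ε := by
  unfold WW AA
  have h1 : x ^ 2 ≤ 1 := by nlinarith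
  have h2 : x ^ 4 ≤ 1 := by
    have : x ^ 4 = x ^ 2 * x ^ 2 := by ring
    nlinarith
  have h3 : η / 2 * x ^ 4 ≤ η / 2 * 1 := by gcongr
  have h4 : 0 ≤ √(1 - x ^ 2) := Real.sqrt_nonneg _
  have h5 : ε * (x + b * (1 - √(1 - x ^ 2))) ≤ ε * (1 + b * 1) := by
    gcongr
    linarith
  nlinarith

end Pool.Agent.Helper74.Hom
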