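import Mathlib
import Pool.Agent.Helper74.Hom.Weight

/-!
The linearised operator: contraction in the weighted Lipschitz norm, after a rank one correction.
-/

set_option autoImplicit false
set_option linter.unusedVariables false

namespace Pool.Agent.Helper74.Hom

open Real Set MeasureTheory

/-- the law of one coordinate of a uniform point of the unit sphere in dimension `d` -/
structure Law (ν : Measure ℝ) (d : ℝ) : Prop where
  prob : IsProbabilityMeasure ν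
  supp : ∀ᵐ t ∂ν, |t| ≤ 1
  symm : ∀ F : ℝ → ℝ, ∫ t, F (-t) ∂ν = ∫ t, F t ∂ν
  dpos : 0 < d
  m2 : ∫ t, t ^ 2 ∂ν = 1 / d
  m4 : ∃ q : ℝ, 0 ≤ q ∧ q < 1 ∧ ∫ t, t ^ 4 ∂ν ≤ q / d
  tail : ∀ η : ℝ, 0 < η → ∃ s : ℝ, 0 ≤ s ∧ s < 1 ∧ ν.real {t : ℝ | s < |t|} ≤ η
  dens : ∃ c : ℝ, 0 < c ∧ ∀ F : ℝ → ℝ, Continuous F → (∀ t ∈ Icc (0:ℝ) 1, 0 ≤ F t) →
    c * ∫ t in (0:ℝ)..(1 / 2), F t ≤ ∫ t, F |t| ∂ν

/-- integrability of continuous functions for measures with bounded support -/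
theorem Law.integrable {ν : Measure ℝ} {d : ℝ} (h : Law ν d) {F : ℝ → ℝ}
    (hF : AEStronglyMeasurable F ν) {C : ℝ} (hC : ∀ t ∈ Icc (-1:ℝ) 1, |F t| ≤ C) :
    Integrable F ν := by
  have := h.prob
  refine Integrable.of_bound hF C ?_
  filter_upwards [h.supp] with t ht
  rw [Real.norm_eq_abs]
  exact hC t (abs_le.1 ht)

theorem Law.integrable' {ν : Measure ℝ} {d : ℝ} (h : Law ν d) {F : ℝ → ℝ}
    (hF : Continuous F) : Integrable F ν := by
  obtain ⟨C, hC⟩ := (isCompact_Icc (a := (-1:ℝ)) (b := 1)).exists_bound_of_continuousOn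
    hF.continuousOn
  exact h.integrable hF.aestronglyMeasurable (fun t ht => hC t ht)

/-- the spherical Radon transform on zonal functions -/
noncomputable def RR (ν : Measure ℝ) (h : ℝ → ℝ) (x : ℝ) : ℝ := ∫ t, h (√(1 - x ^ 2) * |t|) ∂ν

/-- the correction functional -/
noncomputable def vp (T : ℝ) (h : ℝ → ℝ) : ℝ := ∫ y in (0:ℝ)..T, (h T - h y)

theorem vp_eq {h : ℝ → ℝ} (hc : Continuous h) (T : ℝ) : vp T h = T * h T - ∫ y in (0:ℝ)..T, h y := by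
  unfold vp
  rw [intervalIntegral.integral_sub (by simp) (hc.intervalIntegrable _ _),
    intervalIntegral.integral_const, smul_eq_mul, sub_zero]

theorem vp_add {f g : ℝ → ℝ} (hf : Continuous f) (hg : Continuous g) (T : ℝ) :
    vp T (fun x => f x + g x) = vp T f + vp T g := by
  rw [vp_eq (by fun_prop : Continuous (fun x => f x + g x)), vp_eq hf, vp_eq hg,
    intervalIntegral.integral_add (hf.intervalIntegrable _ _) (hg.intervalIntegrable _ _)]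
  ring

theorem vp_sub {f g : ℝ → ℝ} (hf : Continuous f) (hg : Continuous g) (T : ℝ) :
    vp T (fun x => f x - g x) = vp T f - vp T g := by
  rw [vp_eq (by fun_prop : Continuous (fun x => f x - g x)), vp_eq hf, vp_eq hg,
    intervalIntegral.integral_sub (hf.intervalIntegrable _ _) (hg.intervalIntegrable _ _)]
  ring

theorem int_ge_mul {D : ℝ → ℝ} (hc : Continuous D) {T T' : ℝ} (h0 : 0 ≤ T) (hT : T ≤ T')
    (h1 : T' ≤ 1) (hm : MonotoneOn D (Icc 0 1)) : (T' - T) * D T ≤ ∫ y in T..T', D y := by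
  have h2 : ∫ y in T..T', D T ≤ ∫ y in T..T', D y :=
    intervalIntegral.integral_mono_on hT (by simp) (hc.intervalIntegrable _ _)
      (fun y hy => hm ⟨h0, hT.trans h1⟩ ⟨h0.trans hy.1, hy.2.trans h1⟩ hy.1)
  simpa using h2

theorem int_le_mul {D : ℝ → ℝ} (hc : Continuous D) {T T' : ℝ} (h0 : 0 ≤ T) (hT : T ≤ T')
    (h1 : T' ≤ 1) (hm : MonotoneOn D (Icc 0 1)) : ∫ y in T..T', D y ≤ (T' - T) * D T' := by
  have h2 : ∫ y in T..T', D y ≤ ∫ y in T..T', D T' :=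
    intervalIntegral.integral_mono_on hT (hc.intervalIntegrable _ _) (by simp)
      (fun y hy => hm ⟨h0.trans hy.1, hy.2.trans h1⟩ ⟨h0.trans hT, h1⟩ hy.2)
  simpa using h2

theorem vp_mono {D : ℝ → ℝ} (hc : Continuous D) {T T' : ℝ} (h0 : 0 ≤ T) (hT : T ≤ T')
    (h1 : T' ≤ 1) (hm : MonotoneOn D (Icc 0 1)) : vp T D ≤ vp T' D := by
  rw [vp_eq hc, vp_eq hc]
  have h2 := int_le_mul hc h0 hT h1 hm
  have h3 : ∫ y in (0:ℝ)..T', D y = (∫ y in (0:ℝ)..T, D y) + ∫ y in T..T', D y := by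
    rw [intervalIntegral.integral_add_adjacent_intervals (hc.intervalIntegrable _ _)
      (hc.intervalIntegrable _ _)]
  have h4 : D T ≤ D T' := hm ⟨h0, hT.trans h1⟩ ⟨h0.trans hT, h1⟩ hT
  rw [h3]
  nlinarith

theorem vp_nonneg {D : ℝ → ℝ} (hc : Continuous D) {T : ℝ} (h0 : 0 ≤ T)
    (h1 : T ≤ 1) (hm : MonotoneOn D (Icc 0 1)) : 0 ≤ vp T D := by
  have := vp_mono hc le_rfl h0 h1 hm
  have h2 : vp 0 D = 0 := by simp [vp]
  linarith

theorem sqrt_fact {x : ℝ} (h0 : 0 ≤ x) (h1 : x ≤ 1) :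
    0 ≤ √(1 - x ^ 2) ∧ √(1 - x ^ 2) ≤ 1 ∧ √(1 - x ^ 2) ^ 2 = 1 - x ^ 2 := by
  refine ⟨Real.sqrt_nonneg _, ?_, Real.sq_sqrt (by nlinarith)⟩
  rw [Real.sqrt_le_one]
  nlinarith

/-- minorisation of the increments -/
theorem minor {ν : Measure ℝ} {d : ℝ} (hν : Law ν d) {cν : ℝ} (hcν : 0 < cν)
    (hdens : ∀ F : ℝ → ℝ, Continuous F → (∀ t ∈ Icc (0:ℝ) 1, 0 ≤ F t) →
    cν * ∫ t in (0:ℝ)..(1 / 2), F t ≤ ∫ t, F |t| ∂ν) {D : ℝ → ℝ} (hc : Continuous D)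
    (hm : MonotoneOn D (Icc 0 1)) {x y x1 : ℝ} (hy : 0 ≤ y) (hyx : y ≤ x) (hx1 : x ≤ x1)
    (hx11 : x1 < 1) :
    cν * ((x ^ 2 - y ^ 2) / 2 * vp (√(1 - x1 ^ 2) / 2) D) ≤ RR ν D y - RR ν D x := by
  obtain ⟨a1, a2, a3⟩ := sqrt_fact (x := x) (by linarith) (by linarith)
  obtain ⟨b1, b2, b3⟩ := sqrt_fact (x := y) (by linarith) (by linarith)
  obtain ⟨e1, e2, e3⟩ := sqrt_fact (x := x1) (by linarith) (by linarith)
  have hcc := sqrt_mono_aux hy hyx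
  have hc1 := sqrt_mono_aux (hy.trans hyx) hx1
  have hc1pos : 0 < √(1 - x1 ^ 2) := by
    apply Real.sqrt_pos.2
    nlinarith
  set c := √(1 - x ^ 2) with hcd
  set c' := √(1 - y ^ 2) with hc'd
  set c1 := √(1 - x1 ^ 2) with hc1d
  have hcpos : 0 < c := by linarith
  have hc'pos : 0 < c' := by linarith
  have hint : ∀ k : ℝ, Integrable (fun t => D (k * |t|)) ν := fun k =>
    hν.integrable' (by fun_prop)
  have h1 : RR ν D y - RR ν D x = ∫ t, (D (c' * |t|) - D (c * |t|)) ∂ν := by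
    unfold RR
    rw [← hcd, ← hc'd, integral_sub (hint _) (hint _)]
  rw [h1]
  have h2 := hdens (fun t => D (c' * t) - D (c * t)) (by fun_prop) (fun t ht => by
    have : D (c * t) ≤ D (c' * t) := by
      apply hm
      · exact ⟨mul_nonneg a1 ht.1, mul_le_one₀ a2 ht.1 ht.2⟩
      · exact ⟨mul_nonneg b1 ht.1, mul_le_one₀ b2 ht.1 ht.2⟩
      · exact mul_le_mul_of_nonneg_right hcc ht.1
    linarith)
  refine le_trans ?_ h2
  apply mul_le_mul_of_nonneg_left _ hcν.le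
  rw [intervalIntegral.integral_sub
    ((by fun_prop : Continuous (fun t => D (c' * t))).intervalIntegrable _ _)
    ((by fun_prop : Continuous (fun t => D (c * t))).intervalIntegrable _ _),
    intervalIntegral.integral_comp_mul_left _ hc'pos.ne',
    intervalIntegral.integral_comp_mul_left _ hcpos.ne']
  simp only [mul_zero, smul_eq_mul]
  have e4 : c' * (1 / 2) = c' / 2 := by ring
  have e5 : c * (1 / 2) = c / 2 := by ring
  rw [e4, e5]
  set A := ∫ y in (0:ℝ)..(c / 2), D y with hA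
  have h3 : ∫ y in (0:ℝ)..(c' / 2), D y = A + ∫ y in (c / 2)..(c' / 2), D y := by
    rw [hA, intervalIntegral.integral_add_adjacent_intervals (hc.intervalIntegrable _ _)
      (hc.intervalIntegrable _ _)]
  have h4 := int_ge_mul hc (T := c / 2) (T' := c' / 2) (by linarith) (by linarith) (by linarith) hm
  have h5 : vp (c1 / 2) D ≤ vp (c / 2) D :=
    vp_mono hc (by linarith) (by linarith) (by linarith) hm
  have h50 : 0 ≤ vp (c1 / 2) D := vp_nonneg hc (by linarith) (by linarith) hm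
  have h6 : vp (c / 2) D = c / 2 * D (c / 2) - A := vp_eq hc _
  rw [h3]
  have h7 : c'⁻¹ * (A + (c' / 2 - c / 2) * D (c / 2)) - c⁻¹ * A
      = (c' - c) / (c * c') * vp (c / 2) D := by
    rw [h6]
    field_simp
    ring
  have h8 : c'⁻¹ * (A + (c' / 2 - c / 2) * D (c / 2)) ≤
      c'⁻¹ * (A + ∫ y in (c / 2)..(c' / 2), D y) := by
    apply mul_le_mul_of_nonneg_left _ (inv_nonneg.2 hc'pos.le)
    linarith
  have h9 : (x ^ 2 - y ^ 2) / 2 ≤ (c' - c) / (c * c') := by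
    rw [le_div_iff₀ (mul_pos hcpos hc'pos)]
    have e6 : x ^ 2 - y ^ 2 = (c' - c) * (c' + c) := by
      have : (c' - c) * (c' + c) = c' ^ 2 - c ^ 2 := by ring
      rw [this, a3, b3]; ring
    rw [e6]
    have h10 : c * c' ≤ 1 := mul_le_one₀ a2 b1 b2
    have h11 : 0 ≤ c' - c := by linarith
    have h12 : (c' - c) * (c' + c) ≤ (c' - c) * 2 := mul_le_mul_of_nonneg_left (by linarith) h11
    have h13 : 0 ≤ (c' - c) * (c' + c) / 2 :=
      div_nonneg (mul_nonneg h11 (by linarith)) (by norm_num)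
    calc (c' - c) * (c' + c) / 2 * (c * c') ≤ (c' - c) * (c' + c) / 2 * 1 :=
          mul_le_mul_of_nonneg_left h10 h13
      _ ≤ c' - c := by linarith
  calc (x ^ 2 - y ^ 2) / 2 * vp (c1 / 2) D ≤ (c' - c) / (c * c') * vp (c / 2) D := by
        apply mul_le_mul h9 h5 h50
        apply div_nonneg
        · linarith
        · positivity
    _ = c'⁻¹ * (A + (c' / 2 - c / 2) * D (c / 2)) - c⁻¹ * A := h7.symm
    _ ≤ _ := by linarith

/-- monotone functions have nonnegative increments -/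
theorem RR_mono {ν : Measure ℝ} {d : ℝ} (hν : Law ν d) {D : ℝ → ℝ} (hc : Continuous D)
    (hm : MonotoneOn D (Icc 0 1)) {x y : ℝ} (hy : 0 ≤ y) (hyx : y ≤ x) (hx1 : x ≤ 1) :
    RR ν D x ≤ RR ν D y := by
  obtain ⟨a1, a2, a3⟩ := sqrt_fact (x := x) (by linarith) (by linarith)
  obtain ⟨b1, b2, b3⟩ := sqrt_fact (x := y) (by linarith) (by linarith)
  have hcc := sqrt_mono_aux hy hyx
  unfold RR
  apply integral_mono_ae (hν.integrable' (by fun_prop)) (hν.integrable' (by fun_prop))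
  filter_upwards [hν.supp] with t ht
  have h0 := abs_nonneg t
  apply hm
  · exact ⟨mul_nonneg a1 h0, mul_le_one₀ a2 h0 ht⟩
  · exact ⟨mul_nonneg b1 h0, mul_le_one₀ b2 h0 ht⟩
  · exact mul_le_mul_of_nonneg_right hcc h0

/-- pointwise bound for the last part of the weight, algebraic form -/
theorem sqrt_alg1 {x y t : ℝ} (hy : 0 ≤ y) (hyx : y ≤ x) (hx : x ≤ 1) (ht2 : t ^ 2 ≤ 1) :
    √(1 - t ^ 2 + x ^ 2 * t ^ 2) - √(1 - t ^ 2 + y ^ 2 * t ^ 2) ≤ x - y := by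
  have ht0 : 0 ≤ t ^ 2 := sq_nonneg t
  have hx0 : 0 ≤ x := hy.trans hyx
  have hA : √(1 - t ^ 2 + x ^ 2 * t ^ 2) ≤ x - y + √(1 - t ^ 2 + y ^ 2 * t ^ 2) := by
    have hB0 := Real.sqrt_nonneg (1 - t ^ 2 + y ^ 2 * t ^ 2)
    have hB2 : (√(1 - t ^ 2 + y ^ 2 * t ^ 2)) ^ 2 = 1 - t ^ 2 + y ^ 2 * t ^ 2 :=
      Real.sq_sqrt (by nlinarith [sq_nonneg y, mul_nonneg (sq_nonneg y) ht0])
    have hBy : y ≤ √(1 - t ^ 2 + y ^ 2 * t ^ 2) := by
      apply Real.le_sqrt_of_sq_le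
      have h1 : 0 ≤ (1 - t ^ 2) * (1 - y ^ 2) := mul_nonneg (by linarith) (by nlinarith)
      nlinarith
    set B := √(1 - t ^ 2 + y ^ 2 * t ^ 2) with hB
    rw [Real.sqrt_le_left (by linarith)]
    have h2 : (x - y + B) ^ 2 = (x - y) ^ 2 + 2 * (x - y) * B + B ^ 2 := by ring
    rw [h2, hB2]
    have h3 : 2 * (x - y) * y ≤ 2 * (x - y) * B :=
      mul_le_mul_of_nonneg_left hBy (by linarith)
    have h4 : (x ^ 2 - y ^ 2) * t ^ 2 ≤ (x ^ 2 - y ^ 2) * 1 :=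
      mul_le_mul_of_nonneg_left ht2 (by nlinarith)
    nlinarith
  linarith

theorem sqrt_alg2 {x y t s : ℝ} (hy : 0 ≤ y) (hyx : y ≤ x) (hs1 : s ^ 2 < 1) (hts : t ^ 2 ≤ s ^ 2) :
    √(1 - t ^ 2 + x ^ 2 * t ^ 2) - √(1 - t ^ 2 + y ^ 2 * t ^ 2) ≤
      t ^ 2 * (x ^ 2 - y ^ 2) / (2 * √(1 - s ^ 2)) := by
  have ht0 : 0 ≤ t ^ 2 := sq_nonneg t
  have hx0 : 0 ≤ x := hy.trans hyx
  have hA2 : (√(1 - t ^ 2 + x ^ 2 * t ^ 2)) ^ 2 = 1 - t ^ 2 + x ^ 2 * t ^ 2 :=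
    Real.sq_sqrt (by nlinarith [sq_nonneg x, mul_nonneg (sq_nonneg x) ht0])
  have hB2 : (√(1 - t ^ 2 + y ^ 2 * t ^ 2)) ^ 2 = 1 - t ^ 2 + y ^ 2 * t ^ 2 :=
    Real.sq_sqrt (by nlinarith [sq_nonneg y, mul_nonneg (sq_nonneg y) ht0])
  have hspos : 0 < √(1 - s ^ 2) := Real.sqrt_pos.2 (by linarith)
  have hAs : √(1 - s ^ 2) ≤ √(1 - t ^ 2 + x ^ 2 * t ^ 2) := by
    apply Real.sqrt_le_sqrt
    nlinarith [mul_nonneg (sq_nonneg x) ht0]
  have hBs : √(1 - s ^ 2) ≤ √(1 - t ^ 2 + y ^ 2 * t ^ 2) := by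
    apply Real.sqrt_le_sqrt
    nlinarith [mul_nonneg (sq_nonneg y) ht0]
  have hAB : √(1 - t ^ 2 + y ^ 2 * t ^ 2) ≤ √(1 - t ^ 2 + x ^ 2 * t ^ 2) := by
    apply Real.sqrt_le_sqrt
    nlinarith [mul_nonneg ht0 (by nlinarith : 0 ≤ x ^ 2 - y ^ 2)]
  rw [le_div_iff₀ (by positivity)]
  set A := √(1 - t ^ 2 + x ^ 2 * t ^ 2) with hA
  set B := √(1 - t ^ 2 + y ^ 2 * t ^ 2) with hB
  have hd : (A - B) * (A + B) = t ^ 2 * (x ^ 2 - y ^ 2) := by
    have : (A - B) * (A + B) = A ^ 2 - B ^ 2 := by ring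
    rw [this, hA2, hB2]; ring
  rw [← hd]
  apply mul_le_mul_of_nonneg_left _ (by linarith)
  linarith

/-- pointwise bound for the last part of the weight -/
theorem sqrt_part {x y t s : ℝ} (hy : 0 ≤ y) (hyx : y ≤ x) (hx : x ≤ 1) (ht : |t| ≤ 1)
    (hs : 0 ≤ s) (hs1 : s < 1) :
    √(1 - (√(1 - x ^ 2) * |t|) ^ 2) - √(1 - (√(1 - y ^ 2) * |t|) ^ 2)
      ≤ (x ^ 2 - y ^ 2) * (1 / (2 * √(1 - s ^ 2))) * t ^ 2
        + (x - y) * indicator {t : ℝ | s < |t|} 1 t := by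
  obtain ⟨a1, a2, a3⟩ := sqrt_fact (x := x) (by linarith) (by linarith)
  obtain ⟨b1, b2, b3⟩ := sqrt_fact (x := y) (by linarith) (by linarith)
  have ht2 : t ^ 2 ≤ 1 := by
    rw [← sq_abs]
    exact pow_le_one₀ (abs_nonneg t) ht
  have e1 : 1 - (√(1 - x ^ 2) * |t|) ^ 2 = 1 - t ^ 2 + x ^ 2 * t ^ 2 := by
    rw [mul_pow, a3, sq_abs]; ring
  have e2 : 1 - (√(1 - y ^ 2) * |t|) ^ 2 = 1 - t ^ 2 + y ^ 2 * t ^ 2 := by
    rw [mul_pow, b3, sq_abs]; ring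
  rw [e1, e2]
  by_cases hts : s < |t|
  · have hind : indicator {t : ℝ | s < |t|} (1 : ℝ → ℝ) t = 1 := by
      rw [indicator_of_mem (by exact hts)]; rfl
    rw [hind]
    have h1 := sqrt_alg1 hy hyx hx ht2
    have h5 : 0 ≤ (x ^ 2 - y ^ 2) * (1 / (2 * √(1 - s ^ 2))) * t ^ 2 := by
      have : 0 ≤ x ^ 2 - y ^ 2 := by nlinarith
      positivity
    linarith
  · have hind : indicator {t : ℝ | s < |t|} (1 : ℝ → ℝ) t = 0 := by
      rw [indicator_of_notMem]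
      exact hts
    rw [hind, mul_zero, add_zero]
    push Not at hts
    have hss : t ^ 2 ≤ s ^ 2 := by
      rw [← sq_abs]
      exact pow_le_pow_left₀ (abs_nonneg t) hts 2
    have h1 := sqrt_alg2 (x := x) hy hyx (by nlinarith : s ^ 2 < 1) hss
    refine h1.trans (le_of_eq ?_)
    ring

/-- increments of the transform of the weight -/
theorem RW_bound {ν : Measure ℝ} {d : ℝ} (hν : Law ν d) {η b ε q s : ℝ} (hη : 0 ≤ η) (hb : 0 ≤ b)
    (hε : 0 ≤ ε) (hq : ∫ t, t ^ 4 ∂ν ≤ q / d) (hs : 0 ≤ s) (hs1 : s < 1) {x y : ℝ} (hy : 0 ≤ y)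
    (hyx : y ≤ x) (hx : x ≤ 1) :
    RR ν (WW η b ε) y - RR ν (WW η b ε) x ≤
      (x ^ 2 - y ^ 2) * (1 / d + η / 2 * (q / d) * (2 - x ^ 2 - y ^ 2)
        + ε * b * (1 / (2 * √(1 - s ^ 2))) * (1 / d))
      + ε * (√(1 - y ^ 2) - √(1 - x ^ 2)) + ε * b * (x - y) * ν.real {t : ℝ | s < |t|} := by
  have := hν.prob
  obtain ⟨a1, a2, a3⟩ := sqrt_fact (x := x) (by linarith) (by linarith)
  obtain ⟨b1, b2, b3⟩ := sqrt_fact (x := y) (by linarith) (by linarith)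
  have hcc := sqrt_mono_aux hy hyx
  have hW : Continuous (WW η b ε) := WW_cont
  have h1 : RR ν (WW η b ε) y - RR ν (WW η b ε) x
      = ∫ t, (WW η b ε (√(1 - y ^ 2) * |t|) - WW η b ε (√(1 - x ^ 2) * |t|)) ∂ν := by
    unfold RR
    rw [integral_sub (hν.integrable' (by fun_prop)) (hν.integrable' (by fun_prop))]
  rw [h1]
  have hd4 : 0 ≤ x ^ 2 - y ^ 2 := by nlinarith
  have hmeas : MeasurableSet {t : ℝ | s < |t|} := measurableSet_lt measurable_const measurable_norm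
  have hint1 : Integrable (fun t : ℝ => indicator {t : ℝ | s < |t|} (1 : ℝ → ℝ) t) ν :=
    (integrable_const (1 : ℝ)).indicator hmeas
  set κ := 1 / (2 * √(1 - s ^ 2)) with hκ
  have hle : ∫ t, (WW η b ε (√(1 - y ^ 2) * |t|) - WW η b ε (√(1 - x ^ 2) * |t|)) ∂ν
      ≤ ∫ t, (((x ^ 2 - y ^ 2) * t ^ 2 + η / 2 * (x ^ 2 - y ^ 2) * (2 - x ^ 2 - y ^ 2) * t ^ 4
        + ε * (√(1 - y ^ 2) - √(1 - x ^ 2))
        + ε * b * (x ^ 2 - y ^ 2) * κ * t ^ 2)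
        + ε * b * (x - y) * indicator {t : ℝ | s < |t|} (1 : ℝ → ℝ) t) ∂ν := by
    apply MeasureTheory.integral_mono_ae
    · exact hν.integrable' (by fun_prop)
    · exact (hν.integrable' (by fun_prop)).add (hint1.const_mul _)
    · filter_upwards [hν.supp] with t ht
      have h0 := abs_nonneg t
      have hsq := sqrt_part hy hyx hx ht hs hs1
      rw [← hκ] at hsq
      have e4 : |t| ^ 4 = t ^ 4 := by
        have : |t| ^ 4 = (|t| ^ 2) ^ 2 := by ring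
        rw [this, sq_abs]; ring
      have e2 : (√(1 - y ^ 2) * |t|) ^ 2 - (√(1 - x ^ 2) * |t|) ^ 2 = (x ^ 2 - y ^ 2) * t ^ 2 := by
        rw [mul_pow, mul_pow, a3, b3, sq_abs]; ring
      have e5 : (√(1 - y ^ 2) * |t|) ^ 4 - (√(1 - x ^ 2) * |t|) ^ 4
          = (x ^ 2 - y ^ 2) * (2 - x ^ 2 - y ^ 2) * t ^ 4 := by
        have e6 : (√(1 - y ^ 2) * |t|) ^ 4 = (1 - y ^ 2) ^ 2 * t ^ 4 := by
          have : (√(1 - y ^ 2) * |t|) ^ 4 = (√(1 - y ^ 2) ^ 2) ^ 2 * |t| ^ 4 := by ring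
          rw [this, b3, e4]
        have e7 : (√(1 - x ^ 2) * |t|) ^ 4 = (1 - x ^ 2) ^ 2 * t ^ 4 := by
          have : (√(1 - x ^ 2) * |t|) ^ 4 = (√(1 - x ^ 2) ^ 2) ^ 2 * |t| ^ 4 := by ring
          rw [this, a3, e4]
        rw [e6, e7]; ring
      have hid : WW η b ε (√(1 - y ^ 2) * |t|) - WW η b ε (√(1 - x ^ 2) * |t|)
          = ((√(1 - y ^ 2) * |t|) ^ 2 - (√(1 - x ^ 2) * |t|) ^ 2)
            + η / 2 * ((√(1 - y ^ 2) * |t|) ^ 4 - (√(1 - x ^ 2) * |t|) ^ 4)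
            + ε * ((√(1 - y ^ 2) - √(1 - x ^ 2)) * |t|)
            + ε * b * (√(1 - (√(1 - x ^ 2) * |t|) ^ 2) - √(1 - (√(1 - y ^ 2) * |t|) ^ 2)) := by
        unfold WW; ring
      rw [hid, e2, e5]
      have h6 : ε * ((√(1 - y ^ 2) - √(1 - x ^ 2)) * |t|) ≤ ε * ((√(1 - y ^ 2) - √(1 - x ^ 2)) * 1) := by
        gcongr
      have h7 := mul_le_mul_of_nonneg_left hsq (mul_nonneg hε hb)
      linarith
  refine hle.trans ?_
  rw [integral_add (hν.integrable' (by fun_prop)) (hint1.const_mul _),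
    integral_add (hν.integrable' (by fun_prop)) (hν.integrable' (by fun_prop)),
    integral_add (hν.integrable' (by fun_prop)) (hν.integrable' (by fun_prop)),
    integral_add (hν.integrable' (by fun_prop)) (hν.integrable' (by fun_prop))]
  have h8 : ∫ t, indicator {t : ℝ | s < |t|} (1 : ℝ → ℝ) t ∂ν = ν.real {t : ℝ | s < |t|} := by
    rw [integral_indicator_one hmeas]
  simp only [MeasureTheory.integral_const_mul, hν.m2, integral_const, probReal_univ, smul_eq_mul,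
    one_mul, h8]
  have h9 : 0 ≤ η / 2 * (x ^ 2 - y ^ 2) * (2 - x ^ 2 - y ^ 2) := by
    have : 0 ≤ 2 - x ^ 2 - y ^ 2 := by nlinarith
    positivity
  have h10 := mul_le_mul_of_nonneg_left hq h9
  linarith

end Pool.Agent.Helper74.Hom
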