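import Mathlib
import Pool.Agent.Helper74.Hom.Lin

/-!
Auxiliary one variable estimates: powers near `1`, the function `arccos`, even parts.
-/

set_option autoImplicit false
set_option linter.unusedVariables false

namespace Pool.Agent.Helper74.Hom

open Real Set MeasureTheory

/-- `r ^ i` is close to its linearisation in the Lipschitz sense -/
theorem rpow_lin (i : ℝ) : ∃ C : ℝ, 0 < C ∧ ∀ e r r' : ℝ, e ≤ 1 / 2 → |r - 1| ≤ e → |r' - 1| ≤ e →
    |r ^ i - r' ^ i - i * (r - r')| ≤ C * e * |r - r'| := by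
  obtain ⟨K, hK⟩ := (isCompact_Icc (a := (1 / 2 : ℝ)) (b := 3 / 2)).exists_bound_of_continuousOn
    (f := fun r => (i - 1) * r ^ (i - 2)) (by
      apply ContinuousOn.mul continuousOn_const
      intro x hx
      apply ContinuousAt.continuousWithinAt
      apply Real.continuousAt_rpow_const
      left
      have := hx.1
      linarith)
  have hK0 : 0 ≤ K := (norm_nonneg _).trans (hK 1 (by norm_num))
  refine ⟨|i| * K + 1, by positivity, ?_⟩
  intro e r r' he hr hr'
  have he0 : 0 ≤ e := (abs_nonneg _).trans hr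
  -- first derivative
  have h1 : ∀ s ∈ Icc (1 - e) (1 + e), |s ^ (i - 1) - 1| ≤ K * e := by
    intro s hs
    have hconv : Convex ℝ (Icc (1 - e) (1 + e)) := convex_Icc _ _
    have := hconv.norm_image_sub_le_of_norm_hasDerivWithin_le (f := fun x => x ^ (i - 1))
      (f' := fun x => (i - 1) * x ^ (i - 2)) (C := K) (x := 1) (y := s)
      (fun x hx => by
        have hx0 : x ≠ 0 := by have := hx.1; intro h; linarith
        have := (Real.hasDerivAt_rpow_const (x := x) (p := i - 1) (Or.inl hx0)).hasDerivWithinAt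
          (s := Icc (1 - e) (1 + e))
        have e2 : i - 1 - 1 = i - 2 := by ring
        rwa [e2] at this)
      (fun x hx => hK x ⟨by have := hx.1; linarith, by have := hx.2; linarith⟩)
      ⟨by linarith, by linarith⟩ hs
    simp only [Real.one_rpow, Real.norm_eq_abs] at this
    refine this.trans ?_
    apply mul_le_mul_of_nonneg_left _ hK0
    rw [abs_le]
    constructor <;> linarith [hs.1, hs.2]
  have hconv : Convex ℝ (Icc (1 - e) (1 + e)) := convex_Icc _ _
  have h2 := hconv.norm_image_sub_le_of_norm_hasDerivWithin_le (f := fun x => x ^ i - i * x)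
      (f' := fun x => i * x ^ (i - 1) - i * 1) (C := |i| * (K * e)) (x := r') (y := r)
      (fun x hx => by
        have hx0 : x ≠ 0 := by have := hx.1; intro h; linarith
        exact ((Real.hasDerivAt_rpow_const (x := x) (p := i) (Or.inl hx0)).sub
          ((hasDerivAt_id x).const_mul i)).hasDerivWithinAt)
      (fun x hx => by
        have := h1 x hx
        rw [Real.norm_eq_abs, ← mul_sub, abs_mul]
        exact mul_le_mul_of_nonneg_left this (abs_nonneg _))
      ⟨by linarith [(abs_le.1 hr').1], by linarith [(abs_le.1 hr').2]⟩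
      ⟨by linarith [(abs_le.1 hr).1], by linarith [(abs_le.1 hr).2]⟩
  simp only [Real.norm_eq_abs] at h2
  have e3 : r ^ i - r' ^ i - i * (r - r') = r ^ i - i * r - (r' ^ i - i * r') := by ring
  rw [e3]
  refine h2.trans ?_
  apply mul_le_mul_of_nonneg_right _ (abs_nonneg _)
  nlinarith

/-- contraction of the angle -/
theorem arcsin_contr {t c c' : ℝ} (ht : 0 ≤ t) (ht1 : t ≤ 1) (hc : c ∈ Icc (0:ℝ) 1)
    (hc' : c' ∈ Icc (0:ℝ) 1) :
    |arcsin (c * t) - arcsin (c' * t)| ≤ |arcsin c - arcsin c'| := by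
  have hmono : MonotoneOn (fun x => arcsin x - arcsin (x * t)) (Icc (0:ℝ) 1) := by
    apply monotoneOn_of_deriv_nonneg (convex_Icc _ _)
    · exact (Real.continuous_arcsin.sub (Real.continuous_arcsin.comp
        (continuous_id.mul continuous_const))).continuousOn
    · intro x hx
      rw [interior_Icc] at hx
      have hxt : x * t < 1 := by nlinarith [hx.1, hx.2]
      have hxt0 : 0 ≤ x * t := mul_nonneg hx.1.le ht
      have h1 := Real.hasDerivAt_arcsin (x := x) (by linarith [hx.1]) (by linarith [hx.2])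
      have h2 := (Real.hasDerivAt_arcsin (x := x * t) (by linarith) (by linarith)).comp x
        ((hasDerivAt_id x).mul_const t)
      exact (h1.sub h2).differentiableAt.differentiableWithinAt
    · intro x hx
      rw [interior_Icc] at hx
      have hxt : x * t < 1 := by nlinarith [hx.1, hx.2]
      have hxt0 : 0 ≤ x * t := mul_nonneg hx.1.le ht
      have h1 := Real.hasDerivAt_arcsin (x := x) (by linarith [hx.1]) (by linarith [hx.2])
      have h2 := (Real.hasDerivAt_arcsin (x := x * t) (by linarith) (by linarith)).comp x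
        ((hasDerivAt_id x).mul_const t)
      have h3 := (h1.sub h2).deriv
      have h4 : (fun x => arcsin x - arcsin (x * t)) = (arcsin - arcsin ∘ fun y => id y * t) := rfl
      rw [h4, h3]
      have hp1 : 0 < √(1 - x ^ 2) := Real.sqrt_pos.2 (by nlinarith [hx.1, hx.2])
      have hle : √(1 - x ^ 2) ≤ √(1 - (x * t) ^ 2) := by
        apply Real.sqrt_le_sqrt
        have : (x * t) ^ 2 ≤ x ^ 2 := by
          apply pow_le_pow_left₀ hxt0
          nlinarith [hx.1]
        linarith
      have h5 : 1 / √(1 - (x * t) ^ 2) ≤ 1 / √(1 - x ^ 2) := one_div_le_one_div_of_le hp1 hle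
      have h6 : 0 ≤ 1 / √(1 - (x * t) ^ 2) := by positivity
      nlinarith
  wlog h : c ≤ c' generalizing c c' with H
  · rw [abs_sub_comm, abs_sub_comm (arcsin c)]
    exact H hc' hc (le_of_not_ge h)
  have h1 := hmono hc hc' h
  have h2 : arcsin c ≤ arcsin c' := Real.monotone_arcsin h
  have h3 : arcsin (c * t) ≤ arcsin (c' * t) :=
    Real.monotone_arcsin (mul_le_mul_of_nonneg_right h ht)
  rw [abs_sub_comm, abs_sub_comm (arcsin c), abs_of_nonneg (by linarith), abs_of_nonneg (by linarith)]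
  simp only at h1
  linarith

theorem arccos_contr {t c c' : ℝ} (ht : 0 ≤ t) (ht1 : t ≤ 1) (hc : c ∈ Icc (0:ℝ) 1)
    (hc' : c' ∈ Icc (0:ℝ) 1) :
    |arccos (c * t) - arccos (c' * t)| ≤ |arccos c - arccos c'| := by
  have := arcsin_contr ht ht1 hc hc'
  unfold Real.arccos
  rw [show π / 2 - arcsin (c * t) - (π / 2 - arcsin (c' * t))
    = -(arcsin (c * t) - arcsin (c' * t)) by ring, abs_neg,
    show π / 2 - arcsin c - (π / 2 - arcsin c') = -(arcsin c - arcsin c') by ring, abs_neg]
  exact this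

theorem arccos_sqrt {x y : ℝ} (hx : x ∈ Icc (0:ℝ) 1) (hy : y ∈ Icc (0:ℝ) 1) :
    |arccos √(1 - x ^ 2) - arccos √(1 - y ^ 2)| = |arccos x - arccos y| := by
  rw [← Real.arcsin_eq_arccos hx.1, ← Real.arcsin_eq_arccos hy.1]
  unfold Real.arccos
  rw [show π / 2 - arcsin x - (π / 2 - arcsin y) = -(arcsin x - arcsin y) by ring, abs_neg]

theorem arccos_mem {y : ℝ} (hy : y ∈ Icc (0:ℝ) 1) : arccos y ∈ Icc 0 (π / 2) :=
  ⟨Real.arccos_nonneg y, Real.arccos_le_pi_div_two.2 hy.1⟩

/-- the weights agree -/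
theorem FF_arccos {η b ε : ℝ} (hη : 0 ≤ η) {x y : ℝ} (hx : x ∈ Icc (0:ℝ) 1)
    (hy : y ∈ Icc (0:ℝ) 1) : |FF η b ε (arccos x) - FF η b ε (arccos y)|
      = |WW η b ε x - WW η b ε y| := by
  rw [FF_le_WW hη (arccos_mem hy) (arccos_mem hx), Real.cos_arccos (by linarith [hx.1]) hx.2,
    Real.cos_arccos (by linarith [hy.1]) hy.2]

theorem arccos_le_WW {η b ε : ℝ} (hη : 0 ≤ η) (hb : 1 ≤ b) (hε : 0 < ε) {x y : ℝ}
    (hx : x ∈ Icc (0:ℝ) 1) (hy : y ∈ Icc (0:ℝ) 1) :
    |arccos x - arccos y| ≤ 1 / ε * |WW η b ε x - WW η b ε y| := by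
  have h := FF_ge (η := η) hb hε.le (arccos x) (arccos y)
  rw [FF_arccos hη hx hy] at h
  rw [one_div, ← div_eq_inv_mul, le_div_iff₀ hε]
  linarith

/-- even part in terms of the height -/
noncomputable def ev (φ : ℝ → ℝ) (y : ℝ) : ℝ := (φ (arccos y) + φ (π - arccos y)) / 2

theorem ev_cont {φ : ℝ → ℝ} (h : Continuous φ) : Continuous (ev φ) := by
  unfold ev
  exact ((h.comp Real.continuous_arccos).add
    (h.comp (continuous_const.sub Real.continuous_arccos))).div_const 2

/-- the transform of an even part -/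
theorem RR_ev_lip {ν : Measure ℝ} {d : ℝ} (hν : Law ν d) {φ : ℝ → ℝ} (hc : Continuous φ) {E0 : ℝ}
    (hE : ∀ a c, |φ a - φ c| ≤ E0 * |a - c|) {x y : ℝ}
    (hx : x ∈ Icc (0:ℝ) 1) (hy : y ∈ Icc (0:ℝ) 1) :
    |RR ν (ev φ) x - RR ν (ev φ) y| ≤ E0 * |arccos x - arccos y| := by
  have hprob := hν.prob
  obtain ⟨a1, a2, a3⟩ := sqrt_fact (x := x) hx.1 hx.2
  obtain ⟨b1, b2, b3⟩ := sqrt_fact (x := y) hy.1 hy.2
  have hE0 : 0 ≤ E0 := by
    have := hE 1 0
    norm_num at this
    exact (abs_nonneg _).trans this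
  have he := ev_cont hc
  unfold RR
  rw [← integral_sub (hν.integrable' (by fun_prop)) (hν.integrable' (by fun_prop))]
  have h1 : ∀ᵐ t ∂ν, ‖ev φ (√(1 - x ^ 2) * |t|) - ev φ (√(1 - y ^ 2) * |t|)‖
      ≤ E0 * |arccos x - arccos y| := by
    filter_upwards [hν.supp] with t ht
    have h2 := arccos_contr (abs_nonneg t) ht ⟨a1, a2⟩ ⟨b1, b2⟩
    rw [arccos_sqrt hx hy] at h2
    rw [Real.norm_eq_abs]
    unfold ev
    set u := arccos (√(1 - x ^ 2) * |t|) with hu
    set v := arccos (√(1 - y ^ 2) * |t|) with hv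
    have h3 := hE u v
    have h4 := hE (π - u) (π - v)
    have h5 : |π - u - (π - v)| = |u - v| := by
      rw [show π - u - (π - v) = -(u - v) by ring, abs_neg]
    rw [h5] at h4
    have e : (φ u + φ (π - u)) / 2 - (φ v + φ (π - v)) / 2
        = ((φ u - φ v) + (φ (π - u) - φ (π - v))) / 2 := by ring
    rw [e, abs_div, abs_of_pos (by norm_num : (0:ℝ) < 2)]
    calc |(φ u - φ v) + (φ (π - u) - φ (π - v))| / 2
        ≤ (|φ u - φ v| + |φ (π - u) - φ (π - v)|) / 2 := by
          gcongr; exact abs_add_le _ _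
      _ ≤ (E0 * |u - v| + E0 * |u - v|) / 2 := by gcongr
      _ = E0 * |u - v| := by ring
      _ ≤ _ := by gcongr
  have h2 := norm_integral_le_of_norm_le_const h1
  simpa using h2

theorem RR_ev_cos {ν : Measure ℝ} {d : ℝ} (hν : Law ν d) {x : ℝ} (hx : x ∈ Icc (0:ℝ) 1) :
    RR ν (ev (fun a => cos a ^ 2)) x = (1 - x ^ 2) / d := by
  obtain ⟨a1, a2, a3⟩ := sqrt_fact (x := x) hx.1 hx.2
  have h1 : RR ν (ev (fun a => cos a ^ 2)) x = ∫ t, (1 - x ^ 2) * t ^ 2 ∂ν := by
    unfold RR
    apply integral_congr_ae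
    filter_upwards [hν.supp] with t ht
    have h0 := abs_nonneg t
    have h2 : √(1 - x ^ 2) * |t| ≤ 1 := mul_le_one₀ a2 h0 ht
    have h3 : 0 ≤ √(1 - x ^ 2) * |t| := mul_nonneg a1 h0
    unfold ev
    beta_reduce
    rw [Real.cos_pi_sub, Real.cos_arccos (by linarith) h2]
    have : (√(1 - x ^ 2) * |t|) ^ 2 = (1 - x ^ 2) * t ^ 2 := by rw [mul_pow, a3, sq_abs]
    rw [neg_sq, this]
    ring
  rw [h1, integral_const_mul, hν.m2]
  ring

end Pool.Agent.Helper74.Hom
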