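import Mathlib

/-!
The angle `ω` between the direction of a point of the translated body seen from the origin and
seen from the centre: `μ (α + ω) * sin ω = ζ * sin α`.
-/

set_option autoImplicit false

namespace Pool.Agent.Helper74.Hom

open Real Set

/-- conditions on the radial function `μ` (in terms of the angle) -/
structure Gd (μ : ℝ → ℝ) (lam : ℝ) : Prop where
  lo : ∀ a, 1 / 2 ≤ μ a
  hi : ∀ a, μ a ≤ 3 / 2
  lip : ∀ a b, |μ a - μ b| ≤ lam * |a - b|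

theorem Gd.cont {μ : ℝ → ℝ} {lam : ℝ} (h : Gd μ lam) : Continuous μ := by
  have hl0 : 0 ≤ lam := by
    have := h.lip 1 0
    have h2 := abs_nonneg (μ 1 - μ 0)
    norm_num at this
    linarith
  have : LipschitzWith (Real.toNNReal lam) μ := by
    apply LipschitzWith.of_dist_le_mul
    intro a b
    rw [Real.dist_eq, Real.dist_eq, Real.coe_toNNReal _ hl0]
    exact h.lip a b
  exact this.continuous

theorem sin_half : (0.234 : ℝ) ≤ sin (1 / 2) := by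
  have := Real.sin_gt_sub_cube (x := 1 / 2) (by norm_num)
  norm_num at this ⊢
  linarith

theorem om_exists {μ : ℝ → ℝ} {lam ζ : ℝ} (h : Gd μ lam) (h0 : 0 ≤ ζ) (h1 : ζ ≤ 1 / 20) (α : ℝ) :
    ∃ ω ∈ Icc (-(1 / 2) : ℝ) (1 / 2), μ (α + ω) * sin ω = ζ * sin α := by
  have hc : ContinuousOn (fun ω => μ (α + ω) * sin ω) (Icc (-(1 / 2) : ℝ) (1 / 2)) :=
    ((h.cont.comp (continuous_const.add continuous_id)).mul continuous_sin).continuousOn
  have hi := intermediate_value_Icc (by norm_num : (-(1 / 2) : ℝ) ≤ 1 / 2) hc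
  have hs := sin_half
  have ha := h.lo (α + 1 / 2)
  have hb := h.lo (α + -(1 / 2))
  have hsa := Real.sin_le_one α
  have hsb := Real.neg_one_le_sin α
  have h2 : ζ * sin α ∈ Icc (μ (α + -(1 / 2)) * sin (-(1 / 2))) (μ (α + 1 / 2) * sin (1 / 2)) := by
    rw [Real.sin_neg]
    constructor
    · nlinarith
    · nlinarith
  obtain ⟨ω, hω, he⟩ := hi h2
  exact ⟨ω, hω, he⟩

theorem abs_le_two_sin {x y : ℝ} (hx : x ∈ Icc (-(1 / 2) : ℝ) (1 / 2))
    (hy : y ∈ Icc (-(1 / 2) : ℝ) (1 / 2)) : |x - y| ≤ 2 * |sin x - sin y| := by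
  rw [Real.sin_sub_sin]
  have h1 : (7 / 8 : ℝ) ≤ cos ((x + y) / 2) := by
    have := Real.one_sub_sq_div_two_le_cos (x := (x + y) / 2)
    have h3 : ((x + y) / 2) ^ 2 ≤ (1 / 2) ^ 2 := by
      apply sq_le_sq'
      · linarith [hx.1, hy.1]
      · linarith [hx.2, hy.2]
    linarith
  have h2 : 2 / π * |(x - y) / 2| ≤ |sin ((x - y) / 2)| := by
    apply Real.mul_abs_le_abs_sin
    have := Real.pi_gt_three
    rw [abs_le]
    constructor
    · linarith [hx.1, hy.2]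
    · linarith [hx.2, hy.1]
  have h3 : |2 * sin ((x - y) / 2) * cos ((x + y) / 2)|
      = 2 * |sin ((x - y) / 2)| * cos ((x + y) / 2) := by
    rw [abs_mul, abs_mul, abs_of_nonneg (by linarith : (0 : ℝ) ≤ cos ((x + y) / 2))]
    norm_num
  rw [h3]
  have h4 : |(x - y) / 2| = |x - y| / 2 := by rw [abs_div]; norm_num
  rw [h4] at h2
  have h5 : (4 / 7 : ℝ) ≤ 2 / π := by
    rw [div_le_div_iff₀ (by norm_num) Real.pi_pos]
    have := Real.pi_lt_d2
    linarith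
  have h6 := abs_nonneg (x - y)
  have h7 : 4 / 7 * (|x - y| / 2) ≤ |sin ((x - y) / 2)| :=
    le_trans (mul_le_mul_of_nonneg_right h5 (by linarith)) h2
  nlinarith [mul_le_mul h7 h1 (by norm_num) (abs_nonneg (sin ((x - y) / 2)))]

theorem om_stab {μ μ' : ℝ → ℝ} {lam ζ D α α' ω ω' : ℝ} (h0 : 0 ≤ ζ) (h1 : ζ ≤ 1 / 20)
    (hlam : lam ≤ 1 / 4) (hlam0 : 0 ≤ lam) (hlo : ∀ a, 1 / 2 ≤ μ a) (hlo' : ∀ a, 1 / 2 ≤ μ' a)
    (hD : ∀ a b, |μ a - μ' b| ≤ D + lam * |a - b|)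
    (hω : ω ∈ Icc (-(1 / 2) : ℝ) (1 / 2)) (hω' : ω' ∈ Icc (-(1 / 2) : ℝ) (1 / 2))
    (he : μ (α + ω) * sin ω = ζ * sin α) (he' : μ' (α' + ω') * sin ω' = ζ * sin α') :
    |ω - ω'| ≤ 7 * ζ * |α - α'| + 9 * ζ * D := by
  have hA := hlo (α + ω)
  have hB := hlo' (α' + ω')
  set A := μ (α + ω) with hAd
  set B := μ' (α' + ω') with hBd
  have hAB : |A - B| ≤ D + lam * |α - α'| + lam * |ω - ω'| := by
    have := hD (α + ω) (α' + ω')
    have h2 : |α + ω - (α' + ω')| ≤ |α - α'| + |ω - ω'| := by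
      have : α + ω - (α' + ω') = (α - α') + (ω - ω') := by ring
      rw [this]; exact abs_add_le _ _
    calc |A - B| ≤ D + lam * |α + ω - (α' + ω')| := this
      _ ≤ D + lam * (|α - α'| + |ω - ω'|) := by gcongr
      _ = _ := by ring
  have hsin : A * B * (sin ω - sin ω') = ζ * ((sin α - sin α') * B - sin α' * (A - B)) := by
    have e1 : A * sin ω = ζ * sin α := he
    have e2 : B * sin ω' = ζ * sin α' := he'
    linear_combination B * e1 - A * e2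
  have hAB2 : 0 < A * B := by positivity
  have hs1 := Real.abs_sin_sub_sin_le α α'
  have hs2 := Real.abs_sin_le_one α'
  have h3 : A * B * |sin ω - sin ω'| ≤ ζ * (|α - α'| * B + |A - B|) := by
    have : |A * B * (sin ω - sin ω')| = A * B * |sin ω - sin ω'| := by
      rw [abs_mul, abs_of_pos hAB2]
    rw [← this, hsin, abs_mul, abs_of_nonneg h0]
    apply mul_le_mul_of_nonneg_left _ h0
    calc |(sin α - sin α') * B - sin α' * (A - B)|
        ≤ |(sin α - sin α') * B| + |sin α' * (A - B)| := abs_sub _ _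
      _ = |sin α - sin α'| * B + |sin α'| * |A - B| := by
          rw [abs_mul, abs_mul, abs_of_nonneg (by linarith : (0 : ℝ) ≤ B)]
      _ ≤ |α - α'| * B + 1 * |A - B| := by gcongr
      _ = _ := by ring
  have h4 : |sin ω - sin ω'| ≤ ζ * (2 * |α - α'| + 4 * |A - B|) := by
    have h5 : A * B * |sin ω - sin ω'| ≤ A * B * (ζ * (2 * |α - α'| + 4 * |A - B|)) := by
      refine h3.trans ?_
      have hx : |α - α'| * B ≤ A * B * (2 * |α - α'|) := by
        nlinarith [mul_nonneg (abs_nonneg (α - α')) (by linarith : (0 : ℝ) ≤ B)]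
      have hy : |A - B| ≤ A * B * (4 * |A - B|) := by
        nlinarith [mul_nonneg (abs_nonneg (A - B))
          (mul_nonneg (by linarith : (0 : ℝ) ≤ A - 1 / 2) (by linarith : (0 : ℝ) ≤ B - 1 / 2)),
          mul_nonneg (abs_nonneg (A - B)) (by linarith : (0 : ℝ) ≤ A - 1 / 2),
          mul_nonneg (abs_nonneg (A - B)) (by linarith : (0 : ℝ) ≤ B - 1 / 2)]
      calc ζ * (|α - α'| * B + |A - B|) ≤ ζ * (A * B * (2 * |α - α'|) + A * B * (4 * |A - B|)) := by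
            gcongr
        _ = _ := by ring
    exact le_of_mul_le_mul_left h5 hAB2
  have h6 := abs_le_two_sin hω hω'
  have ha := abs_nonneg (α - α')
  have hw := abs_nonneg (ω - ω')
  have hDn : 0 ≤ D := by
    have := hD 0 0
    simp at this
    exact (abs_nonneg _).trans this
  have h7 : |ω - ω'| ≤ ζ * (4 * |α - α'| + 8 * (D + lam * |α - α'| + lam * |ω - ω'|)) := by
    calc |ω - ω'| ≤ 2 * |sin ω - sin ω'| := h6
      _ ≤ 2 * (ζ * (2 * |α - α'| + 4 * |A - B|)) := by gcongr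
      _ ≤ 2 * (ζ * (2 * |α - α'| + 4 * (D + lam * |α - α'| + lam * |ω - ω'|))) := by gcongr
      _ = _ := by ring
  have h8 : ζ * (8 * (lam * |ω - ω'|)) ≤ 1 / 10 * |ω - ω'| := by
    have : ζ * lam ≤ 1 / 20 * (1 / 4) := mul_le_mul h1 hlam hlam0 (by norm_num)
    nlinarith
  have h9 : ζ * (8 * (lam * |α - α'|)) ≤ ζ * (2 * |α - α'|) := by
    apply mul_le_mul_of_nonneg_left _ h0
    nlinarith
  have h10 : 9 / 10 * |ω - ω'| ≤ ζ * (6 * |α - α'| + 8 * D) := by nlinarith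
  nlinarith [mul_nonneg h0 ha, mul_nonneg h0 hDn]

theorem om_small {μ : ℝ → ℝ} {ζ α ω : ℝ} (h0 : 0 ≤ ζ)
    (hlo : ∀ a, 1 / 2 ≤ μ a) (hω : ω ∈ Icc (-(1 / 2) : ℝ) (1 / 2))
    (he : μ (α + ω) * sin ω = ζ * sin α) : |ω| ≤ 4 * ζ := by
  have h := abs_le_two_sin hω (y := 0) (by norm_num)
  rw [Real.sin_zero, sub_zero, sub_zero] at h
  have hA := hlo (α + ω)
  have h2 : μ (α + ω) * |sin ω| ≤ ζ := by
    have : |μ (α + ω) * sin ω| = μ (α + ω) * |sin ω| := by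
      rw [abs_mul, abs_of_nonneg (by linarith)]
    rw [← this, he, abs_mul, abs_of_nonneg h0]
    have := Real.abs_sin_le_one α
    nlinarith
  nlinarith [abs_nonneg (sin ω)]

/-- the angle `ω` -/
noncomputable def om (μ : ℝ → ℝ) (ζ α : ℝ) : ℝ :=
  open Classical in
  if h : ∃ ω ∈ Icc (-(1 / 2) : ℝ) (1 / 2), μ (α + ω) * sin ω = ζ * sin α then h.choose else 0

theorem om_mem {μ : ℝ → ℝ} {lam ζ : ℝ} (h : Gd μ lam) (h0 : 0 ≤ ζ) (h1 : ζ ≤ 1 / 20) (α : ℝ) :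
    om μ ζ α ∈ Icc (-(1 / 2) : ℝ) (1 / 2) := by
  have := om_exists h h0 h1 α
  rw [om, dif_pos this]
  exact this.choose_spec.1

theorem om_eq {μ : ℝ → ℝ} {lam ζ : ℝ} (h : Gd μ lam) (h0 : 0 ≤ ζ) (h1 : ζ ≤ 1 / 20) (α : ℝ) :
    μ (α + om μ ζ α) * sin (om μ ζ α) = ζ * sin α := by
  have := om_exists h h0 h1 α
  rw [om, dif_pos this]
  exact this.choose_spec.2

theorem om_abs {μ : ℝ → ℝ} {lam ζ : ℝ} (h : Gd μ lam) (h0 : 0 ≤ ζ) (h1 : ζ ≤ 1 / 20) (α : ℝ) :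
    |om μ ζ α| ≤ 4 * ζ :=
  om_small h0 h.lo (om_mem h h0 h1 α) (om_eq h h0 h1 α)

theorem om_lip {μ : ℝ → ℝ} {lam ζ : ℝ} (h : Gd μ lam) (hlam0 : 0 ≤ lam) (hlam : lam ≤ 1 / 4)
    (h0 : 0 ≤ ζ) (h1 : ζ ≤ 1 / 20) (α α' : ℝ) :
    |om μ ζ α - om μ ζ α'| ≤ 7 * ζ * |α - α'| := by
  have := om_stab (D := 0) h0 h1 hlam hlam0 h.lo h.lo (fun a b => by simpa using h.lip a b)
    (om_mem h h0 h1 α) (om_mem h h0 h1 α') (om_eq h h0 h1 α) (om_eq h h0 h1 α')
  linarith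

/-- two radial functions at distance `D` -/
theorem om_cont {μ μ' : ℝ → ℝ} {lam ζ D : ℝ} (h : Gd μ lam) (h' : Gd μ' lam) (hlam0 : 0 ≤ lam)
    (hlam : lam ≤ 1 / 4) (h0 : 0 ≤ ζ) (h1 : ζ ≤ 1 / 20) (hD : ∀ a, |μ a - μ' a| ≤ D) (α : ℝ) :
    |om μ ζ α - om μ' ζ α| ≤ 9 * ζ * D := by
  have := om_stab (D := D) h0 h1 hlam hlam0 h.lo h'.lo (fun a b => by
    calc |μ a - μ' b| = |(μ a - μ' a) + (μ' a - μ' b)| := by congr 1; ring
      _ ≤ |μ a - μ' a| + |μ' a - μ' b| := abs_add_le _ _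
      _ ≤ D + lam * |a - b| := add_le_add (hD a) (h'.lip a b))
    (om_mem h h0 h1 α) (om_mem h' h0 h1 α) (om_eq h h0 h1 α) (om_eq h' h0 h1 α)
  simpa using this

/-- radial function of the translated body as a function of the angle -/
noncomputable def rr (μ : ℝ → ℝ) (ζ α : ℝ) : ℝ :=
  ζ * cos α + μ (α + om μ ζ α) * cos (om μ ζ α)

theorem cos_sub_le {x y : ℝ} : |cos x - cos y| ≤ (|x| + |y|) * |x - y| / 2 := by
  rw [Real.cos_sub_cos]
  have h1 : |sin ((x + y) / 2)| ≤ |(x + y) / 2| := Real.abs_sin_le_abs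
  have h2 : |sin ((x - y) / 2)| ≤ |(x - y) / 2| := Real.abs_sin_le_abs
  have h3 : |(x + y) / 2| ≤ (|x| + |y|) / 2 := by
    rw [abs_div, abs_of_pos (by norm_num : (0 : ℝ) < 2)]
    gcongr
    exact abs_add_le _ _
  have h4 : |(x - y) / 2| = |x - y| / 2 := by
    rw [abs_div, abs_of_pos (by norm_num : (0 : ℝ) < 2)]
  calc |-2 * sin ((x + y) / 2) * sin ((x - y) / 2)|
      = 2 * |sin ((x + y) / 2)| * |sin ((x - y) / 2)| := by
        rw [abs_mul, abs_mul]; norm_num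
    _ ≤ 2 * ((|x| + |y|) / 2) * (|x - y| / 2) := by
        gcongr
        · exact h1.trans h3
        · rw [← h4]; exact h2
    _ = _ := by ring

theorem one_sub_cos_le (x : ℝ) : 1 - cos x ≤ x ^ 2 / 2 := by
  have := Real.one_sub_sq_div_two_le_cos (x := x)
  linarith

/-- `rr` is a perturbation of `μ (α + ω)` that is small in the Lipschitz norm -/
theorem rr_pert {μ : ℝ → ℝ} {lam ζ : ℝ} (h : Gd μ lam) (hlam0 : 0 ≤ lam) (hlam : lam ≤ 1 / 4)
    (h0 : 0 ≤ ζ) (h1 : ζ ≤ 1 / 20) (α α' : ℝ) :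
    |(rr μ ζ α - μ (α + om μ ζ α)) - (rr μ ζ α' - μ (α' + om μ ζ α'))| ≤ 5 * ζ * |α - α'| := by
  set ω := om μ ζ α with hω
  set ω' := om μ ζ α' with hω'
  have hlip : |ω - ω'| ≤ 7 * ζ * |α - α'| := om_lip h hlam0 hlam h0 h1 α α'
  have ha : |ω| ≤ 4 * ζ := om_abs h h0 h1 α
  have ha' : |ω'| ≤ 4 * ζ := om_abs h h0 h1 α'
  have hm : |μ (α + ω) - μ (α' + ω')| ≤ 1 / 4 * (2 * |α - α'|) := by
    have h2 := h.lip (α + ω) (α' + ω')
    have h3 : |α + ω - (α' + ω')| ≤ |α - α'| + |ω - ω'| := by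
      have : α + ω - (α' + ω') = (α - α') + (ω - ω') := by ring
      rw [this]; exact abs_add_le _ _
    have h4 := abs_nonneg (α - α')
    calc |μ (α + ω) - μ (α' + ω')| ≤ lam * |α + ω - (α' + ω')| := h2
      _ ≤ 1 / 4 * (2 * |α - α'|) := by
          apply mul_le_mul hlam _ (abs_nonneg _) (by norm_num)
          nlinarith
  have hcos : |cos ω - cos ω'| ≤ 28 * ζ ^ 2 * |α - α'| := by
    refine cos_sub_le.trans ?_
    have h4 := abs_nonneg (α - α')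
    have h5 := abs_nonneg (ω - ω')
    calc (|ω| + |ω'|) * |ω - ω'| / 2 ≤ (4 * ζ + 4 * ζ) * (7 * ζ * |α - α'|) / 2 := by gcongr
      _ = _ := by ring
  have hc1 : 1 - cos ω ≤ 8 * ζ ^ 2 := by
    have := one_sub_cos_le ω
    have h6 : ω ^ 2 ≤ (4 * ζ) ^ 2 := by
      rw [← sq_abs ω]
      gcongr
    nlinarith
  have hc0 : 0 ≤ 1 - cos ω := by linarith [Real.cos_le_one ω]
  have hid : (rr μ ζ α - μ (α + ω)) - (rr μ ζ α' - μ (α' + ω'))
      = ζ * (cos α - cos α') - (μ (α + ω) - μ (α' + ω')) * (1 - cos ω)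
        + μ (α' + ω') * (cos ω - cos ω') := by
    simp only [rr, ← hω, ← hω']
    ring
  rw [hid]
  have hca := Real.abs_cos_sub_cos_le α α'
  have hmu : |μ (α' + ω')| ≤ 3 / 2 := by
    rw [abs_of_nonneg (by linarith [h.lo (α' + ω')])]
    exact h.hi _
  have h4 := abs_nonneg (α - α')
  calc |ζ * (cos α - cos α') - (μ (α + ω) - μ (α' + ω')) * (1 - cos ω)
        + μ (α' + ω') * (cos ω - cos ω')|
      ≤ |ζ * (cos α - cos α')| + |(μ (α + ω) - μ (α' + ω')) * (1 - cos ω)|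
        + |μ (α' + ω') * (cos ω - cos ω')| := by
        refine (abs_add_le _ _).trans ?_
        gcongr
        exact abs_sub _ _
    _ = ζ * |cos α - cos α'| + |μ (α + ω) - μ (α' + ω')| * (1 - cos ω)
        + |μ (α' + ω')| * |cos ω - cos ω'| := by
        rw [abs_mul, abs_mul, abs_mul, abs_of_nonneg h0, abs_of_nonneg hc0]
    _ ≤ ζ * |α - α'| + (1 / 4 * (2 * |α - α'|)) * (8 * ζ ^ 2)
        + 3 / 2 * (28 * ζ ^ 2 * |α - α'|) := by gcongr
    _ = (ζ + 46 * (ζ * ζ)) * |α - α'| := by ring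
    _ ≤ 5 * ζ * |α - α'| := by
        apply mul_le_mul_of_nonneg_right _ h4
        nlinarith

theorem rr_near {μ : ℝ → ℝ} {lam ζ : ℝ} (h : Gd μ lam)
    (h0 : 0 ≤ ζ) (h1 : ζ ≤ 1 / 20) (α : ℝ) :
    |rr μ ζ α - μ (α + om μ ζ α)| ≤ 2 * ζ := by
  set ω := om μ ζ α with hω
  have ha : |ω| ≤ 4 * ζ := om_abs h h0 h1 α
  have hc1 : 1 - cos ω ≤ 8 * ζ ^ 2 := by
    have := one_sub_cos_le ω
    have h6 : ω ^ 2 ≤ (4 * ζ) ^ 2 := by
      rw [← sq_abs ω]
      gcongr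
    nlinarith
  have hc0 : 0 ≤ 1 - cos ω := by linarith [Real.cos_le_one ω]
  have hid : rr μ ζ α - μ (α + ω) = ζ * cos α - μ (α + ω) * (1 - cos ω) := by
    simp only [rr, ← hω]; ring
  rw [hid]
  have hmu : |μ (α + ω)| ≤ 3 / 2 := by
    rw [abs_of_nonneg (by linarith [h.lo (α + ω)])]
    exact h.hi _
  calc |ζ * cos α - μ (α + ω) * (1 - cos ω)| ≤ |ζ * cos α| + |μ (α + ω) * (1 - cos ω)| :=
        abs_sub _ _
    _ = ζ * |cos α| + |μ (α + ω)| * (1 - cos ω) := by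
        rw [abs_mul, abs_mul, abs_of_nonneg h0, abs_of_nonneg hc0]
    _ ≤ ζ * 1 + 3 / 2 * (8 * ζ ^ 2) := by
        gcongr
        exact Real.abs_cos_le_one α
    _ ≤ 2 * ζ := by nlinarith

theorem rr_cont_mu {μ μ' : ℝ → ℝ} {lam ζ D : ℝ} (h : Gd μ lam) (h' : Gd μ' lam) (hlam0 : 0 ≤ lam)
    (hlam : lam ≤ 1 / 4) (h0 : 0 ≤ ζ) (h1 : ζ ≤ 1 / 20) (hD : ∀ a, |μ a - μ' a| ≤ D) (α : ℝ) :
    |rr μ ζ α - rr μ' ζ α| ≤ 3 * D := by
  set ω := om μ ζ α with hω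
  set ω' := om μ' ζ α with hω'
  have hDn : 0 ≤ D := (abs_nonneg _).trans (hD 0)
  have hc : |ω - ω'| ≤ 9 * ζ * D := om_cont h h' hlam0 hlam h0 h1 hD α
  have hc' : |ω - ω'| ≤ D / 2 := by nlinarith
  have hm : |μ (α + ω) - μ' (α + ω')| ≤ D + D / 8 := by
    have e : μ (α + ω) - μ' (α + ω')
        = (μ (α + ω) - μ' (α + ω)) + (μ' (α + ω) - μ' (α + ω')) := by ring
    rw [e]
    have h2 := h'.lip (α + ω) (α + ω')
    have h3 : |α + ω - (α + ω')| = |ω - ω'| := by congr 1; ring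
    rw [h3] at h2
    calc _ ≤ |μ (α + ω) - μ' (α + ω)| + |μ' (α + ω) - μ' (α + ω')| := abs_add_le _ _
      _ ≤ D + 1 / 4 * (D / 2) := by
          gcongr
          · exact hD _
          · exact h2.trans (mul_le_mul hlam hc' (abs_nonneg _) (by norm_num))
      _ = _ := by ring
  have hcos : |cos ω - cos ω'| ≤ D / 2 := (Real.abs_cos_sub_cos_le ω ω').trans hc'
  have hmu : |μ' (α + ω')| ≤ 3 / 2 := by
    rw [abs_of_nonneg (by linarith [h'.lo (α + ω')])]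
    exact h'.hi _
  have hid : rr μ ζ α - rr μ' ζ α = (μ (α + ω) - μ' (α + ω')) * cos ω
      + μ' (α + ω') * (cos ω - cos ω') := by
    simp only [rr, ← hω, ← hω']; ring
  rw [hid]
  calc _ ≤ |μ (α + ω) - μ' (α + ω')| * |cos ω| + |μ' (α + ω')| * |cos ω - cos ω'| := by
        rw [← abs_mul, ← abs_mul]; exact abs_add_le _ _
    _ ≤ (D + D / 8) * 1 + 3 / 2 * (D / 2) := by
        gcongr
        exact Real.abs_cos_le_one ω
    _ ≤ 3 * D := by linarith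

end Pool.Agent.Helper74.Hom
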