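import Mathlib
import Pool.Agent.Helper74.Hom.Omega

/-!
The planar geometry of the translation.
-/

set_option autoImplicit false
set_option linter.unusedVariables false

namespace Pool.Agent.Helper74.Hom

open Real Set

theorem rr_lower {μ : ℝ → ℝ} {lam ζ : ℝ} (hG : Gd μ lam) (h0 : 0 ≤ ζ) (h1 : ζ ≤ 1 / 20) (α : ℝ) :
    1 / 4 < rr μ ζ α := by
  have h := rr_near hG h0 h1 α
  have h2 := hG.lo (α + om μ ζ α)
  have := (abs_le.1 h).1
  linarith

theorem rr_upper {μ : ℝ → ℝ} {lam ζ : ℝ} (hG : Gd μ lam) (h0 : 0 ≤ ζ) (h1 : ζ ≤ 1 / 20) (α : ℝ) :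
    rr μ ζ α ≤ 2 := by
  have h := rr_near hG h0 h1 α
  have h2 := hG.hi (α + om μ ζ α)
  have := (abs_le.1 h).2
  linarith

theorem sin_half' : (0.479 : ℝ) ≤ sin (1 / 2) := by
  have := Real.sin_gt_sub_cube (x := 1 / 2) (by norm_num)
  norm_num at this ⊢
  linarith

/-- the key comparison: `X` and `B - D` have the same sign -/
theorem sign_cmp {A B D X ω ω' : ℝ} (hA : 1 / 2 ≤ A) (hA2 : A ≤ 3 / 2) (hω : |ω| ≤ 1 / 5)
    (hω' : |ω'| ≤ 2 / 5) (hs : |sin ω'| ≤ 1 / 4) (hAB : |A - B| ≤ 1 / 4 * |ω - ω'|)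
    (he : A * sin ω = D * sin ω') (hX : X = A * cos ω - D * cos ω') :
    0 ≤ B - D ↔ 0 ≤ X := by
  set f := ω - ω' with hf
  have h1 : A * sin f = -(X * sin ω') := by
    rw [hf, Real.sin_sub, hX]
    linear_combination cos ω' * he
  have h2 : A * cos f - D = X * cos ω' := by
    rw [hf, Real.cos_sub, hX]
    have := Real.sin_sq_add_cos_sq ω'
    linear_combination sin ω' * he + D * this
  have hf1 : |f| ≤ 3 / 5 := by
    calc |f| ≤ |ω| + |ω'| := abs_sub _ _
      _ ≤ _ := by linarith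
  have hπ3 := Real.pi_gt_three
  have hπ4 := Real.pi_lt_d2
  have hsf : |f| ≤ 1.6 * |sin f| := by
    have h3 := Real.mul_abs_le_abs_sin (x := f) (by linarith)
    have h4 : (1 / 1.6 : ℝ) ≤ 2 / π := by
      rw [div_le_div_iff₀ (by norm_num) Real.pi_pos]
      linarith
    have h5 : 1 / 1.6 * |f| ≤ |sin f| := le_trans (mul_le_mul_of_nonneg_right h4 (abs_nonneg f)) h3
    linarith
  have hXn := abs_nonneg X
  have hfn := abs_nonneg f
  have hsfX : |sin f| ≤ 1 / 2 * |X| := by
    have h3 : A * |sin f| = |X| * |sin ω'| := by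
      have := congrArg abs h1
      rw [abs_mul, abs_neg, abs_mul, abs_of_nonneg (by linarith : 0 ≤ A)] at this
      exact this
    have h4 : |X| * |sin ω'| ≤ |X| * (1 / 4) := mul_le_mul_of_nonneg_left hs hXn
    have h5 := abs_nonneg (sin f)
    nlinarith
  have hfX : |f| ≤ 0.8 * |X| := by linarith
  have hcos : 1 - cos f ≤ f ^ 2 / 2 := one_sub_cos_le f
  have hcos0 : 0 ≤ 1 - cos f := by linarith [Real.cos_le_one f]
  have hcosω : 0.92 ≤ cos ω' := by
    have h3 := Real.one_sub_sq_div_two_le_cos (x := ω')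
    have h4 : ω' ^ 2 ≤ (2 / 5) ^ 2 := by
      rw [← sq_abs]
      exact pow_le_pow_left₀ (abs_nonneg _) hω' 2
    linarith
  have hE1 : A * (1 - cos f) ≤ 0.36 * |X| := by
    have h3 : A * (1 - cos f) ≤ 3 / 2 * (f ^ 2 / 2) := mul_le_mul hA2 hcos hcos0 (by norm_num)
    have h4 : f ^ 2 = |f| * |f| := by rw [← sq_abs]; ring
    have h5 : |f| * |f| ≤ 3 / 5 * (0.8 * |X|) := mul_le_mul hf1 hfX hfn (by norm_num)
    nlinarith
  have hE0 : 0 ≤ A * (1 - cos f) := mul_nonneg (by linarith) hcos0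
  have hE2 : |B - A| ≤ 0.2 * |X| := by
    rw [abs_sub_comm]; linarith
  have hid : B - D = X * cos ω' + (B - A) + A * (1 - cos f) := by linarith
  have hE2' := abs_le.1 hE2
  constructor
  · intro h
    by_contra hneg
    push Not at hneg
    rw [abs_of_neg hneg] at hE1 hE2'
    have : X * cos ω' ≤ X * 0.92 := mul_le_mul_of_nonpos_left hcosω hneg.le
    linarith
  · intro h
    rw [abs_of_nonneg h] at hE1 hE2'
    have : X * 0.92 ≤ X * cos ω' := mul_le_mul_of_nonneg_left hcosω h
    linarith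

/-- planar description of the translate -/
theorem trans_iff {m : ℝ → ℝ} {ζ : ℝ} (hG : Gd (fun a => m |cos a|) (1 / 4)) (h0 : 0 ≤ ζ)
    (h1 : ζ ≤ 1 / 20) {c α D : ℝ} (hc : 0 ≤ c) (hα : α ∈ Icc 0 π) (hD0 : 0 ≤ D)
    (hD : D ^ 2 = c ^ 2 - 2 * c * ζ * cos α + ζ ^ 2) :
    D ≤ m (|c * cos α - ζ| / D) ↔ c ≤ rr (fun a => m |cos a|) ζ α := by
  have hsα : 0 ≤ sin α := Real.sin_nonneg_of_nonneg_of_le_pi hα.1 hα.2
  have hcα1 := Real.cos_le_one α
  have hcα2 := Real.neg_one_le_cos α
  have hsc := Real.sin_sq_add_cos_sq α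
  have hDle : D ≤ c + ζ := by
    apply abs_le_of_sq_le_sq' _ (by linarith) |>.2
    rw [hD]
    nlinarith [mul_nonneg hc h0]
  have hD2 : D ^ 2 = (c * cos α - ζ) ^ 2 + (c * sin α) ^ 2 := by
    rw [hD]
    linear_combination (-c ^ 2) * hsc
  by_cases hcs : c < 1 / 4
  · have hr := rr_lower hG h0 h1 α
    constructor
    · intro _; linarith
    · intro _
      have hy : |c * cos α - ζ| / D ∈ Icc (0:ℝ) 1 := by
        refine ⟨by positivity, ?_⟩
        rcases hD0.eq_or_lt with h | h
        · rw [← h]; simp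
        · rw [div_le_one h]
          apply abs_le_of_sq_le_sq _ hD0
          rw [hD2]
          nlinarith [sq_nonneg (c * sin α)]
      have h2 : 1 / 2 ≤ m |cos (arccos (|c * cos α - ζ| / D))| :=
        hG.lo (arccos (|c * cos α - ζ| / D))
      rw [Real.cos_arccos (by linarith [hy.1]) hy.2, abs_of_nonneg hy.1] at h2
      linarith
  · push Not at hcs
    have hDge : 1 / 5 ≤ D := by
      by_contra hlt
      push Not at hlt
      have h2 : D ^ 2 < (1 / 5) ^ 2 := by nlinarith
      have h3 : (c - ζ) ^ 2 ≤ D ^ 2 := by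
        rw [hD]; nlinarith [mul_nonneg hc h0]
      nlinarith
    have hDp : 0 < D := by linarith
    set y := (c * cos α - ζ) / D with hy
    have hy2 : y ^ 2 ≤ 1 := by
      rw [hy, div_pow, div_le_one (by positivity), hD2]
      nlinarith [sq_nonneg (c * sin α)]
    have hy1 : -1 ≤ y ∧ y ≤ 1 := abs_le.1 ((sq_le_one_iff_abs_le_one y).1 hy2)
    set ψ := arccos y with hψ
    have hcψ : cos ψ = y := Real.cos_arccos hy1.1 hy1.2
    have hDy : D * cos ψ = c * cos α - ζ := by rw [hcψ, hy]; field_simp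
    have hsψ0 : 0 ≤ sin ψ :=
      Real.sin_nonneg_of_nonneg_of_le_pi (Real.arccos_nonneg y) (Real.arccos_le_pi y)
    have hDs : D * sin ψ = c * sin α := by
      have h2 : (D * sin ψ) ^ 2 = (c * sin α) ^ 2 := by
        have h3 : (D * sin ψ) ^ 2 = D ^ 2 - (D * cos ψ) ^ 2 := by
          have := Real.sin_sq_add_cos_sq ψ
          linear_combination D ^ 2 * this
        rw [h3, hDy, hD2]; ring
      have h3 : 0 ≤ D * sin ψ := mul_nonneg hD0 hsψ0
      have h4 : 0 ≤ c * sin α := mul_nonneg hc hsα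
      exact (sq_eq_sq₀ h3 h4).1 h2
    set ω' := ψ - α with hω'
    have hDsω : D * sin ω' = ζ * sin α := by
      rw [hω', Real.sin_sub]
      linear_combination cos α * hDs - sin α * hDy
    have hDcω : D * cos ω' = c - ζ * cos α := by
      rw [hω', Real.cos_sub]
      linear_combination cos α * hDy + sin α * hDs + c * hsc
    -- the angle is small
    have hcω : 0 < cos ω' := by
      have : 0 < D * cos ω' := by rw [hDcω]; nlinarith
      exact (mul_pos_iff_of_pos_left hDp).1 this
    have hsω1 : sin ω' ≤ 1 / 4 := by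
      have h2 : D * sin ω' ≤ 1 / 20 := by
        rw [hDsω]
        have := Real.sin_le_one α
        nlinarith
      nlinarith
    have hsω0 : 0 ≤ sin ω' := by
      have : 0 ≤ D * sin ω' := by rw [hDsω]; positivity
      exact nonneg_of_mul_nonneg_right this hDp
    have hψ0 : 0 ≤ ψ := Real.arccos_nonneg y
    have hψ1 : ψ ≤ π := Real.arccos_le_pi y
    have hωlo : -(π / 2) ≤ ω' := by
      by_contra hlt
      push Not at hlt
      have : cos ω' ≤ 0 := by
        rw [← Real.cos_neg]
        apply Real.cos_nonpos_of_pi_div_two_le_of_le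
        · linarith
        · linarith [hα.2]
      linarith
    have hωhi : ω' ≤ π / 2 := by
      by_contra hlt
      push Not at hlt
      have : cos ω' ≤ 0 := by
        apply Real.cos_nonpos_of_pi_div_two_le_of_le
        · linarith
        · linarith [hα.1]
      linarith
    have hωabs : |ω'| ≤ 2 / 5 := by
      have h3 := Real.mul_abs_le_abs_sin (x := ω') (abs_le.2 ⟨hωlo, hωhi⟩)
      rw [abs_of_nonneg hsω0] at h3
      have h4 : (5 / 8 : ℝ) ≤ 2 / π := by
        rw [div_le_div_iff₀ (by norm_num) Real.pi_pos]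
        have := Real.pi_lt_d2
        linarith
      have h5 : 5 / 8 * |ω'| ≤ sin ω' := le_trans (mul_le_mul_of_nonneg_right h4 (abs_nonneg _)) h3
      linarith
    -- comparison
    set μ : ℝ → ℝ := fun a => m |cos a| with hμ
    set ω := om μ ζ α with hω
    have hωs : |ω| ≤ 1 / 5 := (om_abs hG h0 h1 α).trans (by linarith)
    have heq : μ (α + ω) * sin ω = D * sin ω' := by
      rw [hDsω]; exact om_eq hG h0 h1 α
    have hlip := hG.lip (α + ω) (α + ω')
    have e1 : α + ω - (α + ω') = ω - ω' := by ring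
    rw [e1] at hlip
    have key := sign_cmp (hG.lo (α + ω)) (hG.hi (α + ω)) hωs hωabs
      (by rw [abs_of_nonneg hsω0]; exact hsω1) hlip heq rfl
    have e2 : α + ω' = ψ := by rw [hω']; ring
    have e3 : μ (α + ω') = m (|c * cos α - ζ| / D) := by
      rw [e2]
      simp only [hμ]
      rw [hcψ, hy, abs_div, abs_of_pos hDp]
    rw [e3, hDcω] at key
    have e4 : μ (α + ω) * cos ω - (c - ζ * cos α) = rr μ ζ α - c := by
      simp only [rr, ← hω]; ring
    rw [e4] at key
    constructor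
    · intro h
      have := key.1 (by linarith)
      linarith
    · intro h
      have := key.2 (by linarith)
      linarith

end Pool.Agent.Helper74.Hom
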