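import Mathlib
import Pool.Agent.Helper74.Hom.Lin

/-!
The linearised operator: existence of suitable parameters.
-/

set_option autoImplicit false
set_option linter.unusedVariables false

namespace Pool.Agent.Helper74.Hom

open Real Set MeasureTheory

/-- the corrected linearised operator is a contraction in the weighted Lipschitz norm -/
def LinHyp (ν : Measure ℝ) (i η b ε δ x0 ρ : ℝ) : Prop :=
  ∀ h : ℝ → ℝ, Continuous h →
    (∀ x ∈ Icc (0:ℝ) 1, ∀ y ∈ Icc (0:ℝ) 1, |h x - h y| ≤ |WW η b ε x - WW η b ε y|) →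
    ∀ x ∈ Icc (0:ℝ) 1, ∀ y ∈ Icc (0:ℝ) 1,
      |i * (RR ν h x - RR ν h y) + δ * vp x0 h * (x ^ 2 - y ^ 2)|
        ≤ ρ * |WW η b ε x - WW η b ε y|

theorem RR_add {ν : Measure ℝ} {d : ℝ} (hν : Law ν d) {f g : ℝ → ℝ} (hf : Continuous f)
    (hg : Continuous g) (x : ℝ) : RR ν (fun y => f y + g y) x = RR ν f x + RR ν g x := by
  unfold RR
  rw [integral_add (hν.integrable' (by fun_prop)) (hν.integrable' (by fun_prop))]

theorem RR_sub {ν : Measure ℝ} {d : ℝ} (hν : Law ν d) {f g : ℝ → ℝ} (hf : Continuous f)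
    (hg : Continuous g) (x : ℝ) : RR ν (fun y => f y - g y) x = RR ν f x - RR ν g x := by
  unfold RR
  rw [integral_sub (hν.integrable' (by fun_prop)) (hν.integrable' (by fun_prop))]

theorem sq_sub_nn {x y : ℝ} (hy : 0 ≤ y) (hyx : y ≤ x) : 0 ≤ x ^ 2 - y ^ 2 := by nlinarith

theorem avg_le_one {x y : ℝ} (hy : 0 ≤ y) (hyx : y ≤ x) (hx : x ≤ 1) :
    (x ^ 2 + y ^ 2) / 2 ≤ 1 := by nlinarith

theorem avg_ge {x y z : ℝ} (hz : 0 ≤ z) (hy : z ≤ y) (hyx : y ≤ x) :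
    z ^ 2 ≤ (x ^ 2 + y ^ 2) / 2 := by nlinarith

theorem vp_sq (T : ℝ) : vp T (fun x => x ^ 2) = 2 / 3 * T ^ 3 := by
  rw [vp_eq (by fun_prop), integral_pow]
  norm_num
  ring

theorem dom_mono {W h : ℝ → ℝ} (hW : ∀ x y : ℝ, 0 ≤ y → y ≤ x → x ≤ 1 → W y ≤ W x)
    (hd : ∀ x ∈ Icc (0:ℝ) 1, ∀ y ∈ Icc (0:ℝ) 1, |h x - h y| ≤ |W x - W y|) :
    MonotoneOn (fun x => W x + h x) (Icc 0 1) ∧ MonotoneOn (fun x => W x - h x) (Icc 0 1) := by
  constructor
  · intro y hy x hx hyx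
    have h1 := hd x hx y hy
    have h2 := hW x y hy.1 hyx hx.2
    rw [abs_of_nonneg (by linarith : 0 ≤ W x - W y)] at h1
    have := (abs_le.1 h1).1
    show W y + h y ≤ W x + h x
    linarith
  · intro y hy x hx hyx
    have h1 := hd x hx y hy
    have h2 := hW x y hy.1 hyx hx.2
    rw [abs_of_nonneg (by linarith : 0 ≤ W x - W y)] at h1
    have := (abs_le.1 h1).2
    show W y - h y ≤ W x - h x
    linarith

/-- scalar inequality, first region -/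
theorem scal1 {η q Δ m X ρ g0 : ℝ} (hη : 0 ≤ η) (hη1 : η ≤ 1) (hq : 0 ≤ q) (hq1 : q < 1)
    (hΔ : 0 ≤ Δ) (hm : 0 ≤ m) (hm1 : m ≤ 1) (hg0 : g0 = 1 - q) (hρ : ρ = 1 - η * g0 / 16) :
    Δ * (1 + η * q * (1 - m) + η * g0 / 8) - η * (1 + q) / 2 * Δ ≤ ρ * (Δ * (1 + η * m)) := by
  have h1 : (1 + η * q * (1 - m) + η * g0 / 8) - η * (1 + q) / 2 ≤ ρ * (1 + η * m) := by
    have hqm : 0 ≤ η * q * m := by positivity
    have hηg : η * g0 ≤ 1 := by rw [hg0]; nlinarith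
    have hηg0 : 0 ≤ η * g0 := by rw [hg0]; exact mul_nonneg hη (by linarith)
    have hρ1 : 0 ≤ ρ := by rw [hρ]; linarith
    have h2 : ρ * 1 ≤ ρ * (1 + η * m) := by
      apply mul_le_mul_of_nonneg_left _ hρ1
      nlinarith [mul_nonneg hη hm]
    have h3 : (1 + η * q * (1 - m) + η * g0 / 8) - η * (1 + q) / 2 ≤ ρ := by
      rw [hρ]
      have : η * (1 + q) / 2 = η * q + η * g0 / 2 := by rw [hg0]; ring
      rw [this]
      nlinarith
    linarith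
  calc _ = Δ * ((1 + η * q * (1 - m) + η * g0 / 8) - η * (1 + q) / 2) := by ring
    _ ≤ Δ * (ρ * (1 + η * m)) := mul_le_mul_of_nonneg_left h1 hΔ
    _ = _ := by ring

/-- scalar inequality, second region -/
theorem scal2 {η q Δ m ρ g0 : ℝ} (hη : 0 ≤ η) (hη1 : η ≤ 1) (hq : 0 ≤ q) (hq1 : q < 1)
    (hΔ : 0 ≤ Δ) (hm : (3 + 5 * q) / (4 * (1 + q)) ≤ m) (hm1 : m ≤ 1) (hg0 : g0 = 1 - q)
    (hρ : ρ = 1 - η * g0 / 16) :
    Δ * (1 + η * q * (1 - m) + η * g0 / 8) + η * (1 + q) / 2 * Δ ≤ ρ * (Δ * (1 + η * m)) := by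
  have hm2 : (3 + 5 * q) / 4 ≤ m * (1 + q) := by
    rw [div_le_iff₀ (by positivity)] at hm
    linarith
  have hm0 : 0 ≤ m := le_trans (by positivity) hm
  have h1 : (1 + η * q * (1 - m) + η * g0 / 8) + η * (1 + q) / 2 ≤ ρ * (1 + η * m) := by
    have h2 : q * (1 - m) + g0 / 8 + (1 + q) / 2 ≤ m - g0 / 8 := by
      rw [hg0]; linarith
    have h3 := mul_le_mul_of_nonneg_left h2 hη
    have h4 : ρ * (1 + η * m) = 1 + η * m - η * g0 / 16 * (1 + η * m) := by rw [hρ]; ring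
    have hηg0 : 0 ≤ η * g0 / 16 := by
      rw [hg0]
      exact div_nonneg (mul_nonneg hη (by linarith)) (by norm_num)
    have h5 : η * g0 / 16 * (1 + η * m) ≤ η * g0 / 16 * 2 := by
      apply mul_le_mul_of_nonneg_left _ hηg0
      have : η * m ≤ 1 := mul_le_one₀ hη1 hm0 hm1
      linarith
    rw [h4]
    linarith
  calc _ = Δ * ((1 + η * q * (1 - m) + η * g0 / 8) + η * (1 + q) / 2) := by ring
    _ ≤ Δ * (ρ * (1 + η * m)) := mul_le_mul_of_nonneg_left h1 hΔ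
    _ = _ := by ring

theorem lin_exists {ν : Measure ℝ} {d i : ℝ} (hν : Law ν d) (hi : 0 < i) (hid : i ≤ d) :
    ∃ η b ε δ x0 ρ : ℝ, 0 ≤ η ∧ 1 ≤ b ∧ 0 < ε ∧ 0 ≤ δ ∧ 0 ≤ x0 ∧ x0 ≤ 1 ∧ 0 ≤ ρ ∧ ρ < 1 ∧
      LinHyp ν i η b ε δ x0 ρ := by
  have hprob := hν.prob
  obtain ⟨q, hq0, hq1, hq⟩ := hν.m4
  obtain ⟨cν, hcν, hdens⟩ := hν.dens
  have hdpos := hν.dpos
  set b : ℝ := 2 * i + 1 with hb
  have hb1 : 1 ≤ b := by rw [hb]; linarith
  have hb0 : 0 < b := by linarith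
  obtain ⟨s, hs0, hs1, hs⟩ := hν.tail (1 / (2 * i * b)) (by positivity)
  set g0 : ℝ := 1 - q with hg0
  have hg0p : 0 < g0 := by rw [hg0]; linarith
  set s1 : ℝ := (3 + 5 * q) / (4 * (1 + q)) with hs1d
  have hs1p : 0 ≤ s1 := by positivity
  have hs1l : s1 < 1 := by
    rw [hs1d, div_lt_one (by positivity)]; linarith
  set x1 : ℝ := √s1 with hx1
  have hx1sq : x1 ^ 2 = s1 := Real.sq_sqrt hs1p
  have hx10 : 0 ≤ x1 := Real.sqrt_nonneg _
  have hx11 : x1 < 1 := by nlinarith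
  set x0 : ℝ := √(1 - x1 ^ 2) / 2 with hx0
  have hx0p : 0 < x0 := by
    have : 0 < √(1 - x1 ^ 2) := Real.sqrt_pos.2 (by rw [hx1sq]; linarith)
    rw [hx0]; linarith
  have hx01 : x0 ≤ 1 := by
    have := (sqrt_fact hx10 hx11.le).2.1
    rw [hx0]; linarith
  set η : ℝ := min 1 (i * cν * x0 ^ 3 / 3) with hη
  have hη0 : 0 < η := lt_min one_pos (by positivity)
  have hη1 : η ≤ 1 := min_le_left _ _
  have hη2 : η ≤ i * cν * x0 ^ 3 / 3 := min_le_right _ _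
  set κ : ℝ := 1 / (2 * √(1 - s ^ 2)) with hκ
  have hκp : 0 < κ := by
    have : 0 < √(1 - s ^ 2) := Real.sqrt_pos.2 (by nlinarith)
    positivity
  set ε : ℝ := η * g0 / (8 * (b * κ)) with hε
  have hε0 : 0 < ε := by positivity
  have hεb : ε * b * κ = η * g0 / 8 := by
    rw [hε]; field_simp
  set ρ : ℝ := 1 - η * g0 / 16 with hρ
  have hρ1 : ρ < 1 := by
    have : 0 < η * g0 := by positivity
    rw [hρ]; linarith
  have hρh : 1 / 2 ≤ ρ := by
    have h1 : η * g0 ≤ 1 := by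
      have : g0 ≤ 1 := by rw [hg0]; linarith
      nlinarith
    rw [hρ]; linarith
  have hWc : Continuous (WW η b ε) := WW_cont
  have hWm : ∀ x y : ℝ, 0 ≤ y → y ≤ x → x ≤ 1 → WW η b ε y ≤ WW η b ε x :=
    fun x y h1 h2 h3 => WW_mono hη0.le hb0.le hε0.le h1 h2 h3
  -- the functional at the weight
  have hvW : 2 / 3 * x0 ^ 3 ≤ vp x0 (WW η b ε) := by
    have h1 : vp x0 (fun x => WW η b ε x - x ^ 2) = vp x0 (WW η b ε) - 2 / 3 * x0 ^ 3 := by
      rw [vp_sub hWc (by fun_prop), vp_sq]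
    have h2 : 0 ≤ vp x0 (fun x => WW η b ε x - x ^ 2) := by
      apply vp_nonneg (by fun_prop) hx0p.le hx01
      intro y hy x hx hyx
      have := sq_le_WW hη0.le hb0.le hε0.le hy.1 hyx hx.2
      show WW η b ε y - y ^ 2 ≤ WW η b ε x - x ^ 2
      linarith
    linarith
  have hvWp : 0 < vp x0 (WW η b ε) := lt_of_lt_of_le (by positivity) hvW
  set δ : ℝ := η * (1 + q) / 2 / vp x0 (WW η b ε) with hδ
  have hδ0 : 0 ≤ δ := by positivity
  have hδv : δ * vp x0 (WW η b ε) = η * (1 + q) / 2 := by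
    rw [hδ]; field_simp
  have hδle : δ ≤ i * cν / 2 := by
    rw [hδ, div_le_iff₀ hvWp]
    have h1 : η * (1 + q) / 2 ≤ η := by nlinarith
    have h2 : i * cν / 2 * (2 / 3 * x0 ^ 3) ≤ i * cν / 2 * vp x0 (WW η b ε) := by gcongr
    linarith
  refine ⟨η, b, ε, δ, x0, ρ, hη0.le, hb1, hε0, hδ0, hx0p.le, hx01, by linarith, hρ1, ?_⟩
  intro h hc hdom
  obtain ⟨hm1, hm2⟩ := dom_mono hWm hdom
  have hc1 : Continuous (fun x => WW η b ε x + h x) := by fun_prop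
  have hc2 : Continuous (fun x => WW η b ε x - h x) := by fun_prop
  -- bound of the transform of the weight
  have hQ : ∀ x y : ℝ, 0 ≤ y → y ≤ x → x ≤ 1 →
      i * (RR ν (WW η b ε) y - RR ν (WW η b ε) x) ≤
        (x ^ 2 - y ^ 2) * (1 + η * q * (1 - (x ^ 2 + y ^ 2) / 2) + η * g0 / 8)
        + ρ * (ε * b * (√(1 - y ^ 2) - √(1 - x ^ 2))) + ρ * (ε * (x - y)) := by
    intro x y hy hyx hx
    have h1 := RW_bound hν hη0.le hb0.le hε0.le hq hs0 hs1 hy hyx hx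
    have h2 := mul_le_mul_of_nonneg_left h1 hi.le
    have hΔ : 0 ≤ x ^ 2 - y ^ 2 := sq_sub_nn hy hyx
    have hsq := sqrt_mono_aux hy hyx
    have hid1 : i / d ≤ 1 := by rw [div_le_one hdpos]; exact hid
    have hid0 : 0 ≤ i / d := by positivity
    have h3 : i * ((x ^ 2 - y ^ 2) * (1 / d + η / 2 * (q / d) * (2 - x ^ 2 - y ^ 2)
        + ε * b * κ * (1 / d)))
        = (i / d) * ((x ^ 2 - y ^ 2) * (1 + η * q * (1 - (x ^ 2 + y ^ 2) / 2) + ε * b * κ)) := by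
      field_simp
      ring
    have h4 : 0 ≤ (x ^ 2 - y ^ 2) * (1 + η * q * (1 - (x ^ 2 + y ^ 2) / 2) + ε * b * κ) := by
      apply mul_nonneg hΔ
      have : 0 ≤ 1 - (x ^ 2 + y ^ 2) / 2 := by linarith [avg_le_one hy hyx hx]
      positivity
    have h5 : i * ((x ^ 2 - y ^ 2) * (1 / d + η / 2 * (q / d) * (2 - x ^ 2 - y ^ 2)
        + ε * b * κ * (1 / d)))
        ≤ (x ^ 2 - y ^ 2) * (1 + η * q * (1 - (x ^ 2 + y ^ 2) / 2) + η * g0 / 8) := by
      rw [h3, ← hεb]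
      calc _ ≤ 1 * ((x ^ 2 - y ^ 2) * (1 + η * q * (1 - (x ^ 2 + y ^ 2) / 2) + ε * b * κ)) :=
            mul_le_mul_of_nonneg_right hid1 h4
        _ = _ := one_mul _
    have h6 : i * (ε * (√(1 - y ^ 2) - √(1 - x ^ 2)))
        ≤ ρ * (ε * b * (√(1 - y ^ 2) - √(1 - x ^ 2))) := by
      have h7 : i ≤ ρ * b := by
        calc i ≤ 1 / 2 * b := by rw [hb]; linarith
          _ ≤ ρ * b := mul_le_mul_of_nonneg_right hρh hb0.le
      have h8 : 0 ≤ ε * (√(1 - y ^ 2) - √(1 - x ^ 2)) := mul_nonneg hε0.le (by linarith)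
      calc _ ≤ (ρ * b) * (ε * (√(1 - y ^ 2) - √(1 - x ^ 2))) :=
            mul_le_mul_of_nonneg_right h7 h8
        _ = _ := by ring
    have h9 : i * (ε * b * (x - y) * ν.real {t : ℝ | s < |t|}) ≤ ρ * (ε * (x - y)) := by
      have h10 : 0 ≤ i * (ε * b * (x - y)) := by
        have : 0 ≤ x - y := by linarith
        positivity
      calc _ = i * (ε * b * (x - y)) * ν.real {t : ℝ | s < |t|} := by ring
        _ ≤ i * (ε * b * (x - y)) * (1 / (2 * i * b)) := mul_le_mul_of_nonneg_left hs h10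
        _ = 1 / 2 * (ε * (x - y)) := by field_simp
        _ ≤ ρ * (ε * (x - y)) := by
            apply mul_le_mul_of_nonneg_right hρh
            exact mul_nonneg hε0.le (by linarith)
    calc _ ≤ _ := h2
      _ = i * ((x ^ 2 - y ^ 2) * (1 / d + η / 2 * (q / d) * (2 - x ^ 2 - y ^ 2)
        + ε * b * κ * (1 / d))) + i * (ε * (√(1 - y ^ 2) - √(1 - x ^ 2)))
        + i * (ε * b * (x - y) * ν.real {t : ℝ | s < |t|}) := by ring
      _ ≤ _ := by linarith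
  have hWd : ∀ x y : ℝ, 0 ≤ y → y ≤ x → x ≤ 1 → ρ * (WW η b ε x - WW η b ε y)
      = ρ * ((x ^ 2 - y ^ 2) * (1 + η * ((x ^ 2 + y ^ 2) / 2)))
        + ρ * (ε * (x - y)) + ρ * (ε * b * (√(1 - y ^ 2) - √(1 - x ^ 2))) := by
    intro x y hy hyx hx
    rw [WW_diff hη0.le hb0.le hε0.le hy hyx hx]
    ring
  have hRadd : ∀ x, RR ν (fun y => WW η b ε y + h y) x = RR ν (WW η b ε) x + RR ν h x :=
    fun x => RR_add hν hWc hc x
  have hRsub : ∀ x, RR ν (fun y => WW η b ε y - h y) x = RR ν (WW η b ε) x - RR ν h x :=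
    fun x => RR_sub hν hWc hc x
  have hvadd : vp x0 (fun y => WW η b ε y + h y) = vp x0 (WW η b ε) + vp x0 h :=
    vp_add hWc hc x0
  have hvsub : vp x0 (fun y => WW η b ε y - h y) = vp x0 (WW η b ε) - vp x0 h :=
    vp_sub hWc hc x0
  -- first region
  have case1 : ∀ x y : ℝ, 0 ≤ y → y ≤ x → x ≤ x1 →
      |i * (RR ν h x - RR ν h y) + δ * vp x0 h * (x ^ 2 - y ^ 2)|
        ≤ ρ * (WW η b ε x - WW η b ε y) := by
    intro x y hy hyx hx
    have hx1' : x ≤ 1 := hx.trans hx11.le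
    have hΔ : 0 ≤ x ^ 2 - y ^ 2 := sq_sub_nn hy hyx
    have key : ∀ D : ℝ → ℝ, Continuous D → MonotoneOn D (Icc 0 1) →
        δ * ((x ^ 2 - y ^ 2) * vp x0 D) ≤ i * (RR ν D y - RR ν D x) := by
      intro D hD hmD
      have h1 := minor hν hcν hdens hD hmD hy hyx hx hx11
      rw [← hx0] at h1
      have h2 : 0 ≤ vp x0 D := vp_nonneg hD hx0p.le hx01 hmD
      have h3 := mul_le_mul_of_nonneg_left h1 hi.le
      calc _ ≤ i * cν / 2 * ((x ^ 2 - y ^ 2) * vp x0 D) :=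
            mul_le_mul_of_nonneg_right hδle (mul_nonneg hΔ h2)
        _ = i * (cν * ((x ^ 2 - y ^ 2) / 2 * vp x0 D)) := by ring
        _ ≤ _ := h3
    have k1 := key _ hc1 hm1
    have k2 := key _ hc2 hm2
    rw [hRadd, hRadd, hvadd] at k1
    rw [hRsub, hRsub, hvsub] at k2
    have hP : i * (RR ν (WW η b ε) y - RR ν (WW η b ε) x)
        - δ * vp x0 (WW η b ε) * (x ^ 2 - y ^ 2) ≤ ρ * (WW η b ε x - WW η b ε y) := by
      rw [hWd x y hy hyx hx1', hδv]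
      have h1 := hQ x y hy hyx hx1'
      have h2 := scal1 (m := (x ^ 2 + y ^ 2) / 2) (X := 0) hη0.le hη1 hq0 hq1 hΔ (by positivity)
        (avg_le_one hy hyx hx1') hg0 hρ
      linarith
    rw [abs_le]
    constructor
    · linarith
    · linarith
  -- second region
  have case2 : ∀ x y : ℝ, x1 ≤ y → y ≤ x → x ≤ 1 →
      |i * (RR ν h x - RR ν h y) + δ * vp x0 h * (x ^ 2 - y ^ 2)|
        ≤ ρ * (WW η b ε x - WW η b ε y) := by
    intro x y hy1 hyx hx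
    have hy : 0 ≤ y := hx10.trans hy1
    have hΔ : 0 ≤ x ^ 2 - y ^ 2 := sq_sub_nn hy hyx
    have k1 := RR_mono hν hc1 hm1 hy hyx hx
    have k2 := RR_mono hν hc2 hm2 hy hyx hx
    have v1 := vp_nonneg hc1 hx0p.le hx01 hm1
    have v2 := vp_nonneg hc2 hx0p.le hx01 hm2
    rw [hRadd, hRadd] at k1
    rw [hRsub, hRsub] at k2
    rw [hvadd] at v1
    rw [hvsub] at v2
    have hP : i * (RR ν (WW η b ε) y - RR ν (WW η b ε) x)
        + δ * vp x0 (WW η b ε) * (x ^ 2 - y ^ 2) ≤ ρ * (WW η b ε x - WW η b ε y) := by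
      rw [hWd x y hy hyx hx, hδv]
      have h1 := hQ x y hy hyx hx
      have h2 := scal2 (m := (x ^ 2 + y ^ 2) / 2) hη0.le hη1 hq0 hq1 hΔ (by
        rw [← hs1d, ← hx1sq]
        exact avg_ge hx10 hy1 hyx) (avg_le_one hy hyx hx) hg0 hρ
      linarith
    have e1 : |i * (RR ν h x - RR ν h y)| ≤ i * (RR ν (WW η b ε) y - RR ν (WW η b ε) x) := by
      rw [abs_mul, abs_of_pos hi]
      apply mul_le_mul_of_nonneg_left _ hi.le
      rw [abs_le]
      constructor <;> linarith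
    have e2 : |δ * vp x0 h * (x ^ 2 - y ^ 2)| ≤ δ * vp x0 (WW η b ε) * (x ^ 2 - y ^ 2) := by
      rw [abs_mul, abs_mul, abs_of_nonneg hδ0, abs_of_nonneg hΔ]
      apply mul_le_mul_of_nonneg_right _ hΔ
      apply mul_le_mul_of_nonneg_left _ hδ0
      rw [abs_le]
      constructor <;> linarith
    calc _ ≤ _ := abs_add_le _ _
      _ ≤ _ := add_le_add e1 e2
      _ ≤ _ := hP
  -- all pairs
  have main : ∀ x y : ℝ, 0 ≤ y → y ≤ x → x ≤ 1 →
      |i * (RR ν h x - RR ν h y) + δ * vp x0 h * (x ^ 2 - y ^ 2)|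
        ≤ ρ * (WW η b ε x - WW η b ε y) := by
    intro x y hy hyx hx
    by_cases h1 : x ≤ x1
    · exact case1 x y hy hyx h1
    by_cases h2 : x1 ≤ y
    · exact case2 x y h2 hyx hx
    push Not at h1 h2
    have k1 := case1 x1 y hy h2.le le_rfl
    have k2 := case2 x x1 le_rfl h1.le hx
    have e : i * (RR ν h x - RR ν h y) + δ * vp x0 h * (x ^ 2 - y ^ 2)
        = (i * (RR ν h x - RR ν h x1) + δ * vp x0 h * (x ^ 2 - x1 ^ 2))
          + (i * (RR ν h x1 - RR ν h y) + δ * vp x0 h * (x1 ^ 2 - y ^ 2)) := by ring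
    rw [e]
    calc _ ≤ _ := abs_add_le _ _
      _ ≤ _ := add_le_add k2 k1
      _ = _ := by ring
  intro x hx y hy
  rcases le_total y x with hyx | hxy
  · rw [abs_of_nonneg (by linarith [hWm x y hy.1 hyx hx.2] : 0 ≤ WW η b ε x - WW η b ε y)]
    exact main x y hy.1 hyx hx.2
  · have h1 := main y x hx.1 hxy hy.2
    rw [abs_sub_comm (WW η b ε x),
      abs_of_nonneg (by linarith [hWm y x hx.1 hxy hy.2] : 0 ≤ WW η b ε y - WW η b ε x)]
    have e : i * (RR ν h x - RR ν h y) + δ * vp x0 h * (x ^ 2 - y ^ 2)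
        = -(i * (RR ν h y - RR ν h x) + δ * vp x0 h * (y ^ 2 - x ^ 2)) := by ring
    rw [e, abs_neg]
    exact h1

end Pool.Agent.Helper74.Hom
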