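import Mathlib
import Pool.Agent.Helper74.Hom.Omega
import Pool.Agent.Helper74.Hom.Lin2
import Pool.Agent.Helper74.Hom.Elem

/-!
The nonlinear map preserves a ball in the weighted Lipschitz norm.
-/

set_option autoImplicit false
set_option linter.unusedVariables false

namespace Pool.Agent.Helper74.Hom

open Real Set MeasureTheory

/-- domination by the weight -/
structure Dom (η b ε Λ : ℝ) (h : ℝ → ℝ) : Prop where
  cont : Continuous h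
  zero : h 0 = 0
  dom : ∀ x ∈ Icc (0:ℝ) 1, ∀ y ∈ Icc (0:ℝ) 1, |h x - h y| ≤ Λ * |WW η b ε x - WW η b ε y|

/-- the radial function in terms of the angle -/
noncomputable def mu (τ : ℝ) (h : ℝ → ℝ) (a : ℝ) : ℝ := 1 + h |cos a| - τ * cos a ^ 2

theorem abs_cos_mem (a : ℝ) : |cos a| ∈ Icc (0:ℝ) 1 := ⟨abs_nonneg _, Real.abs_cos_le_one a⟩

theorem cos_sq_diff (x y : ℝ) : cos x ^ 2 - cos y ^ 2 = -(sin (x + y) * sin (x - y)) := by
  rw [Real.sin_add, Real.sin_sub]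
  have h1 := Real.sin_sq_add_cos_sq x
  have h2 := Real.sin_sq_add_cos_sq y
  have e1 : sin x ^ 2 = 1 - cos x ^ 2 := by linarith
  have e2 : sin y ^ 2 = 1 - cos y ^ 2 := by linarith
  have : (sin x * cos y + cos x * sin y) * (sin x * cos y - cos x * sin y)
      = sin x ^ 2 * cos y ^ 2 - cos x ^ 2 * sin y ^ 2 := by ring
  rw [this, e1, e2]; ring

theorem cos_sq_lip (x y : ℝ) : |cos x ^ 2 - cos y ^ 2| ≤ |x - y| := by
  rw [cos_sq_diff, abs_neg, abs_mul]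
  have h1 := Real.abs_sin_le_one (x + y)
  have h2 : |sin (x - y)| ≤ |x - y| := Real.abs_sin_le_abs
  calc _ ≤ 1 * |x - y| := mul_le_mul h1 h2 (abs_nonneg _) (by norm_num)
    _ = _ := one_mul _

theorem cos_sq_pert {ζ α α' ω ω' : ℝ} (h0 : 0 ≤ ζ) (h1 : ζ ≤ 1 / 20) (hω : |ω| ≤ 4 * ζ)
    (hωω : |ω - ω'| ≤ 7 * ζ * |α - α'|) :
    |(cos (α + ω) ^ 2 - cos α ^ 2) - (cos (α' + ω') ^ 2 - cos α' ^ 2)| ≤ 17 * ζ * |α - α'| := by
  rw [cos_sq_diff, cos_sq_diff]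
  have e1 : α + ω - α = ω := by ring
  have e2 : α' + ω' - α' = ω' := by ring
  rw [e1, e2]
  have hid : -(sin (α + ω + α) * sin ω) - -(sin (α' + ω' + α') * sin ω')
      = -((sin (α + ω + α) - sin (α' + ω' + α')) * sin ω + sin (α' + ω' + α') * (sin ω - sin ω')) := by
    ring
  rw [hid, abs_neg]
  have ha := abs_nonneg (α - α')
  have h2 : |sin (α + ω + α) - sin (α' + ω' + α')| ≤ 2 * |α - α'| + |ω - ω'| := by
    refine (Real.abs_sin_sub_sin_le _ _).trans ?_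
    have : α + ω + α - (α' + ω' + α') = 2 * (α - α') + (ω - ω') := by ring
    rw [this]
    refine (abs_add_le _ _).trans ?_
    rw [abs_mul]; norm_num
  have h3 : |sin ω| ≤ 4 * ζ := (Real.abs_sin_le_abs).trans hω
  have h4 : |sin ω - sin ω'| ≤ 7 * ζ * |α - α'| := (Real.abs_sin_sub_sin_le _ _).trans hωω
  have h5 := Real.abs_sin_le_one (α' + ω' + α')
  calc _ ≤ |sin (α + ω + α) - sin (α' + ω' + α')| * |sin ω|
        + |sin (α' + ω' + α')| * |sin ω - sin ω'| := by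
        rw [← abs_mul, ← abs_mul]; exact abs_add_le _ _
    _ ≤ (2 * |α - α'| + 7 * ζ * |α - α'|) * (4 * ζ) + 1 * (7 * ζ * |α - α'|) := by
        gcongr
        exact h2.trans (by linarith)
    _ = ζ * |α - α'| * (15 + 28 * ζ) := by ring
    _ ≤ ζ * |α - α'| * 17 := by
        apply mul_le_mul_of_nonneg_left _ (mul_nonneg h0 ha)
        linarith
    _ = _ := by ring

section

variable {η b ε Λ lam ζ τ i C : ℝ} {h : ℝ → ℝ}

theorem Dom.le (hη : 0 ≤ η) (hb : 1 ≤ b) (hε : 0 < ε) (hΛ : 0 ≤ Λ) (H : Dom η b ε Λ h)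
    {x : ℝ} (hx : x ∈ Icc (0:ℝ) 1) : |h x| ≤ Λ * AA η b ε := by
  have h1 := H.dom x hx 0 (by simp)
  rw [H.zero, sub_zero, WW_zero, sub_zero] at h1
  refine h1.trans ?_
  apply mul_le_mul_of_nonneg_left _ hΛ
  have h2 := WW_mono hη (by linarith : 0 ≤ b) hε.le (y := 0) le_rfl hx.1 hx.2
  rw [WW_zero] at h2
  rw [abs_of_nonneg h2]
  exact WW_le_AA hη (by linarith) hε.le hx.1 hx.2

theorem mu_gd (hη : 0 ≤ η) (hb : 1 ≤ b) (hε : 0 < ε) (hΛ : 0 ≤ Λ) (H : Dom η b ε Λ h)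
    (hτ : Λ * AA η b ε + |τ| ≤ lam) (hlam : lam ≤ 1 / 4) :
    Gd (mu τ h) lam ∧ ∀ a, |mu τ h a - 1| ≤ lam := by
  have h1 : ∀ a, |mu τ h a - 1| ≤ lam := by
    intro a
    have e : mu τ h a - 1 = h |cos a| - τ * cos a ^ 2 := by unfold mu; ring
    rw [e]
    have h2 := H.le hη hb hε hΛ (abs_cos_mem a)
    have h3 : |τ * cos a ^ 2| ≤ |τ| := by
      rw [abs_mul, abs_pow]
      have : |cos a| ^ 2 ≤ 1 := pow_le_one₀ (abs_nonneg _) (Real.abs_cos_le_one a)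
      have h5 := abs_nonneg τ
      nlinarith
    calc _ ≤ |h (|cos a|)| + |τ * cos a ^ 2| := abs_sub _ _
      _ ≤ _ := by linarith
  refine ⟨⟨?_, ?_, ?_⟩, h1⟩
  · intro a
    have := (abs_le.1 (h1 a)).1
    linarith
  · intro a
    have := (abs_le.1 (h1 a)).2
    linarith
  · intro a c
    have e : mu τ h a - mu τ h c = (h |cos a| - h |cos c|) - τ * (cos a ^ 2 - cos c ^ 2) := by
      unfold mu; ring
    rw [e]
    have h2 := H.dom _ (abs_cos_mem a) _ (abs_cos_mem c)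
    have h3 := WW_le_FF (η := η) (by linarith : 0 ≤ b) hε.le a c
    have h4 := FF_le hη (by linarith : 0 ≤ b) hε.le a c
    have h5 := cos_sq_lip a c
    have h6 := abs_nonneg (a - c)
    calc _ ≤ |h (|cos a|) - h (|cos c|)| + |τ * (cos a ^ 2 - cos c ^ 2)| := abs_sub _ _
      _ = |h (|cos a|) - h (|cos c|)| + |τ| * |cos a ^ 2 - cos c ^ 2| := by rw [abs_mul]
      _ ≤ Λ * (AA η b ε * |a - c|) + |τ| * |a - c| := by
          gcongr
          exact h2.trans (mul_le_mul_of_nonneg_left (h3.trans h4) hΛ)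
      _ = (Λ * AA η b ε + |τ|) * |a - c| := by ring
      _ ≤ _ := by gcongr

/-- the perturbed profile -/
noncomputable def kk (τ : ℝ) (h : ℝ → ℝ) (ζ α : ℝ) : ℝ := h |cos (α + om (mu τ h) ζ α)|

/-- the power of the radial function -/
noncomputable def gg (i τ : ℝ) (h : ℝ → ℝ) (ζ α : ℝ) : ℝ := rr (mu τ h) ζ α ^ i

/-- the error term -/
noncomputable def EE (i τ : ℝ) (h : ℝ → ℝ) (ζ α : ℝ) : ℝ :=
  gg i τ h ζ α - i * kk τ h ζ α + i * τ * cos α ^ 2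

theorem rr_one (hG : Gd (mu τ h) lam) (h1m : ∀ a, |mu τ h a - 1| ≤ lam) (h0 : 0 ≤ ζ)
    (h1 : ζ ≤ 1 / 20) (α : ℝ) : |rr (mu τ h) ζ α - 1| ≤ 2 * ζ + lam := by
  have h2 := rr_near hG h0 h1 α
  have h3 := h1m (α + om (mu τ h) ζ α)
  have e : rr (mu τ h) ζ α - 1 = (rr (mu τ h) ζ α - mu τ h (α + om (mu τ h) ζ α))
    + (mu τ h (α + om (mu τ h) ζ α) - 1) := by ring
  rw [e]
  exact (abs_add_le _ _).trans (add_le_add h2 h3)

theorem rr_lip (hG : Gd (mu τ h) lam) (hlam0 : 0 ≤ lam) (hlam : lam ≤ 1 / 4) (h0 : 0 ≤ ζ)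
    (h1 : ζ ≤ 1 / 20) (α α' : ℝ) :
    |rr (mu τ h) ζ α - rr (mu τ h) ζ α'| ≤ (2 * lam + 5 * ζ) * |α - α'| := by
  have h2 := rr_pert hG hlam0 hlam h0 h1 α α'
  have h3 := hG.lip (α + om (mu τ h) ζ α) (α' + om (mu τ h) ζ α')
  have h4 := om_lip hG hlam0 hlam h0 h1 α α'
  have ha := abs_nonneg (α - α')
  have h5 : |α + om (mu τ h) ζ α - (α' + om (mu τ h) ζ α')| ≤ 2 * |α - α'| := by
    have : α + om (mu τ h) ζ α - (α' + om (mu τ h) ζ α')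
        = (α - α') + (om (mu τ h) ζ α - om (mu τ h) ζ α') := by ring
    rw [this]
    refine (abs_add_le _ _).trans ?_
    nlinarith
  have e : rr (mu τ h) ζ α - rr (mu τ h) ζ α'
      = ((rr (mu τ h) ζ α - mu τ h (α + om (mu τ h) ζ α))
        - (rr (mu τ h) ζ α' - mu τ h (α' + om (mu τ h) ζ α')))
        + (mu τ h (α + om (mu τ h) ζ α) - mu τ h (α' + om (mu τ h) ζ α')) := by ring
  rw [e]
  calc _ ≤ _ := abs_add_le _ _
    _ ≤ 5 * ζ * |α - α'| + lam * (2 * |α - α'|) := by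
        gcongr
        exact h3.trans (mul_le_mul_of_nonneg_left h5 hlam0)
    _ = _ := by ring

theorem EE_lip (hi : 0 < i) (hG : Gd (mu τ h) lam) (h1m : ∀ a, |mu τ h a - 1| ≤ lam)
    (hlam0 : 0 ≤ lam) (hlam : lam ≤ 1 / 4) (h0 : 0 ≤ ζ) (h1 : ζ ≤ 1 / 20) (hτ : |τ| ≤ lam)
    (hC0 : 0 < C)
    (hC : ∀ e r r' : ℝ, e ≤ 1 / 2 → |r - 1| ≤ e → |r' - 1| ≤ e →
      |r ^ i - r' ^ i - i * (r - r')| ≤ C * e * |r - r'|) (α α' : ℝ) :
    |EE i τ h ζ α - EE i τ h ζ α'|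
      ≤ (C * (2 * ζ + lam) * (2 * lam + 5 * ζ) + 10 * i * ζ) * |α - α'| := by
  have ha := abs_nonneg (α - α')
  set R := rr (mu τ h) ζ α with hR
  set R' := rr (mu τ h) ζ α' with hR'
  set ω := om (mu τ h) ζ α with hω
  set ω' := om (mu τ h) ζ α' with hω'
  have p1 := rr_one hG h1m h0 h1 α
  have p2 := rr_one hG h1m h0 h1 α'
  rw [← hR] at p1
  rw [← hR'] at p2
  have k1 := hC (2 * ζ + lam) R R' (by linarith) p1 p2
  have k2 := rr_lip hG hlam0 hlam h0 h1 α α'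
  rw [← hR, ← hR'] at k2
  have k3 := rr_pert hG hlam0 hlam h0 h1 α α'
  rw [← hR, ← hR', ← hω, ← hω'] at k3
  have k4 := cos_sq_pert h0 h1 (om_abs hG h0 h1 α) (om_lip hG hlam0 hlam h0 h1 α α')
  rw [← hω, ← hω'] at k4
  have e : EE i τ h ζ α - EE i τ h ζ α' = (R ^ i - R' ^ i - i * (R - R'))
      + i * ((R - mu τ h (α + ω)) - (R' - mu τ h (α' + ω')))
      - i * τ * ((cos (α + ω) ^ 2 - cos α ^ 2) - (cos (α' + ω') ^ 2 - cos α' ^ 2)) := by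
    have e1 : EE i τ h ζ α = R ^ i - i * h (|cos (α + ω)|) + i * τ * cos α ^ 2 := rfl
    have e2 : EE i τ h ζ α' = R' ^ i - i * h (|cos (α' + ω')|) + i * τ * cos α' ^ 2 := rfl
    have e3 : mu τ h (α + ω) = 1 + h (|cos (α + ω)|) - τ * cos (α + ω) ^ 2 := rfl
    have e4 : mu τ h (α' + ω') = 1 + h (|cos (α' + ω')|) - τ * cos (α' + ω') ^ 2 := rfl
    rw [e1, e2, e3, e4]
    ring
  rw [e]
  have hiz : 0 ≤ i * ζ * |α - α'| := by positivity
  calc _ ≤ |R ^ i - R' ^ i - i * (R - R')|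
      + |i * ((R - mu τ h (α + ω)) - (R' - mu τ h (α' + ω')))|
      + |i * τ * ((cos (α + ω) ^ 2 - cos α ^ 2) - (cos (α' + ω') ^ 2 - cos α' ^ 2))| := by
        refine (abs_sub _ _).trans ?_
        gcongr
        exact abs_add_le _ _
    _ = |R ^ i - R' ^ i - i * (R - R')|
      + i * |(R - mu τ h (α + ω)) - (R' - mu τ h (α' + ω'))|
      + i * |τ| * |(cos (α + ω) ^ 2 - cos α ^ 2) - (cos (α' + ω') ^ 2 - cos α' ^ 2)| := by
        rw [abs_mul i, abs_mul (i * τ), abs_mul i, abs_of_pos hi]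
    _ ≤ C * (2 * ζ + lam) * ((2 * lam + 5 * ζ) * |α - α'|)
      + i * (5 * ζ * |α - α'|) + i * (1 / 4) * (17 * ζ * |α - α'|) := by
        have : 0 ≤ C * (2 * ζ + lam) := by positivity
        gcongr
        · exact k1.trans (mul_le_mul_of_nonneg_left k2 this)
        · exact hτ.trans hlam
    _ ≤ _ := by linarith

theorem kk_dom (hη : 0 ≤ η) (hb : 1 ≤ b) (hε : 0 < ε) (hΛ : 0 ≤ Λ) (H : Dom η b ε Λ h)
    (hG : Gd (mu τ h) lam) (hlam0 : 0 ≤ lam) (hlam : lam ≤ 1 / 4) (h0 : 0 ≤ ζ)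
    (h1 : ζ ≤ 1 / 20) (α α' : ℝ) :
    |kk τ h ζ α - kk τ h ζ α'|
      ≤ Λ * (1 + 11 * AA η b ε * ζ / ε) * |FF η b ε α - FF η b ε α'| := by
  have ha := abs_nonneg (α - α')
  have hA0 : 0 ≤ AA η b ε := by unfold AA; positivity
  have k1 := H.dom _ (abs_cos_mem (α + om (mu τ h) ζ α)) _ (abs_cos_mem (α' + om (mu τ h) ζ α'))
  have k2 := WW_le_FF (η := η) (by linarith : 0 ≤ b) hε.le (α + om (mu τ h) ζ α)
    (α' + om (mu τ h) ζ α')
  have k3 := FF_shift hη (by linarith : 0 ≤ b) hε.le α α' (om (mu τ h) ζ α) (om (mu τ h) ζ α')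
  have k4 := om_abs hG h0 h1 α'
  have k5 := om_lip hG hlam0 hlam h0 h1 α α'
  have k6 := FF_ge (η := η) hb hε.le α α'
  have k7 : |α - α'| ≤ |FF η b ε α - FF η b ε α'| / ε := by
    rw [le_div_iff₀ hε]; linarith
  unfold kk
  refine k1.trans ?_
  rw [mul_assoc]
  apply mul_le_mul_of_nonneg_left _ hΛ
  refine k2.trans (k3.trans ?_)
  calc _ ≤ |FF η b ε α - FF η b ε α'| + AA η b ε * (4 * ζ) * |α - α'|
        + AA η b ε * (7 * ζ * |α - α'|) := by gcongr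
    _ = |FF η b ε α - FF η b ε α'| + 11 * AA η b ε * ζ * |α - α'| := by ring
    _ ≤ |FF η b ε α - FF η b ε α'| + 11 * AA η b ε * ζ * (|FF η b ε α - FF η b ε α'| / ε) := by
        gcongr
    _ = _ := by ring

theorem kk_close (hη : 0 ≤ η) (hb : 1 ≤ b) (hε : 0 < ε) (hΛ : 0 ≤ Λ) (H : Dom η b ε Λ h)
    (hG : Gd (mu τ h) lam) (h0 : 0 ≤ ζ) (h1 : ζ ≤ 1 / 20) (α : ℝ) :
    |kk τ h ζ α - h (|cos α|)| ≤ 4 * Λ * AA η b ε * ζ := by
  have hA0 : 0 ≤ AA η b ε := by unfold AA; positivity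
  have k1 := H.dom _ (abs_cos_mem (α + om (mu τ h) ζ α)) _ (abs_cos_mem α)
  have k2 := WW_le_FF (η := η) (by linarith : 0 ≤ b) hε.le (α + om (mu τ h) ζ α) α
  have k3 := FF_le hη (by linarith : 0 ≤ b) hε.le (α + om (mu τ h) ζ α) α
  have k4 := om_abs hG h0 h1 α
  have e : α + om (mu τ h) ζ α - α = om (mu τ h) ζ α := by ring
  rw [e] at k3
  unfold kk
  calc _ ≤ Λ * (AA η b ε * (4 * ζ)) := by
        refine k1.trans (mul_le_mul_of_nonneg_left (k2.trans (k3.trans ?_)) hΛ)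
        gcongr
    _ = _ := by ring

theorem om_continuous (hG : Gd (mu τ h) lam) (hlam0 : 0 ≤ lam) (hlam : lam ≤ 1 / 4) (h0 : 0 ≤ ζ)
    (h1 : ζ ≤ 1 / 20) : Continuous (om (mu τ h) ζ) := by
  have : LipschitzWith (Real.toNNReal (7 * ζ)) (om (mu τ h) ζ) := by
    apply LipschitzWith.of_dist_le_mul
    intro a c
    rw [Real.dist_eq, Real.dist_eq, Real.coe_toNNReal _ (by positivity)]
    exact om_lip hG hlam0 hlam h0 h1 a c
  exact this.continuous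

theorem kk_cont (hc : Continuous h) (hG : Gd (mu τ h) lam) (hlam0 : 0 ≤ lam) (hlam : lam ≤ 1 / 4)
    (h0 : 0 ≤ ζ) (h1 : ζ ≤ 1 / 20) : Continuous (kk τ h ζ) := by
  have := om_continuous hG hlam0 hlam h0 h1
  unfold kk
  fun_prop

theorem rr_cont (hG : Gd (mu τ h) lam) (hlam0 : 0 ≤ lam) (hlam : lam ≤ 1 / 4)
    (h0 : 0 ≤ ζ) (h1 : ζ ≤ 1 / 20) : Continuous (rr (mu τ h) ζ) := by
  have := om_continuous hG hlam0 hlam h0 h1
  have hc := hG.cont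
  unfold rr
  fun_prop

theorem gg_cont (hi : 0 < i) (hG : Gd (mu τ h) lam) (hlam0 : 0 ≤ lam)
    (hlam : lam ≤ 1 / 4) (h0 : 0 ≤ ζ) (h1 : ζ ≤ 1 / 20) : Continuous (gg i τ h ζ) := by
  unfold gg
  exact (rr_cont hG hlam0 hlam h0 h1).rpow_const (fun x => Or.inr hi.le)

theorem evk_dom (hη : 0 ≤ η) (hb : 1 ≤ b) (hε : 0 < ε) (hΛ : 0 ≤ Λ) (H : Dom η b ε Λ h)
    (hG : Gd (mu τ h) lam) (hlam0 : 0 ≤ lam) (hlam : lam ≤ 1 / 4) (h0 : 0 ≤ ζ)
    (h1 : ζ ≤ 1 / 20) {x y : ℝ} (hx : x ∈ Icc (0:ℝ) 1) (hy : y ∈ Icc (0:ℝ) 1) :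
    |ev (kk τ h ζ) x - ev (kk τ h ζ) y|
      ≤ Λ * (1 + 11 * AA η b ε * ζ / ε) * |WW η b ε x - WW η b ε y| := by
  have k1 := kk_dom hη hb hε hΛ H hG hlam0 hlam h0 h1 (arccos x) (arccos y)
  have k2 := kk_dom hη hb hε hΛ H hG hlam0 hlam h0 h1 (π - arccos x) (π - arccos y)
  rw [FF_pi_sub] at k2
  rw [FF_arccos hη hx hy] at k1 k2
  unfold ev
  have e : (kk τ h ζ (arccos x) + kk τ h ζ (π - arccos x)) / 2
      - (kk τ h ζ (arccos y) + kk τ h ζ (π - arccos y)) / 2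
      = ((kk τ h ζ (arccos x) - kk τ h ζ (arccos y))
        + (kk τ h ζ (π - arccos x) - kk τ h ζ (π - arccos y))) / 2 := by ring
  rw [e, abs_div, abs_of_pos (by norm_num : (0:ℝ) < 2)]
  have := abs_add_le (kk τ h ζ (arccos x) - kk τ h ζ (arccos y))
    (kk τ h ζ (π - arccos x) - kk τ h ζ (π - arccos y))
  linarith

theorem evk_close (hη : 0 ≤ η) (hb : 1 ≤ b) (hε : 0 < ε) (hΛ : 0 ≤ Λ) (H : Dom η b ε Λ h)
    (hG : Gd (mu τ h) lam) (h0 : 0 ≤ ζ) (h1 : ζ ≤ 1 / 20) {y : ℝ} (hy : y ∈ Icc (0:ℝ) 1) :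
    |h y - ev (kk τ h ζ) y| ≤ 4 * Λ * AA η b ε * ζ := by
  have k1 := kk_close hη hb hε hΛ H hG h0 h1 (arccos y)
  have k2 := kk_close hη hb hε hΛ H hG h0 h1 (π - arccos y)
  rw [Real.cos_pi_sub, abs_neg] at k2
  rw [Real.cos_arccos (by linarith [hy.1]) hy.2, abs_of_nonneg hy.1] at k1 k2
  unfold ev
  rw [abs_le] at k1 k2 ⊢
  constructor <;> linarith

end

end Pool.Agent.Helper74.Hom
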