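import Mathlib
import Pool.Agent.Helper74.Hom.Inv

/-!
The main estimate for the nonlinear map.
-/

set_option autoImplicit false
set_option linter.unusedVariables false

namespace Pool.Agent.Helper74.Hom

open Real Set MeasureTheory

theorem LinHyp.scale {ν : Measure ℝ} {i η b ε δ x0 ρ L : ℝ} (H : LinHyp ν i η b ε δ x0 ρ)
    (hL : 0 < L) {h : ℝ → ℝ} (hc : Continuous h)
    (hd : ∀ x ∈ Icc (0:ℝ) 1, ∀ y ∈ Icc (0:ℝ) 1, |h x - h y| ≤ L * |WW η b ε x - WW η b ε y|)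
    {x y : ℝ} (hx : x ∈ Icc (0:ℝ) 1) (hy : y ∈ Icc (0:ℝ) 1) :
    |i * (RR ν h x - RR ν h y) + δ * vp x0 h * (x ^ 2 - y ^ 2)|
        ≤ ρ * L * |WW η b ε x - WW η b ε y| := by
  have h1 := H (fun z => h z / L) (by fun_prop) (by
    intro u hu v hv
    have := hd u hu v hv
    rw [← sub_div, abs_div, abs_of_pos hL, div_le_iff₀ hL]
    linarith) x hx y hy
  have e1 : ∀ z, RR ν (fun z => h z / L) z = RR ν h z / L := by
    intro z; unfold RR; rw [integral_div]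
  have e2 : vp x0 (fun z => h z / L) = vp x0 h / L := by
    unfold vp
    rw [← intervalIntegral.integral_div]
    congr 1
    funext y
    ring
  rw [e1, e1, e2] at h1
  have e3 : i * (RR ν h x / L - RR ν h y / L) + δ * (vp x0 h / L) * (x ^ 2 - y ^ 2)
      = (i * (RR ν h x - RR ν h y) + δ * vp x0 h * (x ^ 2 - y ^ 2)) / L := by ring
  rw [e3, abs_div, abs_of_pos hL, div_le_iff₀ hL] at h1
  linarith

theorem vp_close {f g : ℝ → ℝ} (hf : Continuous f) (hg : Continuous g) {T M : ℝ} (hT : 0 ≤ T)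
    (hT1 : T ≤ 1) (hM : ∀ y ∈ Icc (0:ℝ) 1, |f y - g y| ≤ M) : |vp T f - vp T g| ≤ 2 * M := by
  have hM0 : 0 ≤ M := (abs_nonneg _).trans (hM 0 (by simp))
  rw [← vp_sub hf hg]
  unfold vp
  have h1 := intervalIntegral.norm_integral_le_of_norm_le_const (a := (0:ℝ)) (b := T) (C := 2 * M)
    (f := fun y => (f T - g T) - (f y - g y)) (fun y hy => by
      rw [uIoc_of_le hT] at hy
      have h2 := hM T ⟨hT, hT1⟩
      have h3 := hM y ⟨hy.1.le, hy.2.trans hT1⟩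
      rw [Real.norm_eq_abs]
      calc _ ≤ |f T - g T| + |f y - g y| := abs_sub _ _
        _ ≤ _ := by linarith)
  rw [Real.norm_eq_abs, sub_zero, abs_of_nonneg hT] at h1
  refine h1.trans ?_
  nlinarith

theorem vp_zero (T : ℝ) : vp T (fun _ => (0:ℝ)) = 0 := by simp [vp]

variable {ν : Measure ℝ} {d i η b ε δ x0 ρ Λ lam ζ τ C : ℝ} {h : ℝ → ℝ}

/-- the transform of the power of the radial function -/
noncomputable def GG (ν : Measure ℝ) (i τ : ℝ) (h : ℝ → ℝ) (ζ x : ℝ) : ℝ :=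
  RR ν (ev (gg i τ h ζ)) x

/-- the nonlinear map -/
noncomputable def hn (ν : Measure ℝ) (i τ : ℝ) (h : ℝ → ℝ) (ζ x : ℝ) : ℝ :=
  GG ν i τ h ζ x / GG ν i τ h ζ 0 - 1 + τ * x ^ 2

theorem GG_decomp (hν : Law ν d) (hi : 0 < i) (hc : Continuous h) (hG : Gd (mu τ h) lam)
    (hlam0 : 0 ≤ lam) (hlam : lam ≤ 1 / 4) (h0 : 0 ≤ ζ) (h1 : ζ ≤ 1 / 20) {x : ℝ}
    (hx : x ∈ Icc (0:ℝ) 1) :
    GG ν i τ h ζ x = i * RR ν (ev (kk τ h ζ)) x - i * τ * ((1 - x ^ 2) / d)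
      + RR ν (ev (EE i τ h ζ)) x := by
  have c1 := ev_cont (kk_cont hc hG hlam0 hlam h0 h1)
  have cg := gg_cont hi hG hlam0 hlam h0 h1
  have ck := kk_cont hc hG hlam0 hlam h0 h1
  have c2 : Continuous (ev (EE i τ h ζ)) := by
    apply ev_cont
    unfold EE
    fun_prop
  have c3 : Continuous (ev (fun a => cos a ^ 2)) := ev_cont (by fun_prop)
  rw [← RR_ev_cos hν hx]
  unfold GG RR
  rw [← integral_const_mul, ← integral_const_mul,
    ← integral_sub (hν.integrable' (by fun_prop)) (hν.integrable' (by fun_prop)),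
    ← integral_add (hν.integrable' (by fun_prop)) (hν.integrable' (by fun_prop))]
  congr 1
  funext t
  unfold ev EE
  ring

theorem EE_cont (hi : 0 < i) (hc : Continuous h) (hG : Gd (mu τ h) lam)
    (hlam0 : 0 ≤ lam) (hlam : lam ≤ 1 / 4) (h0 : 0 ≤ ζ) (h1 : ζ ≤ 1 / 20) :
    Continuous (EE i τ h ζ) := by
  have cg := gg_cont hi hG hlam0 hlam h0 h1
  have ck := kk_cont hc hG hlam0 hlam h0 h1
  unfold EE
  fun_prop

theorem gg_one (hi : 0 < i) (hG : Gd (mu τ h) lam) (h1m : ∀ a, |mu τ h a - 1| ≤ lam)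
    (hlam0 : 0 ≤ lam) (hlam : lam ≤ 1 / 4) (h0 : 0 ≤ ζ) (h1 : ζ ≤ 1 / 20)
    (hC0 : 0 < C)
    (hC : ∀ e r r' : ℝ, e ≤ 1 / 2 → |r - 1| ≤ e → |r' - 1| ≤ e →
      |r ^ i - r' ^ i - i * (r - r')| ≤ C * e * |r - r'|) (α : ℝ) :
    |gg i τ h ζ α - 1| ≤ (i + C) * (2 * ζ + lam) := by
  have p1 := rr_one hG h1m h0 h1 α
  unfold gg
  set R := rr (mu τ h) ζ α with hR
  have he0 : 0 ≤ 2 * ζ + lam := by positivity
  have he1 : 2 * ζ + lam ≤ 1 / 2 := by linarith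
  have k1 := hC (2 * ζ + lam) R 1 he1 p1 (by simpa using he0)
  rw [Real.one_rpow] at k1
  have e : R ^ i - 1 = (R ^ i - 1 - i * (R - 1)) + i * (R - 1) := by ring
  rw [e]
  calc _ ≤ |R ^ i - 1 - i * (R - 1)| + |i * (R - 1)| := abs_add_le _ _
    _ = |R ^ i - 1 - i * (R - 1)| + i * |R - 1| := by rw [abs_mul i, abs_of_pos hi]
    _ ≤ C * (2 * ζ + lam) * |R - 1| + i * (2 * ζ + lam) := by gcongr
    _ ≤ C * (2 * ζ + lam) * 1 + i * (2 * ζ + lam) := by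
        gcongr
        linarith
    _ = _ := by ring

theorem GG_one (hν : Law ν d) (hi : 0 < i) (hc : Continuous h) (hG : Gd (mu τ h) lam)
    (h1m : ∀ a, |mu τ h a - 1| ≤ lam)
    (hlam0 : 0 ≤ lam) (hlam : lam ≤ 1 / 4) (h0 : 0 ≤ ζ) (h1 : ζ ≤ 1 / 20)
    (hC0 : 0 < C)
    (hC : ∀ e r r' : ℝ, e ≤ 1 / 2 → |r - 1| ≤ e → |r' - 1| ≤ e →
      |r ^ i - r' ^ i - i * (r - r')| ≤ C * e * |r - r'|) (x : ℝ) :
    |GG ν i τ h ζ x - 1| ≤ (i + C) * (2 * ζ + lam) := by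
  have hprob := hν.prob
  have cg := ev_cont (gg_cont hi hG hlam0 hlam h0 h1)
  have e : GG ν i τ h ζ x - 1 = ∫ t, (ev (gg i τ h ζ) (√(1 - x ^ 2) * |t|) - 1) ∂ν := by
    rw [integral_sub (hν.integrable' (by fun_prop)) (integrable_const _)]
    simp [GG, RR]
  rw [e]
  have h2 : ∀ᵐ t ∂ν, ‖ev (gg i τ h ζ) (√(1 - x ^ 2) * |t|) - 1‖ ≤ (i + C) * (2 * ζ + lam) := by
    apply Filter.Eventually.of_forall
    intro t
    have k1 := gg_one hi hG h1m hlam0 hlam h0 h1 hC0 hC (arccos (√(1 - x ^ 2) * |t|))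
    have k2 := gg_one hi hG h1m hlam0 hlam h0 h1 hC0 hC (π - arccos (√(1 - x ^ 2) * |t|))
    rw [Real.norm_eq_abs]
    unfold ev
    rw [abs_le] at k1 k2 ⊢
    constructor <;> linarith
  have h3 := norm_integral_le_of_norm_le_const h2
  simpa using h3

/-- the main estimate -/
theorem main_est (hν : Law ν d) (hi : 0 < i) (hη : 0 ≤ η) (hb : 1 ≤ b) (hε : 0 < ε)
    (hδ : 0 ≤ δ) (hx0 : 0 ≤ x0) (hx01 : x0 ≤ 1) (hlin : LinHyp ν i η b ε δ x0 ρ)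
    (hΛ : 0 < Λ) (H : Dom η b ε Λ h) (hτd : τ = δ * vp x0 h / (1 + i / d))
    (hG : Gd (mu τ h) lam) (h1m : ∀ a, |mu τ h a - 1| ≤ lam)
    (hlam0 : 0 ≤ lam) (hlam : lam ≤ 1 / 4) (h0 : 0 ≤ ζ) (h1 : ζ ≤ 1 / 20) (hτ : |τ| ≤ lam)
    (hC0 : 0 < C)
    (hC : ∀ e r r' : ℝ, e ≤ 1 / 2 → |r - 1| ≤ e → |r' - 1| ≤ e →
      |r ^ i - r' ^ i - i * (r - r')| ≤ C * e * |r - r'|)
    (hN : 0 < GG ν i τ h ζ 0) {x y : ℝ}
    (hx : x ∈ Icc (0:ℝ) 1) (hy : y ∈ Icc (0:ℝ) 1) :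
    GG ν i τ h ζ 0 * |hn ν i τ h ζ x - hn ν i τ h ζ y| ≤
      (ρ * (Λ * (1 + 11 * AA η b ε * ζ / ε)) + δ * (8 * Λ * AA η b ε * ζ)
        + |GG ν i τ h ζ 0 - 1| * |τ|
        + (C * (2 * ζ + lam) * (2 * lam + 5 * ζ) + 10 * i * ζ) / ε)
        * |WW η b ε x - WW η b ε y| := by
  set N := GG ν i τ h ζ 0 with hNd
  have hb0 : 0 ≤ b := by linarith
  have hA0 : 0 ≤ AA η b ε := by unfold AA; positivity
  have hdpos := hν.dpos
  have hθ : 0 < 1 + i / d := by positivity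
  have hτ2 : (1 + i / d) * τ = δ * vp x0 h := by rw [hτd]; field_simp
  have hck := ev_cont (kk_cont H.cont hG hlam0 hlam h0 h1)
  set k := ev (kk τ h ζ) with hk
  have hΔW : |x ^ 2 - y ^ 2| ≤ |WW η b ε x - WW η b ε y| := by
    rcases le_total y x with hyx | hyx
    · rw [abs_of_nonneg (sq_sub_nn hy.1 hyx)]
      exact (sq_le_WW hη hb0 hε.le hy.1 hyx hx.2).trans (le_abs_self _)
    · rw [abs_sub_comm, abs_sub_comm (WW η b ε x), abs_of_nonneg (sq_sub_nn hx.1 hyx)]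
      exact (sq_le_WW hη hb0 hε.le hx.1 hyx hy.2).trans (le_abs_self _)
  set ΔW := |WW η b ε x - WW η b ε y| with hΔWd
  have hΔW0 : 0 ≤ ΔW := abs_nonneg _
  -- the linear part
  have k1 := hlin.scale (L := Λ * (1 + 11 * AA η b ε * ζ / ε)) (by positivity) hck
    (fun u hu v hv => evk_dom hη hb hε hΛ.le H hG hlam0 hlam h0 h1 hu hv) hx hy
  -- the functional
  have k2 := vp_close (T := x0) H.cont hck hx0 hx01
    (fun y hy => evk_close hη hb hε hΛ.le H hG h0 h1 hy)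
  -- the error
  have k3 := RR_ev_lip hν (EE_cont hi H.cont hG hlam0 hlam h0 h1)
    (EE_lip hi hG h1m hlam0 hlam h0 h1 hτ hC0 hC) hx hy
  have k4 := arccos_le_WW hη hb hε hx hy
  set E0 := C * (2 * ζ + lam) * (2 * lam + 5 * ζ) + 10 * i * ζ with hE0
  have hE0n : 0 ≤ E0 := by positivity
  have k5 : |RR ν (ev (EE i τ h ζ)) x - RR ν (ev (EE i τ h ζ)) y| ≤ E0 / ε * ΔW := by
    refine k3.trans ?_
    calc E0 * |arccos x - arccos y| ≤ E0 * (1 / ε * ΔW) := mul_le_mul_of_nonneg_left k4 hE0n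
      _ = _ := by ring
  have e1 := GG_decomp hν hi H.cont hG hlam0 hlam h0 h1 hx (ν := ν)
  have e2 := GG_decomp hν hi H.cont hG hlam0 hlam h0 h1 hy (ν := ν)
  have hid : N * (hn ν i τ h ζ x - hn ν i τ h ζ y)
      = (i * (RR ν k x - RR ν k y) + δ * vp x0 k * (x ^ 2 - y ^ 2))
        + δ * (vp x0 h - vp x0 k) * (x ^ 2 - y ^ 2) + (N - 1) * τ * (x ^ 2 - y ^ 2)
        + (RR ν (ev (EE i τ h ζ)) x - RR ν (ev (EE i τ h ζ)) y) := by
    have e3 : N * (hn ν i τ h ζ x - hn ν i τ h ζ y)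
        = GG ν i τ h ζ x - GG ν i τ h ζ y + N * τ * (x ^ 2 - y ^ 2) := by
      unfold hn
      rw [← hNd]
      field_simp
      ring
    rw [e3, e1, e2]
    have e4 : δ * vp x0 h = τ + i / d * τ := by rw [← hτ2]; ring
    have e5 : δ * (vp x0 h - vp x0 k) = τ + i / d * τ - δ * vp x0 k := by rw [← e4]; ring
    rw [e5]
    ring
  have e6 : N * |hn ν i τ h ζ x - hn ν i τ h ζ y| = |N * (hn ν i τ h ζ x - hn ν i τ h ζ y)| := by
    rw [abs_mul, abs_of_pos hN]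
  rw [e6, hid]
  have t1 : |δ * (vp x0 h - vp x0 k) * (x ^ 2 - y ^ 2)| ≤ δ * (8 * Λ * AA η b ε * ζ) * ΔW := by
    rw [abs_mul, abs_mul, abs_of_nonneg hδ]
    have : |vp x0 h - vp x0 k| ≤ 8 * Λ * AA η b ε * ζ := by linarith
    gcongr
  have t2 : |(N - 1) * τ * (x ^ 2 - y ^ 2)| ≤ |N - 1| * |τ| * ΔW := by
    rw [abs_mul, abs_mul]
    gcongr
  calc _ ≤ |i * (RR ν k x - RR ν k y) + δ * vp x0 k * (x ^ 2 - y ^ 2)|
        + |δ * (vp x0 h - vp x0 k) * (x ^ 2 - y ^ 2)| + |(N - 1) * τ * (x ^ 2 - y ^ 2)|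
        + |RR ν (ev (EE i τ h ζ)) x - RR ν (ev (EE i τ h ζ)) y| := by
        refine (abs_add_le _ _).trans ?_
        gcongr
        refine (abs_add_le _ _).trans ?_
        gcongr
        exact abs_add_le _ _
    _ ≤ ρ * (Λ * (1 + 11 * AA η b ε * ζ / ε)) * ΔW + δ * (8 * Λ * AA η b ε * ζ) * ΔW
        + |N - 1| * |τ| * ΔW + E0 / ε * ΔW := by gcongr
    _ = _ := by ring

end Pool.Agent.Helper74.Hom
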