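import Mathlib
import Pool.Graph.R_seed8.W143.DQ.Schauder

/-!
A fixed point theorem in a class of functions on `[0, 1]` with increments dominated by the
increments of a fixed weight.
-/

set_option autoImplicit false
set_option linter.unusedVariables false

namespace Pool.Agent.Helper74.Hom

open Real Set MeasureTheory

/-- the class of functions on `[0, 1]` -/
def KSet (W : ℝ → ℝ) (Λ : ℝ) : Set (BoundedContinuousFunction (Icc (0:ℝ) 1) ℝ) :=
  {f | f ⟨0, by simp⟩ = 0 ∧ ∀ x y : Icc (0:ℝ) 1, |f x - f y| ≤ Λ * |W x - W y|}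

theorem KSet_convex (W : ℝ → ℝ) (Λ : ℝ) : Convex ℝ (KSet W Λ) := by
  intro f hf g hg a b ha hb hab
  constructor
  · have h1 := hf.1
    have h2 := hg.1
    show a * f ⟨0, _⟩ + b * g ⟨0, _⟩ = 0
    rw [h1, h2]; ring
  · intro x y
    have h1 := hf.2 x y
    have h2 := hg.2 x y
    have e : (a • f + b • g) x - (a • f + b • g) y = a * (f x - f y) + b * (g x - g y) := by
      simp; ring
    rw [e]
    calc _ ≤ |a * (f x - f y)| + |b * (g x - g y)| := abs_add_le _ _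
      _ = a * |f x - f y| + b * |g x - g y| := by
          rw [abs_mul, abs_mul, abs_of_nonneg ha, abs_of_nonneg hb]
      _ ≤ a * (Λ * |W x - W y|) + b * (Λ * |W x - W y|) := by gcongr
      _ = (a + b) * (Λ * |W x - W y|) := by ring
      _ = _ := by rw [hab, one_mul]

theorem KSet_closed (W : ℝ → ℝ) (Λ : ℝ) : IsClosed (KSet W Λ) := by
  have he : ∀ x : Icc (0:ℝ) 1, Continuous
      (fun f : BoundedContinuousFunction (Icc (0:ℝ) 1) ℝ => f x) := fun x => by fun_prop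
  have e : KSet W Λ = {f | f ⟨0, by simp⟩ = 0} ∩ ⋂ x : Icc (0:ℝ) 1, ⋂ y : Icc (0:ℝ) 1,
      {f | |f x - f y| ≤ Λ * |W x - W y|} := by
    ext f
    rw [mem_inter_iff, mem_iInter]
    simp only [mem_iInter]
    rfl
  rw [e]
  apply IsClosed.inter
  · exact isClosed_eq (he _) continuous_const
  · apply isClosed_iInter
    intro x
    apply isClosed_iInter
    intro y
    exact isClosed_le (((he x).sub (he y)).abs) continuous_const

theorem KSet_compact {W : ℝ → ℝ} (hW : Continuous W) {Λ : ℝ} (hΛ : 0 ≤ Λ) :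
    IsCompact (KSet W Λ) := by
  obtain ⟨M, hM⟩ := (isCompact_Icc (a := (0:ℝ)) (b := 1)).exists_bound_of_continuousOn
    hW.continuousOn
  apply BoundedContinuousFunction.arzela_ascoli₂ (Metric.closedBall 0 (Λ * (M + M)))
    (isCompact_closedBall _ _) _ (KSet_closed W Λ)
  · intro f x hf
    rw [mem_closedBall_zero_iff, Real.norm_eq_abs]
    have h1 := hf.2 x ⟨0, by simp⟩
    rw [hf.1, sub_zero] at h1
    refine h1.trans (mul_le_mul_of_nonneg_left ?_ hΛ)
    have h2 := hM x x.2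
    have h3 := hM 0 (by simp)
    rw [Real.norm_eq_abs] at h2 h3
    exact (abs_sub _ _).trans (add_le_add h2 h3)
  · intro x
    rw [Metric.equicontinuousAt_iff]
    intro ε hε
    have hc : Continuous (fun z : Icc (0:ℝ) 1 => W z) := hW.comp continuous_subtype_val
    have h1 := Metric.continuous_iff.1 hc x (ε / (Λ + 1)) (by positivity)
    obtain ⟨δ, hδ, h2⟩ := h1
    refine ⟨δ, hδ, ?_⟩
    intro y hy f
    have h3 := h2 y hy
    rw [Real.dist_eq] at h3 ⊢
    have h4 := f.2.2 x y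
    rw [abs_sub_comm (W x)] at h4
    calc |(f : BoundedContinuousFunction (Icc (0:ℝ) 1) ℝ) x - (f : BoundedContinuousFunction _ ℝ) y|
        ≤ Λ * |W y - W x| := h4
      _ ≤ (Λ + 1) * |W y - W x| := by
          apply mul_le_mul_of_nonneg_right _ (abs_nonneg _); linarith
      _ < (Λ + 1) * (ε / (Λ + 1)) := by
          apply mul_lt_mul_of_pos_left h3; linarith
      _ = ε := by field_simp

/-- extension of a function on `[0, 1]` to the line -/
noncomputable def ext (f : BoundedContinuousFunction (Icc (0:ℝ) 1) ℝ) : ℝ → ℝ :=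
  IccExtend (zero_le_one' ℝ) f

theorem ext_cont (f : BoundedContinuousFunction (Icc (0:ℝ) 1) ℝ) : Continuous (ext f) :=
  f.continuous.Icc_extend'

theorem ext_apply (f : BoundedContinuousFunction (Icc (0:ℝ) 1) ℝ) {x : ℝ} (hx : x ∈ Icc (0:ℝ) 1) :
    ext f x = f ⟨x, hx⟩ := IccExtend_of_mem _ _ hx

/-- the class of functions, on the line -/
structure DomG (W : ℝ → ℝ) (Λ : ℝ) (h : ℝ → ℝ) : Prop where
  cont : Continuous h
  zero : h 0 = 0
  dom : ∀ x ∈ Icc (0:ℝ) 1, ∀ y ∈ Icc (0:ℝ) 1, |h x - h y| ≤ Λ * |W x - W y|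

theorem ext_dom {W : ℝ → ℝ} {Λ : ℝ} {f : BoundedContinuousFunction (Icc (0:ℝ) 1) ℝ}
    (hf : f ∈ KSet W Λ) : DomG W Λ (ext f) := by
  refine ⟨ext_cont f, ?_, ?_⟩
  · rw [ext_apply f (x := 0) (by simp)]; exact hf.1
  · intro x hx y hy
    rw [ext_apply f hx, ext_apply f hy]
    exact hf.2 ⟨x, hx⟩ ⟨y, hy⟩

theorem cont_of_dom {W : ℝ → ℝ} (hW : Continuous W) {Λ : ℝ} (hΛ : 0 ≤ Λ) {g : ℝ → ℝ}
    (hg : ∀ x ∈ Icc (0:ℝ) 1, ∀ y ∈ Icc (0:ℝ) 1, |g x - g y| ≤ Λ * |W x - W y|) :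
    Continuous (fun x : Icc (0:ℝ) 1 => g x) := by
  rw [Metric.continuous_iff]
  intro x ε hε
  have hc : Continuous (fun z : Icc (0:ℝ) 1 => W z) := hW.comp continuous_subtype_val
  obtain ⟨δ, hδ, h2⟩ := Metric.continuous_iff.1 hc x (ε / (Λ + 1)) (by positivity)
  refine ⟨δ, hδ, ?_⟩
  intro y hy
  have h3 := h2 y hy
  rw [Real.dist_eq] at h3 ⊢
  calc |g y - g x| ≤ Λ * |W y - W x| := hg y y.2 x x.2
    _ ≤ (Λ + 1) * |W y - W x| := by
        apply mul_le_mul_of_nonneg_right _ (abs_nonneg _); linarith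
    _ < (Λ + 1) * (ε / (Λ + 1)) := by
        apply mul_lt_mul_of_pos_left h3; linarith
    _ = ε := by field_simp

/-- fixed points -/
theorem fixed_point {W : ℝ → ℝ} (hW : Continuous W) {Λ : ℝ} (hΛ : 0 ≤ Λ)
    (Φ : (ℝ → ℝ) → ℝ → ℝ) (hz : ∀ h, DomG W Λ h → Φ h 0 = 0)
    (hd : ∀ h, DomG W Λ h → ∀ x ∈ Icc (0:ℝ) 1, ∀ y ∈ Icc (0:ℝ) 1,
      |Φ h x - Φ h y| ≤ Λ * |W x - W y|)
    (L : ℝ) (hL : ∀ h h', DomG W Λ h → DomG W Λ h' → ∀ D : ℝ,
      (∀ x ∈ Icc (0:ℝ) 1, |h x - h' x| ≤ D) → ∀ x ∈ Icc (0:ℝ) 1, |Φ h x - Φ h' x| ≤ L * D) :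
    ∃ h, DomG W Λ h ∧ ∀ x ∈ Icc (0:ℝ) 1, Φ h x = h x := by
  classical
  -- the map
  have hcont : ∀ f ∈ KSet W Λ, Continuous (fun x : Icc (0:ℝ) 1 => Φ (ext f) x) :=
    fun f hf => cont_of_dom hW hΛ (hd _ (ext_dom hf))
  let T : BoundedContinuousFunction (Icc (0:ℝ) 1) ℝ → BoundedContinuousFunction (Icc (0:ℝ) 1) ℝ :=
    fun f => if hf : f ∈ KSet W Λ then
      BoundedContinuousFunction.mkOfCompact ⟨fun x => Φ (ext f) x, hcont f hf⟩ else f
  have hT : ∀ f ∈ KSet W Λ, ∀ x : Icc (0:ℝ) 1, T f x = Φ (ext f) x := by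
    intro f hf x
    simp only [T, dif_pos hf]
    rfl
  have hmaps : ∀ f ∈ KSet W Λ, T f ∈ KSet W Λ := by
    intro f hf
    constructor
    · rw [hT f hf]; exact hz _ (ext_dom hf)
    · intro x y
      rw [hT f hf, hT f hf]
      exact hd _ (ext_dom hf) x x.2 y y.2
  have hTL : ∀ f ∈ KSet W Λ, ∀ g ∈ KSet W Λ, dist (T f) (T g) ≤ |L| * dist f g := by
    intro f hf g hg
    rw [BoundedContinuousFunction.dist_le (by positivity)]
    intro x
    rw [Real.dist_eq, hT f hf, hT g hg]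
    have h1 := hL _ _ (ext_dom hf) (ext_dom hg) (dist f g) (by
      intro z hz
      rw [ext_apply f hz, ext_apply g hz, ← Real.dist_eq]
      exact BoundedContinuousFunction.dist_coe_le_dist _) x x.2
    refine h1.trans ?_
    exact mul_le_mul_of_nonneg_right (le_abs_self L) dist_nonneg
  have hTc : ContinuousOn T (KSet W Λ) := by
    have : LipschitzOnWith (Real.toNNReal |L|) T (KSet W Λ) := by
      apply LipschitzOnWith.of_dist_le_mul
      intro f hf g hg
      rw [Real.coe_toNNReal _ (abs_nonneg L)]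
      exact hTL f hf g hg
    exact this.continuousOn
  have hne : (KSet W Λ).Nonempty := by
    refine ⟨0, ?_, ?_⟩
    · rfl
    · intro x y
      have : 0 ≤ Λ * |W x - W y| := mul_nonneg hΛ (abs_nonneg _)
      simpa using this
  obtain ⟨f, hf, hfix⟩ := Pool.Agent.W143.DQ.schauder (KSet_compact hW hΛ) (KSet_convex W Λ) hne
    T hTc hmaps
  refine ⟨ext f, ext_dom hf, ?_⟩
  intro x hx
  have h1 := hT f hf ⟨x, hx⟩
  rw [hfix] at h1
  rw [ext_apply f hx, h1]

end Pool.Agent.Helper74.Hom
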