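import Mathlib
import Pool.Agent.Helper74.Hom.Inv2
import Pool.Agent.Helper74.Hom.Sch

/-!
The one dimensional fixed point.
-/

set_option autoImplicit false
set_option linter.unusedVariables false

namespace Pool.Agent.Helper74.Hom

open Real Set MeasureTheory

theorem ct1 {M Λ ρ A ζ e : ℝ} (hM1 : 1 ≤ M) (hΛ0 : 0 < Λ) (hΛ1 : Λ ≤ 1) (hρ0 : 0 ≤ ρ) (hρ1 : ρ ≤ 1)
    (hA : 0 ≤ A) (hAM : A ≤ M) (he : 0 < e) (heM : 1 / e ≤ M) (h0 : 0 ≤ ζ) (h1 : ζ ≤ Λ ^ 2) :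
    ρ * (Λ * (1 + 11 * A * ζ / e)) ≤ ρ * Λ + 11 * M ^ 6 * Λ ^ 2 := by
  have hinv : 0 < 1 / e := by positivity
  have hM0 : 0 ≤ M := by linarith
  have e1 : ρ * (Λ * (1 + 11 * A * ζ / e)) = ρ * Λ + ρ * (11 * Λ * A * ζ * (1 / e)) := by ring
  have e2 : ρ * (11 * Λ * A * ζ * (1 / e)) ≤ 1 * (11 * 1 * M * Λ ^ 2 * M) := by gcongr
  have p2 : M ^ 2 ≤ M ^ 6 := pow_le_pow_right₀ hM1 (by norm_num)
  have e4 : 11 * M ^ 2 * Λ ^ 2 ≤ 11 * M ^ 6 * Λ ^ 2 := by gcongr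
  rw [e1]
  linarith

theorem ct2 {M Λ δ A ζ : ℝ} (hM1 : 1 ≤ M) (hΛ0 : 0 < Λ) (hΛ1 : Λ ≤ 1)
    (hA : 0 ≤ A) (hAM : A ≤ M) (hδ : 0 ≤ δ) (hδM : δ ≤ M) (h0 : 0 ≤ ζ) (h1 : ζ ≤ Λ ^ 2) :
    δ * (8 * Λ * A * ζ) ≤ 8 * M ^ 6 * Λ ^ 2 := by
  have hM0 : 0 ≤ M := by linarith
  have p2 : M ^ 2 ≤ M ^ 6 := pow_le_pow_right₀ hM1 (by norm_num)
  calc δ * (8 * Λ * A * ζ) ≤ M * (8 * 1 * M * Λ ^ 2) := by gcongr
    _ = 8 * M ^ 2 * Λ ^ 2 := by ring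
    _ ≤ _ := by gcongr

theorem ct3 {M Λ n t lam : ℝ} (hM1 : 1 ≤ M) (hΛ0 : 0 < Λ) (hn : n ≤ 3 * M ^ 3 * Λ)
    (ht0 : 0 ≤ t) (ht : t ≤ lam) (hlamM : lam ≤ M ^ 2 * Λ) : n * t ≤ 3 * M ^ 6 * Λ ^ 2 := by
  have hM0 : 0 ≤ M := by linarith
  have p5 : M ^ 5 ≤ M ^ 6 := pow_le_pow_right₀ hM1 (by norm_num)
  have h2 : t ≤ M ^ 2 * Λ := ht.trans hlamM
  calc n * t ≤ (3 * M ^ 3 * Λ) * (M ^ 2 * Λ) := by gcongr
    _ = 3 * M ^ 5 * Λ ^ 2 := by ring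
    _ ≤ _ := by gcongr

theorem ct4 {M Λ ζ lam C i e : ℝ} (hM1 : 1 ≤ M) (hΛ0 : 0 < Λ) (hC : 0 < C) (hCM : C ≤ M)
    (hi : 0 < i) (hiM : i ≤ M) (he : 0 < e) (heM : 1 / e ≤ M) (h0 : 0 ≤ ζ) (h1 : ζ ≤ Λ ^ 2)
    (hlam0 : 0 ≤ lam) (he0 : 2 * ζ + lam ≤ 3 * M ^ 2 * Λ)
    (he1 : 2 * lam + 5 * ζ ≤ 7 * (M ^ 2 * Λ)) :
    (C * (2 * ζ + lam) * (2 * lam + 5 * ζ) + 10 * i * ζ) / e ≤ 31 * M ^ 6 * Λ ^ 2 := by
  have hM0 : 0 ≤ M := by linarith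
  have hinv : 0 < 1 / e := by positivity
  have e1 : C * (2 * ζ + lam) * (2 * lam + 5 * ζ) ≤ M * (3 * M ^ 2 * Λ) * (7 * (M ^ 2 * Λ)) := by
    gcongr
  have e2 : 10 * i * ζ ≤ 10 * M * Λ ^ 2 := by gcongr
  have p1 : M ≤ M ^ 5 := by
    calc M = M ^ 1 := (pow_one M).symm
      _ ≤ M ^ 5 := pow_le_pow_right₀ hM1 (by norm_num)
  have e3 : 10 * M * Λ ^ 2 ≤ 10 * M ^ 5 * Λ ^ 2 := by gcongr
  have e5 : M * (3 * M ^ 2 * Λ) * (7 * (M ^ 2 * Λ)) = 21 * M ^ 5 * Λ ^ 2 := by ring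
  have e4 : C * (2 * ζ + lam) * (2 * lam + 5 * ζ) + 10 * i * ζ ≤ 31 * M ^ 5 * Λ ^ 2 := by
    linarith
  have e6 : 0 ≤ C * (2 * ζ + lam) * (2 * lam + 5 * ζ) + 10 * i * ζ := by positivity
  calc _ = (1 / e) * (C * (2 * ζ + lam) * (2 * lam + 5 * ζ) + 10 * i * ζ) := by ring
    _ ≤ M * (31 * M ^ 5 * Λ ^ 2) := mul_le_mul heM e4 e6 hM0
    _ = _ := by ring

theorem ct5 {M Λ N : ℝ} (hM1 : 1 ≤ M) (hΛ0 : 0 < Λ) (hNl : 1 - 3 * M ^ 3 * Λ ≤ N) :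
    Λ - 3 * M ^ 6 * Λ ^ 2 ≤ N * Λ := by
  have hM0 : 0 ≤ M := by linarith
  have p3 : M ^ 3 ≤ M ^ 6 := pow_le_pow_right₀ hM1 (by norm_num)
  have e1 := mul_le_mul_of_nonneg_right hNl hΛ0.le
  have e2 : 3 * M ^ 3 * Λ ^ 2 ≤ 3 * M ^ 6 * Λ ^ 2 := by gcongr
  have e3 : (1 - 3 * M ^ 3 * Λ) * Λ = Λ - 3 * M ^ 3 * Λ ^ 2 := by ring
  rw [e3] at e1
  linarith

/-- powers -/
theorem ct6 {M Λ : ℝ} (hM1 : 1 ≤ M) (hΛ0 : 0 < Λ) (hΛM : Λ * M ^ 6 ≤ 1 / 64) :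
    Λ ≤ 1 / 64 ∧ Λ ^ 2 ≤ Λ ∧ Λ ^ 2 ≤ M ^ 2 * Λ ∧ M ^ 2 * Λ ≤ 1 / 64 ∧ M ^ 3 * Λ ≤ 1 / 64 := by
  have hM16 : 1 ≤ M ^ 6 := one_le_pow₀ hM1
  have p2 : M ^ 2 ≤ M ^ 6 := pow_le_pow_right₀ hM1 (by norm_num)
  have p3 : M ^ 3 ≤ M ^ 6 := pow_le_pow_right₀ hM1 (by norm_num)
  have p12 : 1 ≤ M ^ 2 := one_le_pow₀ hM1
  have hΛ1 : Λ ≤ 1 / 64 := by
    calc Λ = Λ * 1 := (mul_one Λ).symm
      _ ≤ Λ * M ^ 6 := mul_le_mul_of_nonneg_left hM16 hΛ0.le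
      _ ≤ 1 / 64 := hΛM
  have hΛsq : Λ ^ 2 ≤ Λ := by
    calc Λ ^ 2 = Λ * Λ := by ring
      _ ≤ Λ * 1 := mul_le_mul_of_nonneg_left (by linarith) hΛ0.le
      _ = Λ := mul_one Λ
  refine ⟨hΛ1, hΛsq, ?_, ?_, ?_⟩
  · calc Λ ^ 2 ≤ Λ := hΛsq
      _ = 1 * Λ := (one_mul Λ).symm
      _ ≤ M ^ 2 * Λ := mul_le_mul_of_nonneg_right p12 hΛ0.le
  · have := mul_le_mul_of_nonneg_right p2 hΛ0.le
    linarith
  · have := mul_le_mul_of_nonneg_right p3 hΛ0.le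
    linarith

theorem consts {A e δ i C ρ : ℝ} (hA : 0 ≤ A) (he : 0 < e) (hδ : 0 ≤ δ) (hi : 0 < i) (hC : 0 < C)
    (hρ0 : 0 ≤ ρ) (hρ1 : ρ < 1) : ∃ Λ : ℝ, 0 < Λ ∧ ∃ ζ0 : ℝ, 0 < ζ0 ∧ ζ0 ≤ 1 / 20 ∧
      ∀ ζ, 0 ≤ ζ → ζ ≤ ζ0 → Λ * A * (1 + δ) ≤ 1 / 4 ∧
        (i + C) * (2 * ζ + Λ * A * (1 + δ)) ≤ 1 / 2 ∧
        ∀ N τ : ℝ, |N - 1| ≤ (i + C) * (2 * ζ + Λ * A * (1 + δ)) → |τ| ≤ Λ * A * (1 + δ) →
          ρ * (Λ * (1 + 11 * A * ζ / e)) + δ * (8 * Λ * A * ζ) + |N - 1| * |τ|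
            + (C * (2 * ζ + Λ * A * (1 + δ)) * (2 * (Λ * A * (1 + δ)) + 5 * ζ) + 10 * i * ζ) / e
            ≤ N * Λ := by
  obtain ⟨M, hM⟩ : ∃ M : ℝ, M = 1 + A + 1 / e + δ + i + C := ⟨_, rfl⟩
  have hinv : 0 < 1 / e := by positivity
  have hM1 : 1 ≤ M := by rw [hM]; linarith
  have hM0 : 0 ≤ M := by linarith
  have hAM : A ≤ M := by rw [hM]; linarith
  have heM : 1 / e ≤ M := by rw [hM]; linarith
  have hδM : 1 + δ ≤ M := by rw [hM]; linarith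
  have hδM' : δ ≤ M := by linarith
  have hiC : i + C ≤ M := by rw [hM]; linarith
  have hiM : i ≤ M := by linarith
  have hCM : C ≤ M := by linarith
  clear hM
  have hMp : 0 < M ^ 6 := by positivity
  obtain ⟨Λ, hΛ⟩ : ∃ Λ : ℝ, Λ = (1 - ρ) / (64 * M ^ 6) := ⟨_, rfl⟩
  have hΛ0 : 0 < Λ := by rw [hΛ]; exact div_pos (by linarith) (by positivity)
  have hΛM' : 64 * M ^ 6 * Λ = 1 - ρ := by rw [hΛ]; field_simp
  clear hΛ
  have hΛM : Λ * M ^ 6 ≤ 1 / 64 := by linarith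
  obtain ⟨hΛ1, hΛsq, hΛ2, q1, q3⟩ := ct6 hM1 hΛ0 hΛM
  refine ⟨Λ, hΛ0, Λ ^ 2, by positivity, by linarith, ?_⟩
  intro ζ h0 h1
  obtain ⟨lam, hlam⟩ : ∃ lam : ℝ, lam = Λ * A * (1 + δ) := ⟨_, rfl⟩
  rw [← hlam]
  have hlam0 : 0 ≤ lam := by rw [hlam]; positivity
  have hlamM : lam ≤ M ^ 2 * Λ := by
    calc lam = Λ * A * (1 + δ) := hlam
      _ ≤ Λ * M * M := by gcongr
      _ = _ := by ring
  clear hlam
  have hζM : ζ ≤ M ^ 2 * Λ := h1.trans hΛ2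
  have he0 : 2 * ζ + lam ≤ 3 * M ^ 2 * Λ := by linarith
  have he0n : 0 ≤ 2 * ζ + lam := by linarith
  have he1 : 2 * lam + 5 * ζ ≤ 7 * (M ^ 2 * Λ) := by linarith
  have hNe : (i + C) * (2 * ζ + lam) ≤ 3 * M ^ 3 * Λ := by
    calc _ ≤ M * (3 * M ^ 2 * Λ) := mul_le_mul hiC he0 he0n hM0
      _ = _ := by ring
  refine ⟨by linarith, by linarith, ?_⟩
  intro N τ hN hτ
  have hN2 : |N - 1| ≤ 3 * M ^ 3 * Λ := hN.trans hNe
  have hNl : 1 - 3 * M ^ 3 * Λ ≤ N := by linarith [(abs_le.1 hN2).1]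
  have t1 := ct1 hM1 hΛ0 (by linarith) hρ0 hρ1.le hA hAM he heM h0 h1
  have t2 := ct2 hM1 hΛ0 (by linarith) hA hAM hδ hδM' h0 h1
  have t3 := ct3 hM1 hΛ0 hN2 (abs_nonneg τ) hτ hlamM
  have t4 := ct4 hM1 hΛ0 hC hCM hi hiM he heM h0 h1 hlam0 he0 he1
  have t5 := ct5 hM1 hΛ0 hNl
  have t6 : 64 * M ^ 6 * Λ ^ 2 = (1 - ρ) * Λ := by rw [← hΛM']; ring
  have t7 : 0 ≤ M ^ 6 * Λ ^ 2 := by positivity
  linarith

section

variable {ν : Measure ℝ} {d i η b ε δ x0 ρ Λ lam ζ τ τ' C D : ℝ} {h h' : ℝ → ℝ}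

/-- continuity of the nonlinear map -/
theorem hn_est (hν : Law ν d) (hi : 0 < i) (hδ : 0 ≤ δ) (hx0 : 0 ≤ x0) (hx01 : x0 ≤ 1)
    (hc : Continuous h) (hc' : Continuous h')
    (hτd : τ = δ * vp x0 h / (1 + i / d)) (hτd' : τ' = δ * vp x0 h' / (1 + i / d))
    (hG : Gd (mu τ h) lam) (h1m : ∀ a, |mu τ h a - 1| ≤ lam)
    (hG' : Gd (mu τ' h') lam) (h1m' : ∀ a, |mu τ' h' a - 1| ≤ lam)
    (hlam0 : 0 ≤ lam) (hlam : lam ≤ 1 / 4) (h0 : 0 ≤ ζ) (h1 : ζ ≤ 1 / 20)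
    (hC0 : 0 < C)
    (hC : ∀ e r r' : ℝ, e ≤ 1 / 2 → |r - 1| ≤ e → |r' - 1| ≤ e →
      |r ^ i - r' ^ i - i * (r - r')| ≤ C * e * |r - r'|)
    (hN : (i + C) * (2 * ζ + lam) ≤ 1 / 2)
    (hD : ∀ x ∈ Icc (0:ℝ) 1, |h x - h' x| ≤ D) {x : ℝ} (hx : x ∈ Icc (0:ℝ) 1) :
    |hn ν i τ h ζ x - hn ν i τ' h' ζ x| ≤ (36 * (i + C) * (1 + 2 * δ) + 2 * δ) * D := by
  have hprob := hν.prob
  have hD0 : 0 ≤ D := (abs_nonneg _).trans (hD 0 (by simp))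
  have hdpos := hν.dpos
  have hθ : 1 ≤ 1 + i / d := by
    have : 0 ≤ i / d := by positivity
    linarith
  have hττ : |τ - τ'| ≤ 2 * δ * D := by
    rw [hτd, hτd']
    have e : δ * vp x0 h / (1 + i / d) - δ * vp x0 h' / (1 + i / d)
        = δ * (vp x0 h - vp x0 h') / (1 + i / d) := by ring
    rw [e, abs_div, abs_mul, abs_of_nonneg hδ, abs_of_nonneg (by linarith : 0 ≤ 1 + i / d)]
    have h2 := vp_close hc hc' hx0 hx01 hD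
    calc δ * |vp x0 h - vp x0 h'| / (1 + i / d) ≤ δ * |vp x0 h - vp x0 h'| / 1 := by
          gcongr
      _ ≤ δ * (2 * D) / 1 := by gcongr
      _ = _ := by ring
  have hmu : ∀ a, |mu τ h a - mu τ' h' a| ≤ (1 + 2 * δ) * D := by
    intro a
    have e : mu τ h a - mu τ' h' a = (h |cos a| - h' |cos a|) - (τ - τ') * cos a ^ 2 := by
      unfold mu; ring
    rw [e]
    have h2 := hD _ (abs_cos_mem a)
    have h3 : |(τ - τ') * cos a ^ 2| ≤ 2 * δ * D := by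
      rw [abs_mul, abs_pow]
      have : |cos a| ^ 2 ≤ 1 := pow_le_one₀ (abs_nonneg _) (Real.abs_cos_le_one a)
      calc |τ - τ'| * |cos a| ^ 2 ≤ |τ - τ'| * 1 := by gcongr
        _ ≤ _ := by linarith
    calc _ ≤ |h (|cos a|) - h' (|cos a|)| + |(τ - τ') * cos a ^ 2| := abs_sub _ _
      _ ≤ _ := by linarith
  have hrr : ∀ α, |rr (mu τ h) ζ α - rr (mu τ' h') ζ α| ≤ 3 * ((1 + 2 * δ) * D) :=
    fun α => rr_cont_mu hG hG' hlam0 hlam h0 h1 hmu α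
  have hgg : ∀ α, |gg i τ h ζ α - gg i τ' h' ζ α| ≤ (i + C) * (3 * ((1 + 2 * δ) * D)) := by
    intro α
    have p1 := rr_one hG h1m h0 h1 α
    have p2 := rr_one hG' h1m' h0 h1 α
    have he : 2 * ζ + lam ≤ 1 / 2 := by linarith
    have k1 := hC (1 / 2) _ _ le_rfl (p1.trans he) (p2.trans he)
    have k2 := hrr α
    unfold gg
    set R := rr (mu τ h) ζ α
    set R' := rr (mu τ' h') ζ α
    have e : R ^ i - R' ^ i = (R ^ i - R' ^ i - i * (R - R')) + i * (R - R') := by ring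
    rw [e]
    calc _ ≤ |R ^ i - R' ^ i - i * (R - R')| + |i * (R - R')| := abs_add_le _ _
      _ = |R ^ i - R' ^ i - i * (R - R')| + i * |R - R'| := by rw [abs_mul i, abs_of_pos hi]
      _ ≤ C * (1 / 2) * |R - R'| + i * |R - R'| := by gcongr
      _ ≤ (i + C) * |R - R'| := by
          have := mul_nonneg hC0.le (abs_nonneg (R - R'))
          linarith
      _ ≤ _ := by gcongr
  set D2 := (i + C) * (3 * ((1 + 2 * δ) * D)) with hD2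
  have hD20 : 0 ≤ D2 := by positivity
  have hGG : ∀ x, |GG ν i τ h ζ x - GG ν i τ' h' ζ x| ≤ D2 := by
    intro x
    have c1 := ev_cont (gg_cont hi hG hlam0 hlam h0 h1)
    have c2 := ev_cont (gg_cont hi hG' hlam0 hlam h0 h1)
    unfold GG RR
    rw [← integral_sub (hν.integrable' (by fun_prop)) (hν.integrable' (by fun_prop))]
    have h2 : ∀ᵐ t ∂ν, ‖ev (gg i τ h ζ) (√(1 - x ^ 2) * |t|)
        - ev (gg i τ' h' ζ) (√(1 - x ^ 2) * |t|)‖ ≤ D2 := by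
      apply Filter.Eventually.of_forall
      intro t
      have k1 := hgg (arccos (√(1 - x ^ 2) * |t|))
      have k2 := hgg (π - arccos (√(1 - x ^ 2) * |t|))
      rw [Real.norm_eq_abs]
      unfold ev
      rw [abs_le] at k1 k2 ⊢
      constructor <;> linarith
    have h3 := norm_integral_le_of_norm_le_const h2
    simpa using h3
  have hone := fun x => GG_one hν hi hc hG h1m hlam0 hlam h0 h1 hC0 hC x
  have hone' := fun x => GG_one hν hi hc' hG' h1m' hlam0 hlam h0 h1 hC0 hC x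
  set G := GG ν i τ h ζ x with hGd
  set N := GG ν i τ h ζ 0 with hNd
  set G' := GG ν i τ' h' ζ x with hGd'
  set N' := GG ν i τ' h' ζ 0 with hNd'
  have b1 : |N - 1| ≤ 1 / 2 := (hone 0).trans hN
  have b2 : |N' - 1| ≤ 1 / 2 := (hone' 0).trans hN
  have b3 : |G' - 1| ≤ 1 / 2 := (hone' x).trans hN
  have n1 : 1 / 2 ≤ N := by linarith [(abs_le.1 b1).1]
  have n2 : 1 / 2 ≤ N' := by linarith [(abs_le.1 b2).1]
  have n3 : N' ≤ 3 / 2 := by linarith [(abs_le.1 b2).2]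
  have n4 : 1 / 2 ≤ G' := by linarith [(abs_le.1 b3).1]
  have n5 : G' ≤ 3 / 2 := by linarith [(abs_le.1 b3).2]
  have hNN : 1 / 4 ≤ N * N' := by nlinarith
  have hfrac : |G / N - G' / N'| ≤ 12 * D2 := by
    have e : G / N - G' / N' = ((G - G') * N' - G' * (N - N')) / (N * N') := by
      field_simp
      ring
    rw [e, abs_div, abs_of_pos (by linarith : 0 < N * N'), div_le_iff₀ (by linarith)]
    calc |(G - G') * N' - G' * (N - N')| ≤ |(G - G') * N'| + |G' * (N - N')| := abs_sub _ _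
      _ = |G - G'| * N' + G' * |N - N'| := by
          rw [abs_mul, abs_mul, abs_of_nonneg (by linarith : 0 ≤ N'),
            abs_of_nonneg (by linarith : 0 ≤ G')]
      _ ≤ D2 * (3 / 2) + 3 / 2 * D2 := by
          gcongr
          · exact hGG x
          · exact hGG 0
      _ = 12 * D2 * (1 / 4) := by ring
      _ ≤ 12 * D2 * (N * N') := by gcongr
  have e : hn ν i τ h ζ x - hn ν i τ' h' ζ x = (G / N - G' / N') + (τ - τ') * x ^ 2 := by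
    unfold hn
    rw [← hGd, ← hNd, ← hGd', ← hNd']
    ring
  rw [e]
  have hx2 : |x ^ 2| ≤ 1 := by
    rw [abs_pow, abs_of_nonneg hx.1]
    exact pow_le_one₀ hx.1 hx.2
  calc _ ≤ |G / N - G' / N'| + |(τ - τ') * x ^ 2| := abs_add_le _ _
    _ = |G / N - G' / N'| + |τ - τ'| * |x ^ 2| := by rw [abs_mul]
    _ ≤ 12 * D2 + 2 * δ * D * 1 := by gcongr
    _ = _ := by rw [hD2]; ring

end

/-- the one dimensional fixed point -/
theorem one_dim {ν : Measure ℝ} {d i : ℝ} (hν : Law ν d) (hi : 0 < i) (hid : i ≤ d) :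
    ∃ ζ0 : ℝ, 0 < ζ0 ∧ ζ0 ≤ 1 / 20 ∧ ∀ ζ : ℝ, 0 < ζ → ζ ≤ ζ0 →
      ∃ m : ℝ → ℝ, Continuous m ∧ m 0 = 1 ∧ Gd (fun a => m |cos a|) (1 / 4) ∧
        ∃ N : ℝ, 0 < N ∧ ∀ x ∈ Icc (0:ℝ) 1,
          RR ν (ev (fun α => rr (fun a => m |cos a|) ζ α ^ i)) x = N * m x := by
  obtain ⟨η, b, ε, δ, x0, ρ, hη, hb, hε, hδ, hx0, hx01, hρ0, hρ1, hlin⟩ := lin_exists hν hi hid
  obtain ⟨C, hC0, hC⟩ := rpow_lin i
  have hb0 : 0 ≤ b := by linarith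
  have hA0 : 0 ≤ AA η b ε := by unfold AA; positivity
  have hdpos := hν.dpos
  obtain ⟨Λ, hΛ, ζ0, hζ0, hζ1, hall⟩ := consts hA0 hε hδ hi hC0 hρ0 hρ1
  refine ⟨ζ0, hζ0, hζ1, ?_⟩
  intro ζ hζ hζζ
  obtain ⟨c1, c2, c3⟩ := hall ζ hζ.le hζζ
  have h1 : ζ ≤ 1 / 20 := hζζ.trans hζ1
  set lam := Λ * AA η b ε * (1 + δ) with hlam
  have hlam0 : 0 ≤ lam := by positivity
  set T : (ℝ → ℝ) → ℝ := fun h => δ * vp x0 h / (1 + i / d) with hT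
  have hθ : 1 ≤ 1 + i / d := by
    have : 0 ≤ i / d := by positivity
    linarith
  -- facts about the class
  have hcls : ∀ h, DomG (WW η b ε) Λ h → Dom η b ε Λ h := fun h H => ⟨H.cont, H.zero, H.dom⟩
  have hTle : ∀ h, DomG (WW η b ε) Λ h → |T h| ≤ δ * (Λ * AA η b ε) := by
    intro h H
    have h2 : |vp x0 h| ≤ Λ * AA η b ε := by
      unfold vp
      have h3 := intervalIntegral.norm_integral_le_of_norm_le_const (a := (0:ℝ)) (b := x0)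
        (C := Λ * AA η b ε) (f := fun y => h x0 - h y) (fun y hy => by
          rw [uIoc_of_le hx0] at hy
          rw [Real.norm_eq_abs]
          refine (H.dom x0 ⟨hx0, hx01⟩ y ⟨hy.1.le, hy.2.trans hx01⟩).trans ?_
          apply mul_le_mul_of_nonneg_left _ hΛ.le
          have k1 := WW_mono (η := η) (b := b) (ε := ε) hη hb0 hε.le hy.1.le hy.2 hx01
          rw [abs_of_nonneg (by linarith)]
          have k2 := WW_le_AA (η := η) (b := b) (ε := ε) hη hb0 hε.le hx0 hx01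
          have k3 := WW_mono (η := η) (b := b) (ε := ε) hη hb0 hε.le le_rfl hy.1.le (hy.2.trans hx01)
          rw [WW_zero] at k3
          linarith)
      rw [Real.norm_eq_abs, sub_zero, abs_of_nonneg hx0] at h3
      refine h3.trans ?_
      have : 0 ≤ Λ * AA η b ε := by positivity
      nlinarith
    show |δ * vp x0 h / (1 + i / d)| ≤ _
    rw [abs_div, abs_mul, abs_of_nonneg hδ, abs_of_nonneg (by linarith : 0 ≤ 1 + i / d),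
      div_le_iff₀ (by linarith)]
    have h3 : δ * |vp x0 h| ≤ δ * (Λ * AA η b ε) := by gcongr
    have h4 : 0 ≤ δ * (Λ * AA η b ε) := by positivity
    nlinarith
  have hTlam : ∀ h, DomG (WW η b ε) Λ h → |T h| ≤ lam := by
    intro h H
    refine (hTle h H).trans ?_
    have : 0 ≤ Λ * AA η b ε := by positivity
    rw [hlam]; linarith
  have hgd : ∀ h, DomG (WW η b ε) Λ h → Gd (mu (T h) h) lam ∧ ∀ a, |mu (T h) h a - 1| ≤ lam := by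
    intro h H
    apply mu_gd hη hb hε hΛ.le (hcls h H) _ c1
    have := hTle h H
    rw [hlam]; linarith
  have hNle : ∀ h, DomG (WW η b ε) Λ h → |GG ν i (T h) h ζ 0 - 1| ≤ (i + C) * (2 * ζ + lam) := by
    intro h H
    exact GG_one hν hi H.cont (hgd h H).1 (hgd h H).2 hlam0 c1 hζ.le h1 hC0 hC 0
  have hNpos : ∀ h, DomG (WW η b ε) Λ h → 1 / 2 ≤ GG ν i (T h) h ζ 0 := by
    intro h H
    have := (abs_le.1 ((hNle h H).trans c2)).1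
    linarith
  obtain ⟨h, H, hfix⟩ := fixed_point (W := WW η b ε) WW_cont hΛ.le
    (fun h x => hn ν i (T h) h ζ x)
    (by
      intro h H
      have := hNpos h H
      have hne : GG ν i (T h) h ζ 0 ≠ 0 := by linarith
      show GG ν i (T h) h ζ 0 / GG ν i (T h) h ζ 0 - 1 + T h * 0 ^ 2 = 0
      rw [div_self hne]; ring)
    (by
      intro h H x hx y hy
      have hN := hNpos h H
      have hN0 : 0 < GG ν i (T h) h ζ 0 := by linarith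
      have k1 := main_est hν hi hη hb hε hδ hx0 hx01 hlin hΛ (hcls h H) (rfl : T h = _)
        (hgd h H).1 (hgd h H).2 hlam0 c1 hζ.le h1 (hTlam h H) hC0 hC hN0 hx hy
      have k2 := c3 _ (T h) (hNle h H) (hTlam h H)
      have k3 : GG ν i (T h) h ζ 0 * |hn ν i (T h) h ζ x - hn ν i (T h) h ζ y|
          ≤ GG ν i (T h) h ζ 0 * (Λ * |WW η b ε x - WW η b ε y|) := by
        refine k1.trans ?_
        calc _ ≤ GG ν i (T h) h ζ 0 * Λ * |WW η b ε x - WW η b ε y| :=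
              mul_le_mul_of_nonneg_right k2 (abs_nonneg _)
          _ = _ := by ring
      exact le_of_mul_le_mul_left k3 hN0)
    (36 * (i + C) * (1 + 2 * δ) + 2 * δ)
    (by
      intro h h' H H' D hD x hx
      exact hn_est hν hi hδ hx0 hx01 H.cont H'.cont (rfl : T h = _) (rfl : T h' = _)
        (hgd h H).1 (hgd h H).2 (hgd h' H').1 (hgd h' H').2 hlam0 c1 hζ.le h1 hC0 hC c2 hD hx)
  -- the solution
  set m : ℝ → ℝ := fun x => 1 + h x - T h * x ^ 2 with hm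
  have hmc : Continuous m := by
    have := H.cont
    fun_prop
  have hmu : (fun a => m |cos a|) = mu (T h) h := by
    funext a
    simp only [hm, mu, sq_abs]
  refine ⟨m, hmc, ?_, ?_, GG ν i (T h) h ζ 0, by linarith [hNpos h H], ?_⟩
  · simp [hm, H.zero]
  · rw [hmu]
    have hg := (hgd h H).1
    refine ⟨hg.lo, hg.hi, ?_⟩
    intro a c
    exact (hg.lip a c).trans (mul_le_mul_of_nonneg_right c1 (abs_nonneg _))
  · intro x hx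
    rw [hmu]
    have k1 := hfix x hx
    have hN0 : GG ν i (T h) h ζ 0 ≠ 0 := by linarith [hNpos h H]
    have k2 : GG ν i (T h) h ζ x / GG ν i (T h) h ζ 0 = m x := by
      have : hn ν i (T h) h ζ x = h x := k1
      unfold hn at this
      simp only [hm]
      linarith
    rw [div_eq_iff hN0] at k2
    show GG ν i (T h) h ζ x = _
    rw [k2]; ring

end Pool.Agent.Helper74.Hom
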