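import Mathlib

/-!
Rotation invariance of the spherical measure.
-/

set_option autoImplicit false
set_option linter.unusedVariables false

namespace Pool.Agent.Helper74.Hom

open MeasureTheory Set Metric
open scoped Pointwise ENNReal RealInnerProductSpace

section

variable {H H' : Type*} [NormedAddCommGroup H] [InnerProductSpace ℝ H] [FiniteDimensional ℝ H]
  [MeasurableSpace H] [BorelSpace H] [NormedAddCommGroup H'] [InnerProductSpace ℝ H']
  [FiniteDimensional ℝ H'] [MeasurableSpace H'] [BorelSpace H']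

/-- the map induced by an isometry on the unit spheres -/
def sphMap (T : H ≃ₗᵢ[ℝ] H') : sphere (0 : H) 1 ≃ₜ sphere (0 : H') 1 where
  toFun v := ⟨T v, by simp⟩
  invFun v := ⟨T.symm v, by simp⟩
  left_inv v := by ext1; simp
  right_inv v := by ext1; simp
  continuous_toFun := by
    apply Continuous.subtype_mk
    exact T.continuous.comp continuous_subtype_val
  continuous_invFun := by
    apply Continuous.subtype_mk
    exact T.symm.continuous.comp continuous_subtype_val

theorem sphMap_mp (T : H ≃ₗᵢ[ℝ] H') : MeasurePreserving (sphMap T)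
    (volume : Measure H).toSphere (volume : Measure H').toSphere := by
  refine ⟨(sphMap T).continuous.measurable, ?_⟩
  ext s hs
  rw [Measure.map_apply (sphMap T).continuous.measurable hs,
    Measure.toSphere_apply' _ ((sphMap T).continuous.measurable hs),
    Measure.toSphere_apply' _ hs]
  have hfin : Module.finrank ℝ H = Module.finrank ℝ H' := T.toLinearEquiv.finrank_eq
  rw [hfin]
  congr 1
  have hset : Ioo (0:ℝ) 1 • ((↑) '' s : Set H') = T.symm ⁻¹' (Ioo (0:ℝ) 1 • ((↑) '' (sphMap T ⁻¹' s))) := by
    ext y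
    simp only [mem_smul, mem_image, mem_preimage]
    constructor
    · rintro ⟨a, ha, w, ⟨v, hv, rfl⟩, rfl⟩
      refine ⟨a, ha, T.symm v, ⟨(sphMap T).symm v, ?_, rfl⟩, ?_⟩
      · show sphMap T ((sphMap T).symm v) ∈ s
        rw [Homeomorph.apply_symm_apply]; exact hv
      · simp
    · rintro ⟨a, ha, w, ⟨v, hv, rfl⟩, hy⟩
      refine ⟨a, ha, T v, ⟨sphMap T v, hv, rfl⟩, ?_⟩
      have := congrArg T hy
      simpa using this
  rw [hset]
  exact (T.symm.measurePreserving.measure_preimage_equiv (f := T.symm.toHomeomorph.toMeasurableEquiv) _).symm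

theorem sphMap_integral (T : H ≃ₗᵢ[ℝ] H') (G : H' → ℝ) :
    ∫ v : sphere (0 : H) 1, G (T v) ∂(volume : Measure H).toSphere
      = ∫ v : sphere (0 : H') 1, G v ∂(volume : Measure H').toSphere :=
  (sphMap_mp T).integral_comp (sphMap T).measurableEmbedding (fun v => G v)

/-- an isometry that sends a given unit vector to the first basis vector -/
theorem exists_isom {k : ℕ} (hk : Module.finrank ℝ H = k + 1) (w : H) (hw : ‖w‖ = 1) :
    ∃ T : H ≃ₗᵢ[ℝ] EuclideanSpace ℝ (Fin (k + 1)), ∀ v : H, (T v) 0 = ⟪v, w⟫ := by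
  have ho : Orthonormal ℝ (({0} : Set (Fin (k + 1))).domRestrict (fun _ => w)) := by
    rw [orthonormal_iff_ite]
    rintro ⟨i, hi⟩ ⟨j, hj⟩
    simp only [mem_singleton_iff] at hi hj
    subst hi hj
    simp
    left
    exact hw
  obtain ⟨b, hb⟩ := ho.exists_orthonormalBasis_extension_of_card_eq (by simp [hk])
  refine ⟨b.repr, fun v => ?_⟩
  have h0 := hb 0 (by simp)
  rw [b.repr_apply_apply, h0, real_inner_comm]

/-- the distribution of one coordinate does not depend on the space and the direction -/
theorem sphere_inv {k : ℕ} (hk : Module.finrank ℝ H = k + 1) (w : H) (hw : ‖w‖ = 1)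
    (F : ℝ → ℝ) :
    ∫ v : sphere (0 : H) 1, F ⟪(v : H), w⟫ ∂(volume : Measure H).toSphere
      = ∫ v : sphere (0 : EuclideanSpace ℝ (Fin (k + 1))) 1,
          F ((v : EuclideanSpace ℝ (Fin (k + 1))) 0)
          ∂(volume : Measure (EuclideanSpace ℝ (Fin (k + 1)))).toSphere := by
  obtain ⟨T, hT⟩ := exists_isom hk w hw
  rw [← sphMap_integral T (fun v => F (v 0))]
  simp_rw [hT]

end

end Pool.Agent.Helper74.Hom
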