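import Mathlib
import Pool.Agent.Helper74.Hom.Sph
import Pool.Agent.Helper74.Hom.Lin

/-!
The law of one coordinate of a uniform point on the sphere.
-/

set_option autoImplicit false
set_option linter.unusedVariables false

namespace Pool.Agent.Helper74.Hom

open MeasureTheory Set Metric Filter Topology
open scoped Pointwise ENNReal RealInnerProductSpace

/-- spherical measure -/
noncomputable def sig (k : ℕ) : Measure (sphere (0 : EuclideanSpace ℝ (Fin (k + 1))) 1) :=
  (volume : Measure (EuclideanSpace ℝ (Fin (k + 1)))).toSphere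

instance (k : ℕ) : IsFiniteMeasure (sig k) := by unfold sig; infer_instance

instance (k : ℕ) : (sig k).IsOpenPosMeasure := by unfold sig; infer_instance

/-- first coordinate -/
def co (k : ℕ) (v : sphere (0 : EuclideanSpace ℝ (Fin (k + 1))) 1) : ℝ :=
  (v : EuclideanSpace ℝ (Fin (k + 1))) 0

theorem co_cont (k : ℕ) : Continuous (co k) := by
  unfold co
  fun_prop

theorem coord_le (k : ℕ) (v : sphere (0 : EuclideanSpace ℝ (Fin (k + 1))) 1) (j : Fin (k + 1)) :
    |(v : EuclideanSpace ℝ (Fin (k + 1))) j| ≤ 1 := by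
  have h := EuclideanSpace.norm_eq (v : EuclideanSpace ℝ (Fin (k + 1)))
  have hv : ‖(v : EuclideanSpace ℝ (Fin (k + 1)))‖ = 1 := by simp
  rw [hv] at h
  have h2 : ∑ i, ‖(v : EuclideanSpace ℝ (Fin (k + 1))) i‖ ^ 2 = 1 := by
    have := congrArg (· ^ 2) h
    simp only [one_pow] at this
    rw [Real.sq_sqrt (by positivity)] at this
    exact this.symm
  have h3 : ‖(v : EuclideanSpace ℝ (Fin (k + 1))) j‖ ^ 2 ≤ 1 :=
    (Finset.single_le_sum (f := fun i => ‖(v : EuclideanSpace ℝ (Fin (k + 1))) i‖ ^ 2)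
      (fun i _ => by positivity) (Finset.mem_univ j)).trans h2.le
  rw [Real.norm_eq_abs] at h3
  nlinarith [abs_nonneg ((v : EuclideanSpace ℝ (Fin (k + 1))) j)]

theorem sum_sq (k : ℕ) (v : sphere (0 : EuclideanSpace ℝ (Fin (k + 1))) 1) :
    ∑ i, (v : EuclideanSpace ℝ (Fin (k + 1))) i ^ 2 = 1 := by
  have h := EuclideanSpace.norm_eq (v : EuclideanSpace ℝ (Fin (k + 1)))
  have hv : ‖(v : EuclideanSpace ℝ (Fin (k + 1)))‖ = 1 := by simp
  rw [hv] at h
  have := congrArg (· ^ 2) h
  simp only [one_pow] at this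
  rw [Real.sq_sqrt (by positivity)] at this
  calc ∑ i, (v : EuclideanSpace ℝ (Fin (k + 1))) i ^ 2
      = ∑ i, ‖(v : EuclideanSpace ℝ (Fin (k + 1))) i‖ ^ 2 := by simp
    _ = 1 := this.symm

/-- the law of the first coordinate -/
noncomputable def nu (k : ℕ) : Measure ℝ := (sig k univ)⁻¹ • (sig k).map (co k)

theorem sig_ne_zero (k : ℕ) : sig k univ ≠ 0 := by
  have : sig k ≠ 0 := by
    unfold sig
    exact Measure.toSphere_ne_zero _
  intro h
  exact this (Measure.measure_univ_eq_zero.1 h)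

theorem sig_real_pos (k : ℕ) : 0 < (sig k).real univ := by
  unfold Measure.real
  exact ENNReal.toReal_pos (sig_ne_zero k) (measure_ne_top _ _)

theorem nu_int (k : ℕ) {F : ℝ → ℝ} (hF : Continuous F) :
    ∫ t, F t ∂(nu k) = ((sig k).real univ)⁻¹ * ∫ v, F (co k v) ∂(sig k) := by
  unfold nu
  rw [integral_smul_measure, integral_map (co_cont k).measurable.aemeasurable
    hF.aestronglyMeasurable, ENNReal.toReal_inv, smul_eq_mul]
  rfl

theorem nu_prob (k : ℕ) : IsProbabilityMeasure (nu k) := by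
  constructor
  unfold nu
  rw [Measure.smul_apply, Measure.map_apply (co_cont k).measurable MeasurableSet.univ,
    preimage_univ, smul_eq_mul]
  exact ENNReal.inv_mul_cancel (sig_ne_zero k) (measure_ne_top _ _)

theorem nu_supp (k : ℕ) : ∀ᵐ t ∂(nu k), |t| ≤ 1 := by
  have h : ∀ᵐ t ∂((sig k).map (co k)), |t| ≤ 1 := by
    rw [ae_map_iff (p := fun t : ℝ => |t| ≤ 1) (co_cont k).measurable.aemeasurable
      (isClosed_le continuous_abs continuous_const).measurableSet]
    exact Eventually.of_forall (fun v => coord_le k v 0)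
  unfold nu
  exact Measure.ae_smul_measure h _

theorem nu_neg (k : ℕ) : (nu k).map (MeasurableEquiv.neg ℝ) = nu k := by
  unfold nu
  rw [Measure.map_smul]
  congr 1
  rw [Measure.map_map (MeasurableEquiv.neg ℝ).measurable (co_cont k).measurable]
  have h := sphMap_mp (LinearIsometryEquiv.neg ℝ (E := EuclideanSpace ℝ (Fin (k + 1))))
  have e : (⇑(MeasurableEquiv.neg ℝ) ∘ co k)
      = co k ∘ sphMap (LinearIsometryEquiv.neg ℝ (E := EuclideanSpace ℝ (Fin (k + 1)))) := by
    funext v
    simp [co, sphMap]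
  rw [e, ← Measure.map_map (co_cont k).measurable h.measurable]
  congr 1
  exact h.map_eq

theorem nu_symm (k : ℕ) (F : ℝ → ℝ) : ∫ t, F (-t) ∂(nu k) = ∫ t, F t ∂(nu k) := by
  have h : MeasurePreserving (MeasurableEquiv.neg ℝ) (nu k) (nu k) :=
    ⟨(MeasurableEquiv.neg ℝ).measurable, nu_neg k⟩
  exact h.integral_comp' F

theorem int_coord (k : ℕ) (F : ℝ → ℝ) (w : EuclideanSpace ℝ (Fin (k + 1))) (hw : ‖w‖ = 1) :
    ∫ v, F ⟪(v : EuclideanSpace ℝ (Fin (k + 1))), w⟫ ∂(sig k) = ∫ v, F (co k v) ∂(sig k) :=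
  sphere_inv (by simp) w hw F

theorem nu_m2 (k : ℕ) : ∫ t, t ^ 2 ∂(nu k) = 1 / ((k : ℝ) + 1) := by
  rw [nu_int k (by fun_prop)]
  have h : ∀ j : Fin (k + 1), ∫ v : sphere (0 : EuclideanSpace ℝ (Fin (k + 1))) 1,
      (v : EuclideanSpace ℝ (Fin (k + 1))) j ^ 2 ∂(sig k) = ∫ v, (co k v) ^ 2 ∂(sig k) := by
    intro j
    have h1 := int_coord k (fun t => t ^ 2) (EuclideanSpace.single j (1:ℝ)) (by simp)
    rw [← h1]
    congr 1
    funext v
    simp [EuclideanSpace.inner_single_right]
  have hint : ∀ j : Fin (k + 1), Integrable (fun v : sphere (0 : EuclideanSpace ℝ (Fin (k + 1))) 1 =>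
      (v : EuclideanSpace ℝ (Fin (k + 1))) j ^ 2) (sig k) := by
    intro j
    apply Continuous.integrable_of_hasCompactSupport (by fun_prop)
    exact HasCompactSupport.of_compactSpace _
  have hs : ∑ j : Fin (k + 1), ∫ v : sphere (0 : EuclideanSpace ℝ (Fin (k + 1))) 1,
      (v : EuclideanSpace ℝ (Fin (k + 1))) j ^ 2 ∂(sig k) = (sig k).real univ := by
    rw [← integral_finsetSum _ (fun j _ => hint j)]
    simp_rw [sum_sq]
    simp
  simp_rw [h] at hs
  rw [Finset.sum_const, Finset.card_univ, Fintype.card_fin, nsmul_eq_mul] at hs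
  have hp := sig_real_pos k
  rw [← hs] at hp ⊢
  push_cast at hp ⊢
  have hk : (0:ℝ) < (k:ℝ) + 1 := by positivity
  have hI : 0 < ∫ v, (co k v) ^ 2 ∂(sig k) := by
    by_contra hneg
    push Not at hneg
    have := mul_nonpos_of_nonneg_of_nonpos hk.le hneg
    linarith
  field_simp

theorem exists_diag (k : ℕ) (hk : 1 ≤ k) (a b : ℝ) (hab : a ^ 2 + b ^ 2 = 1) :
    ∃ v : sphere (0 : EuclideanSpace ℝ (Fin (k + 1))) 1,
      (v : EuclideanSpace ℝ (Fin (k + 1))) 0 = a ∧
      (v : EuclideanSpace ℝ (Fin (k + 1))) ⟨1, by omega⟩ = b := by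
  have h01 : (0 : Fin (k + 1)) ≠ ⟨1, by omega⟩ := by
    intro h
    have := congrArg Fin.val h
    simp at this
  set w : EuclideanSpace ℝ (Fin (k + 1)) :=
    EuclideanSpace.single 0 a + EuclideanSpace.single ⟨1, by omega⟩ b with hw
  have hn : ‖w‖ = 1 := by
    have h2 : ‖w‖ ^ 2 = 1 := by
      rw [hw, ← real_inner_self_eq_norm_sq, inner_add_left, inner_add_right, inner_add_right]
      simp [EuclideanSpace.inner_single_left, h01, h01.symm]
      nlinarith
    have h3 := norm_nonneg w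
    nlinarith
  refine ⟨⟨w, by simp [hn]⟩, ?_, ?_⟩
  · simp [hw, h01]
  · simp [hw, h01.symm]

theorem nu_m4 (k : ℕ) (hk : 1 ≤ k) :
    ∃ q : ℝ, 0 ≤ q ∧ q < 1 ∧ ∫ t, t ^ 4 ∂(nu k) ≤ q / ((k : ℝ) + 1) := by
  have hk1 : (0:ℝ) < (k:ℝ) + 1 := by positivity
  refine ⟨((k:ℝ) + 1) * ∫ t, t ^ 4 ∂(nu k), ?_, ?_, ?_⟩
  · apply mul_nonneg hk1.le
    apply integral_nonneg
    intro t
    positivity
  · have h1 : ∫ t, t ^ 4 ∂(nu k) < 1 / ((k:ℝ) + 1) := by
      rw [← nu_m2 k, nu_int k (by fun_prop), nu_int k (by fun_prop)]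
      apply mul_lt_mul_of_pos_left _ (inv_pos.2 (sig_real_pos k))
      have hc := co_cont k
      have i1 : Integrable (fun v => co k v ^ 4) (sig k) :=
        Continuous.integrable_of_hasCompactSupport (by fun_prop)
          (HasCompactSupport.of_compactSpace _)
      have i2 : Integrable (fun v => co k v ^ 2) (sig k) :=
        Continuous.integrable_of_hasCompactSupport (by fun_prop)
          (HasCompactSupport.of_compactSpace _)
      have h2 : 0 < ∫ v, (co k v ^ 2 - co k v ^ 4) ∂(sig k) := by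
        rw [integral_pos_iff_support_of_nonneg]
        · have ho : IsOpen (Function.support (fun v => co k v ^ 2 - co k v ^ 4)) :=
            (by fun_prop : Continuous (fun v => co k v ^ 2 - co k v ^ 4)).isOpen_support
          obtain ⟨v, hv, -⟩ := exists_diag k hk (3 / 5) (4 / 5) (by norm_num)
          refine ho.measure_pos (sig k) ⟨v, ?_⟩
          rw [Function.mem_support]
          have : co k v = 3 / 5 := hv
          rw [this]
          norm_num
        · intro v
          have h3 := coord_le k v 0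
          have h4 : co k v ^ 2 ≤ 1 := by
            rw [← sq_abs]
            exact pow_le_one₀ (abs_nonneg _) h3
          show 0 ≤ co k v ^ 2 - co k v ^ 4
          have h5 : co k v ^ 4 = co k v ^ 2 * co k v ^ 2 := by ring
          rw [h5]
          nlinarith [sq_nonneg (co k v)]
        · exact i2.sub i1
      rw [integral_sub i2 i1] at h2
      linarith
    rw [lt_div_iff₀ hk1] at h1
    linarith
  · rw [mul_div_cancel_left₀ _ hk1.ne']

end Pool.Agent.Helper74.Hom
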