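import Mathlib
import Pool.Agent.Helper74.Hom.SphLaw

/-!
The law of one coordinate of a uniform point on the sphere: tails and density.
-/

set_option autoImplicit false
set_option linter.unusedVariables false

namespace Pool.Agent.Helper74.Hom

open MeasureTheory Set Metric Filter Topology
open scoped Pointwise ENNReal RealInnerProductSpace

theorem sig_pole (k : ℕ) (hk : 1 ≤ k) : sig k {v | 1 ≤ |co k v|} = 0 := by
  have hm : MeasurableSet {v | 1 ≤ |co k v|} :=
    (isClosed_le continuous_const (co_cont k).abs).measurableSet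
  unfold sig
  rw [Measure.toSphere_apply' _ hm]
  have hsub : (Ioo (0:ℝ) 1 • ((↑) '' {v | 1 ≤ |co k v|}) : Set (EuclideanSpace ℝ (Fin (k + 1))))
      ⊆ (LinearMap.ker (EuclideanSpace.proj (𝕜 := ℝ) (⟨1, by omega⟩ : Fin (k + 1)) :
        EuclideanSpace ℝ (Fin (k + 1)) →L[ℝ] ℝ).toLinearMap :
          Set (EuclideanSpace ℝ (Fin (k + 1)))) := by
    intro y hy
    simp only [Set.mem_smul, mem_image] at hy
    obtain ⟨a, ha, w, ⟨v, hv, rfl⟩, rfl⟩ := hy
    have h1 := sum_sq k v
    have h2 : 1 ≤ (v : EuclideanSpace ℝ (Fin (k + 1))) 0 ^ 2 := by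
      have hv' : 1 ≤ |(v : EuclideanSpace ℝ (Fin (k + 1))) 0| := hv
      rw [← sq_abs]
      nlinarith
    have h01 : (0 : Fin (k + 1)) ≠ ⟨1, by omega⟩ := by
      intro h
      have := congrArg Fin.val h
      simp at this
    have h3 : (v : EuclideanSpace ℝ (Fin (k + 1))) 0 ^ 2
        + (v : EuclideanSpace ℝ (Fin (k + 1))) ⟨1, by omega⟩ ^ 2 ≤ 1 := by
      have h4 := Finset.sum_le_sum_of_subset_of_nonneg
        (s := ({0, ⟨1, by omega⟩} : Finset (Fin (k + 1)))) (t := Finset.univ)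
        (f := fun i => (v : EuclideanSpace ℝ (Fin (k + 1))) i ^ 2)
        (Finset.subset_univ _) (fun i _ _ => sq_nonneg _)
      rw [Finset.sum_pair h01, h1] at h4
      exact h4
    have h5 : (v : EuclideanSpace ℝ (Fin (k + 1))) ⟨1, by omega⟩ = 0 := by
      nlinarith [sq_nonneg ((v : EuclideanSpace ℝ (Fin (k + 1))) ⟨1, by omega⟩)]
    simp [h5]
  have h0 : (volume : Measure (EuclideanSpace ℝ (Fin (k + 1))))
      (LinearMap.ker (EuclideanSpace.proj (𝕜 := ℝ) (⟨1, by omega⟩ : Fin (k + 1)) :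
        EuclideanSpace ℝ (Fin (k + 1)) →L[ℝ] ℝ).toLinearMap :
          Set (EuclideanSpace ℝ (Fin (k + 1)))) = 0 := by
    apply Measure.addHaar_submodule
    intro htop
    have : (EuclideanSpace.single (⟨1, by omega⟩ : Fin (k + 1)) (1:ℝ)) ∈
      (LinearMap.ker (EuclideanSpace.proj (𝕜 := ℝ) (⟨1, by omega⟩ : Fin (k + 1)) :
        EuclideanSpace ℝ (Fin (k + 1)) →L[ℝ] ℝ).toLinearMap) := by
      rw [htop]; trivial
    simp at this
  rw [measure_mono_null hsub h0, mul_zero]

theorem nu_pole (k : ℕ) (hk : 1 ≤ k) : nu k {t : ℝ | 1 ≤ |t|} = 0 := by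
  unfold nu
  rw [Measure.smul_apply, Measure.map_apply (co_cont k).measurable
    (isClosed_le continuous_const continuous_abs).measurableSet]
  have : co k ⁻¹' {t : ℝ | 1 ≤ |t|} = {v | 1 ≤ |co k v|} := rfl
  rw [this, sig_pole k hk, smul_zero]

theorem nu_tail (k : ℕ) (hk : 1 ≤ k) : ∀ η : ℝ, 0 < η → ∃ s : ℝ, 0 ≤ s ∧ s < 1 ∧
    (nu k).real {t : ℝ | s < |t|} ≤ η := by
  intro η hη
  have hprob := nu_prob k
  set S : ℕ → Set ℝ := fun n => {t : ℝ | 1 - 1 / ((n : ℝ) + 1) < |t|} with hS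
  have hanti : Antitone S := by
    intro a b hab t ht
    simp only [hS, mem_ofPred_eq] at ht ⊢
    have h1 : (a : ℝ) ≤ b := by exact_mod_cast hab
    have h2 : 1 / ((b : ℝ) + 1) ≤ 1 / ((a : ℝ) + 1) :=
      one_div_le_one_div_of_le (by positivity) (by linarith)
    linarith
  have hlim := tendsto_measure_iInter_atTop (μ := nu k) (s := S)
    (fun n => (isOpen_lt continuous_const continuous_abs).measurableSet.nullMeasurableSet)
    hanti ⟨0, measure_ne_top _ _⟩
  have hinter : (⋂ n, S n) = {t : ℝ | 1 ≤ |t|} := by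
    ext t
    simp only [mem_iInter, hS, mem_ofPred_eq]
    constructor
    · intro h
      by_contra hlt
      push Not at hlt
      obtain ⟨n, hn⟩ := exists_nat_one_div_lt (by linarith : 0 < 1 - |t|)
      have := h n
      linarith
    · intro h n
      have : (0:ℝ) < 1 / ((n:ℝ) + 1) := by positivity
      linarith
  rw [hinter, nu_pole k hk] at hlim
  have h1 : ∀ᶠ n in atTop, (nu k) (S n) < ENNReal.ofReal η :=
    hlim.eventually_lt_const (by simpa using hη)
  obtain ⟨n, hn⟩ := h1.exists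
  refine ⟨1 - 1 / ((n : ℝ) + 1), ?_, ?_, ?_⟩
  · have : 1 / ((n : ℝ) + 1) ≤ 1 := by
      rw [div_le_one (by positivity)]
      have : (0:ℝ) ≤ n := by positivity
      linarith
    linarith
  · have : (0:ℝ) < 1 / ((n:ℝ) + 1) := by positivity
    linarith
  · unfold Measure.real
    exact ENNReal.toReal_le_of_le_ofReal hη.le hn.le

/-- the one dimensional integral -/
theorem circle_ge {F : ℝ → ℝ} (hF : Continuous F) (h0 : ∀ t ∈ Icc (0:ℝ) 1, 0 ≤ F t) {a b : ℝ}
    (hab : a ^ 2 + b ^ 2 ≤ 1) (hab2 : 1 / 4 ≤ a ^ 2 + b ^ 2) :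
    ∫ t in (0:ℝ)..(1 / 2), F t ≤
      ∫ θ in (0:ℝ)..(2 * Real.pi), F |a * Real.cos θ + b * Real.sin θ| := by
  have hπ := Real.pi_pos
  set z : ℂ := ⟨a, b⟩ with hz
  set ρ : ℝ := ‖z‖ with hρ
  have hρ2 : ρ ^ 2 = a ^ 2 + b ^ 2 := by
    rw [hρ, ← Complex.normSq_eq_norm_sq, Complex.normSq_apply]
    simp only [hz]; ring
  have hρ0 : 0 ≤ ρ := norm_nonneg _
  have hρ1 : ρ ≤ 1 := by nlinarith
  have hρh : 1 / 2 ≤ ρ := by nlinarith
  have ha : a = ρ * Real.cos (Complex.arg z) := by
    rw [hρ, Complex.norm_mul_cos_arg]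
  have hb : b = ρ * Real.sin (Complex.arg z) := by
    rw [hρ, Complex.norm_mul_sin_arg]
  set φ := Complex.arg z with hφ
  have h1 : ∀ θ, a * Real.cos θ + b * Real.sin θ = ρ * Real.cos (θ - φ) := by
    intro θ
    rw [Real.cos_sub, ha, hb]; ring
  simp_rw [h1]
  set G : ℝ → ℝ := fun θ => F |ρ * Real.cos θ| with hG
  have hGc : Continuous G := by
    simp only [hG]
    fun_prop
  have hper : Function.Periodic G (2 * Real.pi) := by
    intro θ
    simp only [hG, Real.cos_add_two_pi]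
  have h2 : ∫ θ in (0:ℝ)..(2 * Real.pi), F |ρ * Real.cos (θ - φ)|
      = ∫ θ in (0:ℝ)..(2 * Real.pi), G θ := by
    have e1 : ∫ θ in (0:ℝ)..(2 * Real.pi), F |ρ * Real.cos (θ - φ)|
        = ∫ θ in (0 - φ)..(2 * Real.pi - φ), G θ := by
      rw [← intervalIntegral.integral_comp_sub_right (fun θ => G θ) φ]
    have e2 := hper.intervalIntegral_add_eq (0 - φ) 0
    rw [e1]
    have e3 : 2 * Real.pi - φ = 0 - φ + 2 * Real.pi := by ring
    rw [e3, e2, zero_add]
  rw [h2]
  have hG0 : ∀ θ, 0 ≤ G θ := by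
    intro θ
    apply h0
    refine ⟨abs_nonneg _, ?_⟩
    rw [abs_mul, abs_of_nonneg hρ0]
    exact mul_le_one₀ hρ1 (abs_nonneg _) (Real.abs_cos_le_one θ)
  have h3 : ∫ θ in (0:ℝ)..(Real.pi / 2), G θ ≤ ∫ θ in (0:ℝ)..(2 * Real.pi), G θ := by
    apply intervalIntegral.integral_mono_interval le_rfl (by linarith) (by linarith)
    · exact Eventually.of_forall hG0
    · exact hGc.intervalIntegrable _ _
  refine le_trans ?_ h3
  have h4 : ∫ θ in (0:ℝ)..(Real.pi / 2), F (ρ * Real.cos θ) * (ρ * Real.sin θ)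
      ≤ ∫ θ in (0:ℝ)..(Real.pi / 2), G θ := by
    apply intervalIntegral.integral_mono_on (by linarith)
    · exact (by fun_prop : Continuous (fun θ => F (ρ * Real.cos θ) * (ρ * Real.sin θ))).intervalIntegrable _ _
    · exact hGc.intervalIntegrable _ _
    · intro θ hθ
      have hc : 0 ≤ Real.cos θ := Real.cos_nonneg_of_neg_pi_div_two_le_of_le (by linarith [hθ.1]) hθ.2
      have hs : 0 ≤ Real.sin θ := Real.sin_nonneg_of_nonneg_of_le_pi hθ.1 (by linarith [hθ.2])
      have e : G θ = F (ρ * Real.cos θ) := by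
        simp only [hG]
        rw [abs_of_nonneg (mul_nonneg hρ0 hc)]
      have hF0 : 0 ≤ F (ρ * Real.cos θ) :=
        h0 _ ⟨mul_nonneg hρ0 hc, mul_le_one₀ hρ1 hc (Real.cos_le_one θ)⟩
      rw [e]
      have h5 : ρ * Real.sin θ ≤ 1 := mul_le_one₀ hρ1 hs (Real.sin_le_one θ)
      calc _ ≤ F (ρ * Real.cos θ) * 1 := mul_le_mul_of_nonneg_left h5 hF0
        _ = _ := mul_one _
  refine le_trans ?_ h4
  have h5 : ∫ θ in (0:ℝ)..(Real.pi / 2), F (ρ * Real.cos θ) * (ρ * Real.sin θ)
      = ∫ t in (0:ℝ)..ρ, F t := by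
    have h6 := intervalIntegral.integral_comp_mul_deriv (a := 0) (b := Real.pi / 2)
      (f := fun θ => ρ * Real.cos θ) (f' := fun θ => ρ * (-Real.sin θ)) (g := F)
      (fun θ _ => (Real.hasDerivAt_cos θ).const_mul ρ) (by fun_prop) hF
    simp only [Function.comp_def, Real.cos_zero, Real.cos_pi_div_two, mul_one, mul_zero] at h6
    rw [intervalIntegral.integral_symm 0 ρ, ← neg_eq_iff_eq_neg] at h6
    rw [← h6, ← intervalIntegral.integral_neg]
    congr 1
    funext θ
    ring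
  rw [h5]
  apply intervalIntegral.integral_mono_interval le_rfl (by norm_num) hρh
  · filter_upwards [ae_restrict_mem measurableSet_Ioc] with t ht
    exact h0 t ⟨ht.1.le, ht.2.trans hρ1⟩
  · exact hF.intervalIntegrable _ _

theorem nu_dens (k : ℕ) (hk : 1 ≤ k) : ∃ c : ℝ, 0 < c ∧ ∀ F : ℝ → ℝ, Continuous F →
    (∀ t ∈ Icc (0:ℝ) 1, 0 ≤ F t) → c * ∫ t in (0:ℝ)..(1 / 2), F t ≤ ∫ t, F |t| ∂(nu k) := by
  have hπ := Real.pi_pos
  have hS := sig_real_pos k
  -- the set where the first two coordinates are not small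
  set U : Set (sphere (0 : EuclideanSpace ℝ (Fin (k + 1))) 1) :=
    {v | 1 / 4 < (v : EuclideanSpace ℝ (Fin (k + 1))) 0 ^ 2
      + (v : EuclideanSpace ℝ (Fin (k + 1))) ⟨1, by omega⟩ ^ 2} with hU
  have hUo : IsOpen U := isOpen_lt continuous_const (by fun_prop)
  have hUpos : 0 < (sig k).real U := by
    unfold Measure.real
    apply ENNReal.toReal_pos _ (measure_ne_top _ _)
    apply (hUo.measure_pos (sig k) _).ne'
    obtain ⟨v, hv0, hv1⟩ := exists_diag k hk (3 / 5) (4 / 5) (by norm_num)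
    refine ⟨v, ?_⟩
    simp only [hU, mem_ofPred_eq]
    rw [hv0, hv1]
    norm_num
  refine ⟨(sig k).real U / ((sig k).real univ * (2 * Real.pi)), by positivity, ?_⟩
  intro F hF h0
  have h01 : (0 : Fin (k + 1)) ≠ ⟨1, by omega⟩ := by
    intro h
    have := congrArg Fin.val h
    simp at this
  set J := ∫ t in (0:ℝ)..(1 / 2), F t with hJ
  have hJ0 : 0 ≤ J := by
    apply intervalIntegral.integral_nonneg (by norm_num)
    intro t ht
    exact h0 t ⟨ht.1, by linarith [ht.2]⟩
  set I := ∫ v, F |co k v| ∂(sig k) with hI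
  have hrot : ∀ θ : ℝ, ∫ v : sphere (0 : EuclideanSpace ℝ (Fin (k + 1))) 1,
      F |(v : EuclideanSpace ℝ (Fin (k + 1))) 0 * Real.cos θ
        + (v : EuclideanSpace ℝ (Fin (k + 1))) ⟨1, by omega⟩ * Real.sin θ| ∂(sig k) = I := by
    intro θ
    set w : EuclideanSpace ℝ (Fin (k + 1)) :=
      EuclideanSpace.single 0 (Real.cos θ)
        + EuclideanSpace.single ⟨1, by omega⟩ (Real.sin θ) with hw
    have hn : ‖w‖ = 1 := by
      have h2 : ‖w‖ ^ 2 = 1 := by
        rw [hw, ← real_inner_self_eq_norm_sq, inner_add_left, inner_add_right, inner_add_right]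
        simp [EuclideanSpace.inner_single_left, h01, h01.symm]
      have h3 := norm_nonneg w
      nlinarith
    have h2 := int_coord k (fun t => F |t|) w hn
    rw [hI, ← h2]
    congr 1
    funext v
    congr 2
    rw [hw, inner_add_right, EuclideanSpace.inner_single_right, EuclideanSpace.inner_single_right]
    simp
    ring
  -- Fubini
  have hcont : Continuous (fun p : ℝ × sphere (0 : EuclideanSpace ℝ (Fin (k + 1))) 1 =>
      F |(p.2 : EuclideanSpace ℝ (Fin (k + 1))) 0 * Real.cos p.1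
        + (p.2 : EuclideanSpace ℝ (Fin (k + 1))) ⟨1, by omega⟩ * Real.sin p.1|) := by
    fun_prop
  have hfub : ∫ θ in (0:ℝ)..(2 * Real.pi), (∫ v : sphere (0 : EuclideanSpace ℝ (Fin (k + 1))) 1,
      F |(v : EuclideanSpace ℝ (Fin (k + 1))) 0 * Real.cos θ
        + (v : EuclideanSpace ℝ (Fin (k + 1))) ⟨1, by omega⟩ * Real.sin θ| ∂(sig k))
      = ∫ v : sphere (0 : EuclideanSpace ℝ (Fin (k + 1))) 1, (∫ θ in (0:ℝ)..(2 * Real.pi),
      F |(v : EuclideanSpace ℝ (Fin (k + 1))) 0 * Real.cos θ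
        + (v : EuclideanSpace ℝ (Fin (k + 1))) ⟨1, by omega⟩ * Real.sin θ|) ∂(sig k) := by
    apply intervalIntegral_integral_swap
    obtain ⟨C, hC⟩ := (isCompact_Icc (a := (0:ℝ)) (b := 1)).exists_bound_of_continuousOn
      hF.continuousOn
    have hbd : ∀ p : ℝ × sphere (0 : EuclideanSpace ℝ (Fin (k + 1))) 1,
        ‖F |(p.2 : EuclideanSpace ℝ (Fin (k + 1))) 0 * Real.cos p.1
        + (p.2 : EuclideanSpace ℝ (Fin (k + 1))) ⟨1, by omega⟩ * Real.sin p.1|‖ ≤ C := by
      intro p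
      apply hC
      refine ⟨abs_nonneg _, ?_⟩
      have h1 := sum_sq k p.2
      have h4 := Finset.sum_le_sum_of_subset_of_nonneg
        (s := ({0, ⟨1, by omega⟩} : Finset (Fin (k + 1)))) (t := Finset.univ)
        (f := fun i => (p.2 : EuclideanSpace ℝ (Fin (k + 1))) i ^ 2)
        (Finset.subset_univ _) (fun i _ _ => sq_nonneg _)
      rw [Finset.sum_pair h01, h1] at h4
      have h5 := Real.sin_sq_add_cos_sq p.1
      have h6 : ((p.2 : EuclideanSpace ℝ (Fin (k + 1))) 0 * Real.cos p.1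
        + (p.2 : EuclideanSpace ℝ (Fin (k + 1))) ⟨1, by omega⟩ * Real.sin p.1) ^ 2 ≤ 1 := by
        nlinarith [sq_nonneg ((p.2 : EuclideanSpace ℝ (Fin (k + 1))) 0 * Real.sin p.1
          - (p.2 : EuclideanSpace ℝ (Fin (k + 1))) ⟨1, by omega⟩ * Real.cos p.1)]
      rw [← sq_abs] at h6
      nlinarith [abs_nonneg ((p.2 : EuclideanSpace ℝ (Fin (k + 1))) 0 * Real.cos p.1
        + (p.2 : EuclideanSpace ℝ (Fin (k + 1))) ⟨1, by omega⟩ * Real.sin p.1)]
    have : IsFiniteMeasure (volume.restrict (uIoc (0:ℝ) (2 * Real.pi))) :=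
      ⟨by rw [Measure.restrict_apply_univ, uIoc]; exact measure_Ioc_lt_top⟩
    exact Integrable.of_bound hcont.aestronglyMeasurable C (Eventually.of_forall hbd)
  simp_rw [hrot] at hfub
  rw [intervalIntegral.integral_const, sub_zero, smul_eq_mul] at hfub
  -- lower bound
  have hlow : (sig k).real U * J ≤ 2 * Real.pi * I := by
    rw [hfub]
    have hic : Continuous (fun v : sphere (0 : EuclideanSpace ℝ (Fin (k + 1))) 1 =>
      ∫ θ in (0:ℝ)..(2 * Real.pi), F |(v : EuclideanSpace ℝ (Fin (k + 1))) 0 * Real.cos θ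
        + (v : EuclideanSpace ℝ (Fin (k + 1))) ⟨1, by omega⟩ * Real.sin θ|) := by
      apply intervalIntegral.continuous_parametric_intervalIntegral_of_continuous'
      exact hcont.comp (continuous_snd.prodMk continuous_fst)
    have hint := Continuous.integrable_of_hasCompactSupport (μ := sig k) hic
      (HasCompactSupport.of_compactSpace _)
    have h1 : (sig k).real U * J = ∫ v, U.indicator (fun _ => J) v ∂(sig k) := by
      rw [integral_indicator_const _ hUo.measurableSet, smul_eq_mul]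
    rw [h1]
    apply integral_mono ((integrable_const J).indicator hUo.measurableSet) hint
    intro v
    have hs1 := sum_sq k v
    have h4 := Finset.sum_le_sum_of_subset_of_nonneg
      (s := ({0, ⟨1, by omega⟩} : Finset (Fin (k + 1)))) (t := Finset.univ)
      (f := fun i => (v : EuclideanSpace ℝ (Fin (k + 1))) i ^ 2)
      (Finset.subset_univ _) (fun i _ _ => sq_nonneg _)
    rw [Finset.sum_pair h01, hs1] at h4
    by_cases hv : v ∈ U
    · rw [indicator_of_mem hv]
      exact circle_ge hF h0 h4 (le_of_lt hv)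
    · rw [indicator_of_notMem hv]
      apply intervalIntegral.integral_nonneg (by positivity)
      intro θ _
      apply h0
      refine ⟨abs_nonneg _, ?_⟩
      have h5 := Real.sin_sq_add_cos_sq θ
      have h6 : ((v : EuclideanSpace ℝ (Fin (k + 1))) 0 * Real.cos θ
        + (v : EuclideanSpace ℝ (Fin (k + 1))) ⟨1, by omega⟩ * Real.sin θ) ^ 2 ≤ 1 := by
        nlinarith [sq_nonneg ((v : EuclideanSpace ℝ (Fin (k + 1))) 0 * Real.sin θ
          - (v : EuclideanSpace ℝ (Fin (k + 1))) ⟨1, by omega⟩ * Real.cos θ)]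
      rw [← sq_abs] at h6
      nlinarith [abs_nonneg ((v : EuclideanSpace ℝ (Fin (k + 1))) 0 * Real.cos θ
        + (v : EuclideanSpace ℝ (Fin (k + 1))) ⟨1, by omega⟩ * Real.sin θ)]
  rw [nu_int k (F := fun t => F |t|) (by fun_prop), ← hI, div_mul_eq_mul_div,
    div_le_iff₀ (by positivity)]
  calc (sig k).real U * J ≤ 2 * Real.pi * I := hlow
    _ = ((sig k).real univ)⁻¹ * I * ((sig k).real univ * (2 * Real.pi)) := by
        field_simp

/-- the law of one coordinate satisfies all requirements -/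
theorem nu_law (k : ℕ) (hk : 1 ≤ k) : Law (nu k) ((k : ℝ) + 1) where
  prob := nu_prob k
  supp := nu_supp k
  symm := nu_symm k
  dpos := by positivity
  m2 := nu_m2 k
  m4 := nu_m4 k hk
  tail := nu_tail k hk
  dens := nu_dens k hk

end Pool.Agent.Helper74.Hom
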