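import Mathlib
import Pool.Agent.Helper74.Hom.Geo1
import Pool.Agent.Helper74.Hom.OneDim
import Pool.Agent.Helper74.Hom.SphLaw2

/-!
The bodies.
-/

set_option autoImplicit false
set_option linter.unusedVariables false
set_option linter.unusedSectionVars false

namespace Pool.Agent.Helper74.Hom

open MeasureTheory Set Metric
open scoped Pointwise ENNReal RealInnerProductSpace

section Defs

variable {E : Type*} [NormedAddCommGroup E] [InnerProductSpace ℝ E]

/-- The radial function `ρ_L(u) = sup {c ≥ 0 : c u ∈ L}`. -/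
noncomputable def radial (L : Set E) (u : E) : ℝ := sSup {c : ℝ | 0 ≤ c ∧ c • u ∈ L}

/-- A star body. -/
structure IsStarBody (L : Set E) : Prop where
  compact : IsCompact L
  zero_mem : (0 : E) ∈ L
  star : StarConvex ℝ 0 L
  cont : ContinuousOn (radial L) (sphere (0 : E) 1)

/-- The hyperplane `u^⊥`. -/
noncomputable def hyperplane (u : E) : Submodule ℝ E := (Submodule.span ℝ {u})ᗮ

variable [FiniteDimensional ℝ E] [MeasurableSpace E] [BorelSpace E]

/-- The spherical Lebesgue measure on the unit sphere of the hyperplane `u^⊥`. -/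
noncomputable def sphereMeasure (u : E) : Measure (sphere (0 : hyperplane u) 1) :=
  (volume : Measure (hyperplane u)).toSphere

/-- The radial function of the intersection body of order `i`. -/
noncomputable def orderRadial (i : ℝ) (L : Set E) (u : E) : ℝ :=
  1 / ((Module.finrank ℝ E : ℝ) - 1) *
    ∫ v, (radial L ((v : hyperplane u) : E)) ^ i ∂(sphereMeasure u)

/-- The intersection body of order `i`. -/
def intersectionBody (i : ℝ) (L : Set E) : Set E :=
  {x | ∃ u ∈ sphere (0 : E) 1, ∃ c : ℝ, 0 ≤ c ∧ c ≤ orderRadial i L u ∧ x = c • u}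

end Defs

section

variable {E : Type*} [NormedAddCommGroup E] [InnerProductSpace ℝ E]

/-- the set with radial function `g ⟪·, e⟫` -/
def starOf (g : ℝ → ℝ) (e : E) : Set E := {p | ‖p‖ ≤ g (⟪p, e⟫ / ‖p‖)}

theorem smul_mem_starOf {g : ℝ → ℝ} (hg : ∀ t, 0 ≤ g t) {e v : E} (hv : ‖v‖ = 1) {c : ℝ}
    (hc : 0 ≤ c) : c • v ∈ starOf g e ↔ c ≤ g ⟪v, e⟫ := by
  unfold starOf
  simp only [mem_ofPred_eq]
  rcases hc.eq_or_lt with h | h
  · rw [← h, zero_smul, norm_zero]
    constructor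
    · intro _; exact hg _
    · intro _; exact hg _
  · rw [norm_smul, hv, mul_one, Real.norm_of_nonneg hc, real_inner_smul_left,
      mul_div_cancel_left₀ _ h.ne']

theorem radial_starOf {g : ℝ → ℝ} (hg : ∀ t, 0 ≤ g t) {e v : E} (hv : ‖v‖ = 1) :
    radial (starOf g e) v = g ⟪v, e⟫ := by
  unfold radial
  have : {c : ℝ | 0 ≤ c ∧ c • v ∈ starOf g e} = Icc 0 (g ⟪v, e⟫) := by
    ext c
    simp only [mem_ofPred_eq, mem_Icc]
    constructor
    · rintro ⟨h1, h2⟩
      exact ⟨h1, (smul_mem_starOf hg hv h1).1 h2⟩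
    · rintro ⟨h1, h2⟩
      exact ⟨h1, (smul_mem_starOf hg hv h1).2 h2⟩
  rw [this]
  exact csSup_Icc (hg _)

variable [FiniteDimensional ℝ E]

theorem starOf_star {g : ℝ → ℝ} (hg : ∀ t, 0 < g t) (hc : Continuous g) {e : E} (he : ‖e‖ = 1) :
    IsStarBody (starOf g e) := by
  have hg0 : ∀ t, 0 ≤ g t := fun t => (hg t).le
  refine ⟨?_, ?_, ?_, ?_⟩
  · have himg : starOf g e = (fun q : ℝ × E => (q.1 * g ⟪q.2, e⟫) • q.2) ''
        (Icc (0:ℝ) 1 ×ˢ sphere (0 : E) 1) := by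
      ext p
      simp only [mem_image, mem_prod, Prod.exists, mem_sphere_zero_iff_norm]
      constructor
      · intro hp
        by_cases h : p = 0
        · refine ⟨0, e, ⟨by simp, he⟩, ?_⟩
          simp [h]
        · have hn : 0 < ‖p‖ := norm_pos_iff.2 h
          have hp' : ‖p‖ ≤ g (⟪p, e⟫ / ‖p‖) := hp
          have hi : ⟪‖p‖⁻¹ • p, e⟫ = ⟪p, e⟫ / ‖p‖ := by
            rw [real_inner_smul_left]; ring
          refine ⟨‖p‖ / g (⟪p, e⟫ / ‖p‖), ‖p‖⁻¹ • p, ⟨⟨by have := hg (⟪p, e⟫ / ‖p‖); positivity, ?_⟩, ?_⟩, ?_⟩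
          · rw [div_le_one (hg _)]; exact hp'
          · rw [norm_smul, norm_inv, norm_norm, inv_mul_cancel₀ hn.ne']
          · rw [hi, div_mul_cancel₀ _ (hg _).ne', smul_smul, mul_inv_cancel₀ hn.ne', one_smul]
      · rintro ⟨s, v, ⟨hs, hv⟩, rfl⟩
        rw [smul_mem_starOf hg0 hv (mul_nonneg hs.1 (hg0 _))]
        have := hg0 ⟪v, e⟫
        nlinarith [hs.1, hs.2]
    rw [himg]
    apply (isCompact_Icc.prod (isCompact_sphere _ _)).image
    fun_prop
  · show ‖(0 : E)‖ ≤ g (⟪(0 : E), e⟫ / ‖(0 : E)‖)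
    rw [norm_zero]; exact hg0 _
  · rw [starConvex_zero_iff]
    intro p hp a ha0 ha1
    by_cases h : p = 0
    · rw [h, smul_zero]
      rw [h] at hp; exact hp
    · have hn : 0 < ‖p‖ := norm_pos_iff.2 h
      have hp' : ‖p‖ ≤ g (⟪p, e⟫ / ‖p‖) := hp
      rcases ha0.eq_or_lt with h0 | h0
      · rw [← h0, zero_smul]
        show ‖(0 : E)‖ ≤ g (⟪(0 : E), e⟫ / ‖(0 : E)‖)
        rw [norm_zero]; exact hg0 _
      · show ‖a • p‖ ≤ g (⟪a • p, e⟫ / ‖a • p‖)
        rw [norm_smul, Real.norm_of_nonneg ha0, real_inner_smul_left,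
          mul_div_mul_left _ _ h0.ne']
        nlinarith
  · have h1 : ContinuousOn (fun v : E => g ⟪v, e⟫) (sphere (0 : E) 1) :=
      (by fun_prop : Continuous (fun v : E => g ⟪v, e⟫)).continuousOn
    apply h1.congr
    intro v hv
    exact radial_starOf hg0 (by simpa using hv)

/-- the translation -/
theorem mem_trans {m : ℝ → ℝ} {ζ : ℝ} (hG : Gd (fun a => m |Real.cos a|) (1 / 4)) (h0 : 0 ≤ ζ)
    (h1 : ζ ≤ 1 / 20) {e : E} (he : ‖e‖ = 1) (p : E) :
    p ∈ starOf (fun t => rr (fun a => m |Real.cos a|) ζ (Real.arccos t)) e ↔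
      ‖p - ζ • e‖ ≤ m (|⟪p - ζ • e, e⟫| / ‖p - ζ • e‖) := by
  have hee : ⟪e, e⟫ = 1 := by rw [real_inner_self_eq_norm_sq, he]; norm_num
  set c := ‖p‖ with hc
  have hc0 : 0 ≤ c := norm_nonneg p
  set α := Real.arccos (⟪p, e⟫ / ‖p‖) with hα
  have hle : |⟪p, e⟫| ≤ ‖p‖ := by
    have := abs_real_inner_le_norm p e
    rwa [he, mul_one] at this
  have habs : |⟪p, e⟫ / ‖p‖| ≤ 1 := by
    rw [abs_div, abs_norm]
    exact div_le_one_of_le₀ hle (norm_nonneg _)
  have hcα : c * Real.cos α = ⟪p, e⟫ := by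
    rw [hα, Real.cos_arccos (abs_le.1 habs).1 (abs_le.1 habs).2]
    by_cases h : p = 0
    · simp [h, hc]
    · have : c ≠ 0 := by rw [hc]; exact norm_ne_zero_iff.2 h
      rw [← hc]; field_simp
  have hD : ‖p - ζ • e‖ ^ 2 = c ^ 2 - 2 * c * ζ * Real.cos α + ζ ^ 2 := by
    rw [norm_sub_sq_real, norm_smul, he, mul_one, real_inner_smul_right, Real.norm_of_nonneg h0,
      ← hcα, ← hc]
    ring
  have hin : ⟪p - ζ • e, e⟫ = c * Real.cos α - ζ := by
    rw [inner_sub_left, real_inner_smul_left, hee, hcα]; ring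
  have key := trans_iff hG h0 h1 hc0 ⟨Real.arccos_nonneg _, Real.arccos_le_pi _⟩
    (norm_nonneg (p - ζ • e)) hD
  rw [hin]
  exact key.symm

end

section

variable {E : Type*} [NormedAddCommGroup E] [InnerProductSpace ℝ E] [FiniteDimensional ℝ E]
  [MeasurableSpace E] [BorelSpace E]

theorem perp_mem {u : E} (v : hyperplane u) : ⟪(v : E), u⟫ = 0 :=
  Submodule.mem_orthogonal_singleton_iff_inner_left.1 v.2

theorem finrank_hyper {k : ℕ} (hk : Module.finrank ℝ E = k + 2) {u : E} (hu : ‖u‖ = 1) :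
    Module.finrank ℝ (hyperplane u) = k + 1 := by
  have hne : u ≠ 0 := by intro h; rw [h] at hu; simp at hu
  have h1 := Submodule.finrank_add_finrank_orthogonal (Submodule.span ℝ {u})
  rw [finrank_span_singleton hne, hk] at h1
  unfold hyperplane
  omega

theorem exists_dir {k : ℕ} (hk : Module.finrank ℝ E = k + 2) {u e : E} (hu : ‖u‖ = 1)
    (he : ‖e‖ = 1) : ∃ w : hyperplane u, ‖w‖ = 1 ∧
      ∀ v : hyperplane u, ⟪(v : E), e⟫ = √(1 - ⟪u, e⟫ ^ 2) * ⟪v, w⟫ := by
  have hfr := finrank_hyper hk hu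
  have huu : ⟪u, u⟫ = 1 := by rw [real_inner_self_eq_norm_sq, hu]; norm_num
  set p : E := e - ⟪u, e⟫ • u with hp
  have hpm : p ∈ hyperplane u := by
    unfold hyperplane
    rw [Submodule.mem_orthogonal_singleton_iff_inner_left, hp, inner_sub_left,
      real_inner_smul_left, huu, real_inner_comm]
    ring
  have hpn : ‖p‖ ^ 2 = 1 - ⟪u, e⟫ ^ 2 := by
    rw [hp, norm_sub_sq_real, norm_smul, he, hu, real_inner_smul_right, real_inner_comm u e,
      Real.norm_eq_abs, mul_one, sq_abs]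
    rw [real_inner_comm]
    ring
  have hpn' : √(1 - ⟪u, e⟫ ^ 2) = ‖p‖ := by rw [← hpn, Real.sqrt_sq (norm_nonneg _)]
  have hve : ∀ v : hyperplane u, ⟪(v : E), e⟫ = ⟪(v : E), p⟫ := by
    intro v
    rw [hp, inner_sub_right, real_inner_smul_right, perp_mem v]; ring
  rw [hpn']
  by_cases h : p = 0
  · have hnt : Nontrivial (hyperplane u) := Module.nontrivial_of_finrank_pos (R := ℝ) (by omega)
    obtain ⟨w, hw⟩ := exists_norm_eq (hyperplane u) (zero_le_one' ℝ)
    refine ⟨w, hw, fun v => ?_⟩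
    rw [hve v, h]; simp
  · have hn : ‖p‖ ≠ 0 := norm_ne_zero_iff.2 h
    refine ⟨‖p‖⁻¹ • (⟨p, hpm⟩ : hyperplane u), ?_, fun v => ?_⟩
    · rw [norm_smul, norm_inv, norm_norm]
      show ‖p‖⁻¹ * ‖p‖ = 1
      exact inv_mul_cancel₀ hn
    · rw [hve v, real_inner_smul_right]
      show ⟪(v : E), p⟫ = ‖p‖ * (‖p‖⁻¹ * ⟪(v : E), p⟫)
      rw [← mul_assoc, mul_inv_cancel₀ hn, one_mul]

/-- symmetrisation -/
theorem nu_ev (k : ℕ) {φ : ℝ → ℝ} (hφ : Continuous φ) {x : ℝ} (hx : 0 ≤ √(1 - x ^ 2)) :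
    ∫ t, φ (Real.arccos (√(1 - x ^ 2) * t)) ∂(nu k) = RR (nu k) (ev φ) x := by
  have hprob := nu_prob k
  set c := √(1 - x ^ 2) with hc
  have hcc := Real.continuous_arccos
  have hi : ∀ s : ℝ, Integrable (fun t => φ (Real.arccos (s * t))) (nu k) := by
    intro s
    obtain ⟨C, hC⟩ := (isCompact_Icc (a := (0:ℝ)) (b := Real.pi)).exists_bound_of_continuousOn
      hφ.continuousOn
    refine Integrable.of_bound (hφ.comp (hcc.comp (by fun_prop))).aestronglyMeasurable C ?_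
    exact Filter.Eventually.of_forall (fun t => hC _ ⟨Real.arccos_nonneg _, Real.arccos_le_pi _⟩)
  have h1 : ∫ t, φ (Real.arccos (c * t)) ∂(nu k) = ∫ t, φ (Real.arccos (-c * t)) ∂(nu k) := by
    rw [← nu_symm k (fun t => φ (Real.arccos (c * t)))]
    congr 1
    funext t
    congr 2
    ring
  have h2 : RR (nu k) (ev φ) x
      = ∫ t, (φ (Real.arccos (c * t)) + φ (Real.arccos (-c * t))) / 2 ∂(nu k) := by
    unfold RR
    rw [← hc]
    congr 1
    funext t
    unfold ev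
    rcases le_total 0 t with ht | ht
    · rw [abs_of_nonneg ht, ← Real.arccos_neg]
      congr 3
      ring_nf
    · rw [abs_of_nonpos ht, ← Real.arccos_neg, add_comm]
      congr 3
      · ring_nf
      · ring_nf
  rw [h2, integral_div, integral_add (hi _) (hi _), ← h1]
  ring

/-- the intersection body of order `i` of the set with radial function `g ⟪·, e⟫` -/
theorem orderRadial_starOf {k : ℕ} (hk : Module.finrank ℝ E = k + 2) {i : ℝ} (hi : 0 < i)
    {φ : ℝ → ℝ} (hφ : Continuous φ) (hφ0 : ∀ t, 0 < φ t) {e u : E} (he : ‖e‖ = 1)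
    (hu : ‖u‖ = 1) :
    orderRadial i (starOf (fun t => φ (Real.arccos t)) e) u
      = 1 / ((k : ℝ) + 1) * ((sig k).real univ * RR (nu k) (ev (fun a => φ a ^ i)) |⟪u, e⟫|) := by
  have hfr := finrank_hyper hk hu
  obtain ⟨w, hw, hvw⟩ := exists_dir hk hu he
  unfold orderRadial
  have e1 : (Module.finrank ℝ E : ℝ) - 1 = (k : ℝ) + 1 := by rw [hk]; push_cast; ring
  rw [e1]
  congr 1
  have hrad : ∀ v : sphere (0 : hyperplane u) 1,
      radial (starOf (fun t => φ (Real.arccos t)) e) ((v : hyperplane u) : E) ^ i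
        = (fun t => φ (Real.arccos (√(1 - ⟪u, e⟫ ^ 2) * t)) ^ i) ⟪(v : hyperplane u), w⟫ := by
    intro v
    have hv : ‖((v : hyperplane u) : E)‖ = 1 := by
      have := mem_sphere_zero_iff_norm.1 v.2
      exact this
    rw [radial_starOf (fun t => (hφ0 _).le) hv]
    simp only
    rw [hvw]
  simp_rw [hrad]
  unfold sphereMeasure
  have h1 := sphere_inv hfr w hw (fun t => φ (Real.arccos (√(1 - ⟪u, e⟫ ^ 2) * t)) ^ i)
  rw [h1]
  have hcc := Real.continuous_arccos
  have hφi : Continuous (fun a => φ a ^ i) := hφ.rpow_const (fun x => Or.inl (hφ0 x).ne')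
  have hcont : Continuous (fun t => φ (Real.arccos (√(1 - ⟪u, e⟫ ^ 2) * t)) ^ i) :=
    hφi.comp (hcc.comp (by fun_prop))
  have h2 := nu_int k hcont
  have h3 := nu_ev k hφi (x := |⟪u, e⟫|) (Real.sqrt_nonneg _)
  rw [sq_abs] at h3
  rw [← h3, h2]
  have hp := sig_real_pos k
  rw [← mul_assoc, mul_inv_cancel₀ hp.ne', one_mul]
  rfl

end

end Pool.Agent.Helper74.Hom
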