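import Mathlib
import Pool.Agent.Helper74.Hom.Geo2

/-!
The bodies: the main theorem.
-/

set_option autoImplicit false
set_option linter.unusedVariables false
set_option linter.unusedSectionVars false

namespace Pool.Agent.Helper74.Hom

open MeasureTheory Set Metric
open scoped Pointwise ENNReal RealInnerProductSpace

theorem rr_cont' {μ : ℝ → ℝ} {lam ζ : ℝ} (hG : Gd μ lam) (hlam0 : 0 ≤ lam) (hlam : lam ≤ 1 / 4)
    (h0 : 0 ≤ ζ) (h1 : ζ ≤ 1 / 20) : Continuous (rr μ ζ) := by
  have hom : Continuous (om μ ζ) := by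
    have : LipschitzWith (Real.toNNReal (7 * ζ)) (om μ ζ) := by
      apply LipschitzWith.of_dist_le_mul
      intro a c
      rw [Real.dist_eq, Real.dist_eq, Real.coe_toNNReal _ (by positivity)]
      exact om_lip hG hlam0 hlam h0 h1 a c
    exact this.continuous
  have hc := hG.cont
  unfold rr
  fun_prop

/-- the equation for the radial function fails for a constant -/
theorem nonconst {k : ℕ} {i ζ : ℝ} (hi : 0 < i) (h0 : 0 < ζ) (h1 : ζ ≤ 1 / 20) {m : ℝ → ℝ}
    (hG : Gd (fun a => m |Real.cos a|) (1 / 4)) (hm : ∀ x ∈ Icc (0:ℝ) 1, m x = 1)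
    (hk : 1 ≤ k)
    (heq : RR (nu k) (ev (fun α => rr (fun a => m |Real.cos a|) ζ α ^ i)) 0
      = RR (nu k) (ev (fun α => rr (fun a => m |Real.cos a|) ζ α ^ i)) 1) : False := by
  have hprob := nu_prob k
  have hlaw := nu_law k hk
  have hμ : (fun a => m |Real.cos a|) = fun _ => (1:ℝ) := by
    funext a
    exact hm _ ⟨abs_nonneg _, Real.abs_cos_le_one a⟩
  rw [hμ] at heq hG
  set μ : ℝ → ℝ := fun _ => (1:ℝ) with hμd
  set ω : ℝ → ℝ := om μ ζ with hω
  have hs : ∀ a, Real.sin (ω a) = ζ * Real.sin a := by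
    intro a
    have := om_eq hG h0.le h1 a
    simpa [hμd, hω] using this
  have hmem : ∀ a, ω a ∈ Icc (-(1 / 2) : ℝ) (1 / 2) := fun a => om_mem hG h0.le h1 a
  have hsym : ∀ a, ω (Real.pi - a) = ω a := by
    intro a
    have h2 := abs_le_two_sin (hmem (Real.pi - a)) (hmem a)
    rw [hs, hs, Real.sin_pi_sub, sub_self, abs_zero, mul_zero] at h2
    exact sub_eq_zero.1 (abs_eq_zero.1 (le_antisymm h2 (abs_nonneg _)))
  have hrr : ∀ a, rr μ ζ a = ζ * Real.cos a + Real.cos (ω a) := by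
    intro a
    simp [rr, hμd, hω]
  have hrr' : ∀ a, rr μ ζ (Real.pi - a) = -(ζ * Real.cos a) + Real.cos (ω a) := by
    intro a
    rw [hrr, hsym, Real.cos_pi_sub]; ring
  have hprod : ∀ a, rr μ ζ a * rr μ ζ (Real.pi - a) = 1 - ζ ^ 2 := by
    intro a
    rw [hrr, hrr']
    have e1 := Real.sin_sq_add_cos_sq (ω a)
    have e2 := Real.sin_sq_add_cos_sq a
    rw [hs] at e1
    linear_combination e1 - ζ ^ 2 * e2
  have hpos : ∀ a, 0 < rr μ ζ a := fun a => by linarith [rr_lower hG h0.le h1 a]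
  set P : ℝ := rr μ ζ (Real.pi / 2) with hP
  have hPP : P * P = 1 - ζ ^ 2 := by
    have := hprod (Real.pi / 2)
    have e : Real.pi - Real.pi / 2 = Real.pi / 2 := by ring
    rwa [e] at this
  have hPpos : 0 < P := hpos _
  set ψ : ℝ → ℝ := fun α => rr μ ζ α ^ i with hψ
  have hψc : Continuous ψ :=
    (rr_cont' hG (by norm_num) le_rfl h0.le h1).rpow_const (fun x => Or.inl (hpos x).ne')
  have hψψ : ∀ a, ψ a * ψ (Real.pi - a) = (P ^ i) ^ 2 := by
    intro a
    simp only [hψ]
    rw [← Real.mul_rpow (hpos _).le (hpos _).le, hprod, ← hPP, Real.mul_rpow hPpos.le hPpos.le]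
    ring
  have hPi : 0 < P ^ i := Real.rpow_pos_of_pos hPpos i
  have hψpos : ∀ a, 0 < ψ a := fun a => Real.rpow_pos_of_pos (hpos a) i
  have hge : ∀ a, P ^ i ≤ (ψ a + ψ (Real.pi - a)) / 2 := by
    intro a
    have h2 := hψψ a
    have h3 := hψpos a
    have h4 := hψpos (Real.pi - a)
    nlinarith [sq_nonneg (ψ a - ψ (Real.pi - a))]
  have heqi : ∀ a, P ^ i = (ψ a + ψ (Real.pi - a)) / 2 → Real.cos a = 0 := by
    intro a h
    have h2 := hψψ a
    rw [h] at h2
    have h5 : (ψ a - ψ (Real.pi - a)) ^ 2 = 0 := by nlinarith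
    have h6 : ψ a = ψ (Real.pi - a) := by
      have := pow_eq_zero_iff (two_ne_zero) |>.1 h5
      linarith
    have h7 : rr μ ζ a = rr μ ζ (Real.pi - a) := by
      simp only [hψ] at h6
      exact (Real.rpow_left_inj (hpos _).le (hpos _).le hi.ne').1 h6
    rw [hrr, hrr'] at h7
    have h8 : ζ * Real.cos a = 0 := by linarith
    rcases mul_eq_zero.1 h8 with h9 | h9
    · linarith
    · exact h9
  -- the two values
  have hR1 : RR (nu k) (ev ψ) 1 = P ^ i := by
    unfold RR
    have : ∀ t : ℝ, ev ψ (√(1 - 1 ^ 2) * |t|) = P ^ i := by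
      intro t
      have e0 : √(1 - (1:ℝ) ^ 2) = 0 := by norm_num
      rw [e0, zero_mul]
      unfold ev
      rw [Real.arccos_zero]
      have e : Real.pi - Real.pi / 2 = Real.pi / 2 := by ring
      rw [e]
      simp only [hψ, ← hP]
      ring
    simp_rw [this]
    simp
  have hR0 : RR (nu k) (ev ψ) 0 = ∫ t, ev ψ |t| ∂(nu k) := by
    unfold RR
    congr 1
    funext t
    norm_num
  rw [hR1, hR0] at heq
  have hint : Integrable (fun t => ev ψ |t|) (nu k) := by
    have := ev_cont hψc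
    exact hlaw.integrable' (by fun_prop)
  have hz : ∫ t, (ev ψ |t| - P ^ i) ∂(nu k) = 0 := by
    rw [integral_sub hint (integrable_const _), heq]
    simp
  have hint2 : Integrable (fun t => ev ψ |t| - P ^ i) (nu k) := hint.sub (integrable_const _)
  rw [integral_eq_zero_iff_of_nonneg (fun t => by
    show 0 ≤ ev ψ |t| - P ^ i
    have := hge (Real.arccos |t|)
    unfold ev
    linarith) hint2] at hz
  have hae : ∀ᵐ t ∂(nu k), t ^ 2 = 0 := by
    filter_upwards [hz, hlaw.supp] with t ht hts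
    have h2 : ev ψ |t| - P ^ i = 0 := ht
    have h3 : P ^ i = (ψ (Real.arccos |t|) + ψ (Real.pi - Real.arccos |t|)) / 2 := by
      unfold ev at h2; linarith
    have h4 := heqi _ h3
    rw [Real.cos_arccos (by linarith [abs_nonneg t]) hts] at h4
    rw [← sq_abs, h4]; norm_num
  have h5 : ∫ t, t ^ 2 ∂(nu k) = 0 := integral_eq_zero_of_ae hae
  rw [hlaw.m2] at h5
  have h6 := hlaw.dpos
  have : 0 < 1 / ((k:ℝ) + 1) := by positivity
  linarith

section

variable {E : Type*} [NormedAddCommGroup E] [InnerProductSpace ℝ E] [FiniteDimensional ℝ E]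
  [MeasurableSpace E] [BorelSpace E]

/-- a unit vector with a given height -/
theorem exists_height {k : ℕ} (hk : Module.finrank ℝ E = k + 2) {e : E} (he : ‖e‖ = 1) {x : ℝ}
    (hx : x ∈ Icc (0:ℝ) 1) : ∃ v : E, ‖v‖ = 1 ∧ ⟪v, e⟫ = x := by
  have hfr := finrank_hyper hk he
  have hnt : Nontrivial (hyperplane e) := Module.nontrivial_of_finrank_pos (R := ℝ) (by omega)
  obtain ⟨w, hw⟩ := exists_norm_eq (hyperplane e) (zero_le_one' ℝ)
  have hwE : ‖(w : E)‖ = 1 := hw
  have hwe : ⟪(w : E), e⟫ = 0 := perp_mem w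
  have hee : ⟪e, e⟫ = 1 := by rw [real_inner_self_eq_norm_sq, he]; norm_num
  refine ⟨x • e + √(1 - x ^ 2) • (w : E), ?_, ?_⟩
  · have h2 : ‖x • e + √(1 - x ^ 2) • (w : E)‖ ^ 2 = 1 := by
      rw [norm_add_sq_real, norm_smul, norm_smul, he, hwE, real_inner_smul_left,
        real_inner_smul_right, real_inner_comm, hwe]
      have := (sqrt_fact hx.1 hx.2).2.2
      rw [Real.norm_eq_abs, Real.norm_eq_abs, mul_one, mul_one, sq_abs, sq_abs, this]
      ring
    have h3 := norm_nonneg (x • e + √(1 - x ^ 2) • (w : E))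
    nlinarith
  · rw [inner_add_left, real_inner_smul_left, real_inner_smul_left, hee, hwe]
    ring

/-- the main theorem -/
theorem main {k : ℕ} (hk1 : 1 ≤ k) (hk : Module.finrank ℝ E = k + 2) {i : ℝ} (hi : 0 < i)
    (hik : i ≤ (k : ℝ) + 1) : ∃ ζ0 : ℝ, 0 < ζ0 ∧ ∀ z : E, z ≠ 0 → ‖z‖ ≤ ζ0 →
      ∃ (L : Set E) (r : ℝ), IsStarBody L ∧ (0 : E) ∈ interior L ∧ 0 < r ∧
        intersectionBody i L = (fun y => r • (y - z)) '' L ∧
        (∀ y, y ∈ L ↔ (2 : ℝ) • z - y ∈ L) ∧
        ∀ (c : E) (R : ℝ), L ≠ closedBall c R := by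
  obtain ⟨ζ0, hζ0, hζ1, hall⟩ := one_dim (nu_law k hk1) hi hik
  refine ⟨ζ0, hζ0, ?_⟩
  intro z hz hzn
  set ζ : ℝ := ‖z‖ with hζ
  have h0 : 0 < ζ := norm_pos_iff.2 hz
  have h1 : ζ ≤ 1 / 20 := hzn.trans hζ1
  obtain ⟨m, hmc, hm0, hG, N, hN, hfix⟩ := hall ζ h0 hzn
  set e : E := ζ⁻¹ • z with hed
  have he : ‖e‖ = 1 := by
    rw [hed, norm_smul, norm_inv, Real.norm_of_nonneg h0.le, ← hζ, inv_mul_cancel₀ h0.ne']
  have hze : ζ • e = z := by rw [hed, smul_smul, mul_inv_cancel₀ h0.ne', one_smul]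
  set φ : ℝ → ℝ := rr (fun a => m |Real.cos a|) ζ with hφ
  have hφc : Continuous φ := rr_cont' hG (by norm_num) le_rfl h0.le h1
  have hφ0 : ∀ a, 0 < φ a := fun a => by linarith [rr_lower hG h0.le h1 a]
  have hgc : Continuous (fun t => φ (Real.arccos t)) := hφc.comp Real.continuous_arccos
  set L : Set E := starOf (fun t => φ (Real.arccos t)) e with hL
  have hmpos : ∀ x ∈ Icc (0:ℝ) 1, 1 / 2 ≤ m x := by
    intro x hx
    have : 1 / 2 ≤ m |Real.cos (Real.arccos x)| := hG.lo (Real.arccos x)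
    rwa [Real.cos_arccos (by linarith [hx.1]) hx.2, abs_of_nonneg hx.1] at this
  -- the translate
  have htr : ∀ p : E, p ∈ L ↔ ‖p - z‖ ≤ m (|⟪p - z, e⟫| / ‖p - z‖) := by
    intro p
    have := mem_trans hG h0.le h1 he p
    rw [hze] at this
    exact this
  have hratio : ∀ q : E, |⟪q, e⟫| / ‖q‖ ∈ Icc (0:ℝ) 1 := by
    intro q
    refine ⟨by positivity, ?_⟩
    apply div_le_one_of_le₀ _ (norm_nonneg _)
    have := abs_real_inner_le_norm q e
    rwa [he, mul_one] at this
  set C0 : ℝ := 1 / ((k : ℝ) + 1) * ((sig k).real univ * N) with hC0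
  have hC0p : 0 < C0 := by
    have := sig_real_pos k
    positivity
  have hord : ∀ u : E, ‖u‖ = 1 → orderRadial i L u = C0 * m |⟪u, e⟫| := by
    intro u hu
    rw [hL, orderRadial_starOf hk hi hφc hφ0 he hu]
    have hx : |⟪u, e⟫| ∈ Icc (0:ℝ) 1 := by
      refine ⟨abs_nonneg _, ?_⟩
      have := abs_real_inner_le_norm u e
      rwa [he, hu, mul_one] at this
    rw [hφ, hfix _ hx, hC0]
    ring
  have hIB : intersectionBody i L = {x | ‖x‖ ≤ C0 * m (|⟪x, e⟫| / ‖x‖)} := by
    ext x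
    unfold intersectionBody
    simp only [mem_ofPred_eq, mem_sphere_zero_iff_norm]
    constructor
    · rintro ⟨u, hu, c, hc0, hc, rfl⟩
      rw [hord u hu] at hc
      rcases hc0.eq_or_lt with h | h
      · rw [← h, zero_smul, norm_zero]
        have := hmpos _ (hratio (0 : E))
        rw [norm_zero] at this
        positivity
      · rw [norm_smul, hu, mul_one, Real.norm_of_nonneg hc0, real_inner_smul_left, abs_mul,
          abs_of_pos h, mul_div_cancel_left₀ _ h.ne']
        exact hc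
    · intro hx
      by_cases hx0 : x = 0
      · refine ⟨e, he, 0, le_rfl, ?_, by simp [hx0]⟩
        rw [hord e he]
        have : |⟪e, e⟫| ∈ Icc (0:ℝ) 1 := by
          rw [real_inner_self_eq_norm_sq, he]; norm_num
        have := hmpos _ this
        positivity
      · have hn : 0 < ‖x‖ := norm_pos_iff.2 hx0
        refine ⟨‖x‖⁻¹ • x, ?_, ‖x‖, hn.le, ?_, ?_⟩
        · rw [norm_smul, norm_inv, norm_norm, inv_mul_cancel₀ hn.ne']
        · rw [hord _ (by rw [norm_smul, norm_inv, norm_norm, inv_mul_cancel₀ hn.ne'])]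
          rw [real_inner_smul_left, abs_mul, abs_inv, abs_norm, ← div_eq_inv_mul]
          exact hx
        · rw [smul_smul, mul_inv_cancel₀ hn.ne', one_smul]
  have hint : (0 : E) ∈ interior L := by
    rw [mem_interior]
    refine ⟨ball 0 (1 / 4), ?_, isOpen_ball, by simp⟩
    intro p hp
    rw [mem_ball_zero_iff] at hp
    show ‖p‖ ≤ φ (Real.arccos (⟪p, e⟫ / ‖p‖))
    have := rr_lower hG h0.le h1 (Real.arccos (⟪p, e⟫ / ‖p‖))
    linarith
  refine ⟨L, C0, starOf_star (fun t => hφ0 _) hgc he, hint, hC0p, ?_, ?_, ?_⟩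
  · rw [hIB]
    ext x
    simp only [mem_ofPred_eq, mem_image]
    have hkey : ‖x‖ ≤ C0 * m (|⟪x, e⟫| / ‖x‖) ↔ z + C0⁻¹ • x ∈ L := by
      rw [htr, add_sub_cancel_left, norm_smul, real_inner_smul_left, abs_mul, norm_inv,
        Real.norm_of_nonneg hC0p.le, abs_of_pos (inv_pos.2 hC0p),
        mul_div_mul_left _ _ (inv_pos.2 hC0p).ne', inv_mul_le_iff₀ hC0p]
    rw [hkey]
    constructor
    · intro h
      refine ⟨z + C0⁻¹ • x, h, ?_⟩
      rw [add_sub_cancel_left, smul_smul, mul_inv_cancel₀ hC0p.ne', one_smul]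
    · rintro ⟨y, hy, rfl⟩
      rw [smul_smul, inv_mul_cancel₀ hC0p.ne', one_smul, add_sub_cancel]
      exact hy
  · intro y
    rw [htr, htr]
    have e1 : (2 : ℝ) • z - y - z = -(y - z) := by rw [two_smul]; abel
    rw [e1, norm_neg, inner_neg_left, abs_neg]
  · intro c R hball
    have h0L : (0 : E) ∈ L := (starOf_star (fun t => hφ0 _) hgc he).zero_mem
    have hR : 0 ≤ R := by
      rw [hball] at h0L
      exact dist_nonneg.trans (mem_closedBall.1 h0L)
    -- the centre
    have hsymm : ∀ y, y ∈ L → (2 : ℝ) • z - y ∈ L := by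
      intro y hy
      rw [htr] at hy ⊢
      have e1 : (2 : ℝ) • z - y - z = -(y - z) := by rw [two_smul]; abel
      rwa [e1, norm_neg, inner_neg_left, abs_neg]
    have hcz : c = z := by
      by_contra hne
      have hb : c - z ≠ 0 := sub_ne_zero.2 hne
      have hbn : 0 < ‖c - z‖ := norm_pos_iff.2 hb
      have hy : c + (R / ‖c - z‖) • (c - z) ∈ L := by
        rw [hball, mem_closedBall, dist_eq_norm, add_sub_cancel_left, norm_smul,
          Real.norm_of_nonneg (by positivity), div_mul_cancel₀ _ hbn.ne']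
      have hy2 := hsymm _ hy
      rw [hball, mem_closedBall, dist_eq_norm] at hy2
      have e2 : (2 : ℝ) • z - (c + (R / ‖c - z‖) • (c - z)) - c
          = -((2 + R / ‖c - z‖) • (c - z)) := by
        rw [add_smul, two_smul, two_smul]; abel
      rw [e2, norm_neg, norm_smul, Real.norm_of_nonneg (by positivity), add_mul,
        div_mul_cancel₀ _ hbn.ne'] at hy2
      linarith
    -- the radial function is constant
    have hmR : ∀ x ∈ Icc (0:ℝ) 1, m x = R := by
      intro x hx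
      obtain ⟨v, hv, hvx⟩ := exists_height hk he hx
      have hmem : ∀ c : ℝ, 0 < c → (z + c • v ∈ L ↔ c ≤ m x) := by
        intro c hc
        rw [htr, add_sub_cancel_left, norm_smul, hv, mul_one, Real.norm_of_nonneg hc.le,
          real_inner_smul_left, abs_mul, abs_of_pos hc, mul_div_cancel_left₀ _ hc.ne', hvx,
          abs_of_nonneg hx.1]
      have hmem2 : ∀ c : ℝ, 0 < c → (z + c • v ∈ L ↔ c ≤ R) := by
        intro c hc
        rw [hball, hcz, mem_closedBall, dist_eq_norm, add_sub_cancel_left, norm_smul, hv, mul_one,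
          Real.norm_of_nonneg hc.le]
      have hmx := hmpos x hx
      apply le_antisymm
      · exact (hmem2 (m x) (by linarith)).1 ((hmem (m x) (by linarith)).2 le_rfl)
      · rcases hR.eq_or_lt with h | h
        · rw [← h]; linarith
        · exact (hmem R h).1 ((hmem2 R h).2 le_rfl)
    have hR1 : R = 1 := by
      rw [← hmR 0 (by simp), hm0]
    rw [hR1] at hmR
    apply nonconst hi h0 h1 hG hmR hk1
    rw [hfix 0 (by simp), hfix 1 (by simp), hmR 0 (by simp), hmR 1 (by simp)]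

end

end Pool.Agent.Helper74.Hom
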