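import Mathlib
import Pool.Agent.Helper74.Hom.Geo3

/-!
Scaling: solutions with any prescribed centre.
-/

set_option autoImplicit false
set_option linter.unusedVariables false
set_option linter.unusedSectionVars false

namespace Pool.Agent.Helper74.Hom

open MeasureTheory Set Metric
open scoped Pointwise ENNReal RealInnerProductSpace

section

variable {E : Type*} [NormedAddCommGroup E] [InnerProductSpace ℝ E] [FiniteDimensional ℝ E]
  [MeasurableSpace E] [BorelSpace E]

theorem radial_scale (L : Set E) {t : ℝ} (ht : 0 < t) (u : E) :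
    radial (t • L) u = t * radial L u := by
  unfold radial
  have : {c : ℝ | 0 ≤ c ∧ c • u ∈ t • L} = t • {c : ℝ | 0 ≤ c ∧ c • u ∈ L} := by
    ext c
    rw [mem_smul_set_iff_inv_smul_mem₀ ht.ne']
    simp only [mem_ofPred_eq, smul_eq_mul]
    rw [mem_smul_set_iff_inv_smul_mem₀ ht.ne', smul_smul]
    constructor
    · rintro ⟨h1, h2⟩; exact ⟨by positivity, h2⟩
    · rintro ⟨h1, h2⟩
      refine ⟨?_, h2⟩
      have h3 := mul_nonneg ht.le h1
      rwa [← mul_assoc, mul_inv_cancel₀ ht.ne', one_mul] at h3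
  rw [this, Real.sSup_smul_of_nonneg ht.le, smul_eq_mul]

theorem radial_nn (L : Set E) (u : E) : 0 ≤ radial L u := Real.sSup_nonneg (fun c hc => hc.1)

theorem orderRadial_scale (i : ℝ) (L : Set E) {t : ℝ} (ht : 0 < t) (u : E) :
    orderRadial i (t • L) u = t ^ i * orderRadial i L u := by
  unfold orderRadial
  have : ∀ v : sphere (0 : hyperplane u) 1, (radial (t • L) ((v : hyperplane u) : E)) ^ i
      = t ^ i * (radial L ((v : hyperplane u) : E)) ^ i := by
    intro v
    rw [radial_scale L ht, Real.mul_rpow ht.le (radial_nn _ _)]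
  simp_rw [this]
  rw [integral_const_mul]
  ring

theorem intersectionBody_scale (i : ℝ) (L : Set E) {t : ℝ} (ht : 0 < t) :
    intersectionBody i (t • L) = (t ^ i) • intersectionBody i L := by
  have hti : 0 < t ^ i := Real.rpow_pos_of_pos ht i
  ext x
  rw [mem_smul_set_iff_inv_smul_mem₀ hti.ne']
  unfold intersectionBody
  simp only [mem_ofPred_eq]
  constructor
  · rintro ⟨u, hu, c, hc0, hc, rfl⟩
    rw [orderRadial_scale i L ht] at hc
    refine ⟨u, hu, (t ^ i)⁻¹ * c, by positivity, ?_, by rw [smul_smul]⟩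
    rw [inv_mul_le_iff₀ hti]; exact hc
  · rintro ⟨u, hu, c, hc0, hc, hx⟩
    refine ⟨u, hu, t ^ i * c, by positivity, ?_, ?_⟩
    · rw [orderRadial_scale i L ht]
      exact mul_le_mul_of_nonneg_left hc hti.le
    · rw [← smul_smul, ← hx, smul_smul, mul_inv_cancel₀ hti.ne', one_smul]

theorem isStarBody_scale {L : Set E} (hL : IsStarBody L) {t : ℝ} (ht : 0 < t) :
    IsStarBody (t • L) := by
  refine ⟨hL.compact.smul t, ?_, ?_, ?_⟩
  · rw [mem_smul_set_iff_inv_smul_mem₀ ht.ne', smul_zero]; exact hL.zero_mem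
  · have := hL.star.smul t
    rwa [smul_zero] at this
  · have h : ContinuousOn (fun u => t * radial L u) (sphere (0 : E) 1) :=
      continuousOn_const.mul hL.cont
    exact h.congr (fun u _ => radial_scale L ht u)

/-- solutions with any prescribed centre -/
theorem main_all {k : ℕ} (hk1 : 1 ≤ k) (hk : Module.finrank ℝ E = k + 2) {i : ℝ} (hi : 0 < i)
    (hik : i ≤ (k : ℝ) + 1) (z : E) (hz : z ≠ 0) :
      ∃ (L : Set E) (r : ℝ), IsStarBody L ∧ (0 : E) ∈ interior L ∧ 0 < r ∧
        intersectionBody i L = (fun y => -(r • z) + r • y) '' L ∧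
        (∀ y, y ∈ L ↔ (2 : ℝ) • z - y ∈ L) ∧
        ∀ (c : E) (R : ℝ), L ≠ closedBall c R := by
  obtain ⟨ζ0, hζ0, hall⟩ := main (E := E) hk1 hk hi hik
  have hzn : 0 < ‖z‖ := norm_pos_iff.2 hz
  set s : ℝ := ζ0 / ‖z‖ with hs
  have hs0 : 0 < s := by positivity
  obtain ⟨L, r, hL, hint, hr, hI, hsym, hball⟩ := hall (s • z) (smul_ne_zero hs0.ne' hz) (by
    rw [norm_smul, Real.norm_of_nonneg hs0.le, hs, div_mul_cancel₀ _ hzn.ne'])
  set t : ℝ := s⁻¹ with ht
  have ht0 : 0 < t := inv_pos.2 hs0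
  have hti : 0 < t ^ i := Real.rpow_pos_of_pos ht0 i
  have htz : t • (s • z) = z := by rw [smul_smul, ht, inv_mul_cancel₀ hs0.ne', one_smul]
  refine ⟨t • L, t ^ i * r * s, isStarBody_scale hL ht0, ?_, by positivity, ?_, ?_, ?_⟩
  · rw [interior_smul₀ ht0.ne', mem_smul_set_iff_inv_smul_mem₀ ht0.ne', smul_zero]
    exact hint
  · rw [intersectionBody_scale i L ht0, hI]
    ext x
    rw [mem_smul_set_iff_inv_smul_mem₀ hti.ne']
    simp only [mem_image]
    constructor
    · rintro ⟨y, hy, hxy⟩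
      refine ⟨t • y, smul_mem_smul_set hy, ?_⟩
      have h1 : x = (t ^ i) • (r • (y - s • z)) := by
        rw [hxy, smul_smul, mul_inv_cancel₀ hti.ne', one_smul]
      rw [h1]
      have e : t ^ i * r * s * t = t ^ i * r := by
        rw [ht, mul_assoc, mul_inv_cancel₀ hs0.ne', mul_one]
      rw [smul_smul (t ^ i * r * s) t, e, smul_sub, smul_sub, smul_smul, smul_smul, smul_smul]
      abel
    · rintro ⟨w, hw, rfl⟩
      rw [mem_smul_set_iff_inv_smul_mem₀ ht0.ne'] at hw
      refine ⟨t⁻¹ • w, hw, ?_⟩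
      have e0 : t⁻¹ = s := by rw [ht, inv_inv]
      rw [e0, smul_sub, smul_add, smul_neg, smul_smul, smul_smul, smul_smul, smul_smul]
      have e1 : (t ^ i)⁻¹ * (t ^ i * r * s) = r * s := by
        rw [← mul_assoc, ← mul_assoc, inv_mul_cancel₀ hti.ne', one_mul]
      rw [e1]
      abel
  · intro y
    rw [mem_smul_set_iff_inv_smul_mem₀ ht0.ne', mem_smul_set_iff_inv_smul_mem₀ ht0.ne', hsym]
    have e : t⁻¹ • ((2 : ℝ) • z - y) = (2 : ℝ) • s • z - t⁻¹ • y := by
      have e0 : t⁻¹ = s := by rw [ht, inv_inv]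
      rw [e0, smul_sub, smul_comm]
    rw [e]
  · intro c R h
    apply hball (t⁻¹ • c) (t⁻¹ * R)
    have h2 : t⁻¹ • (t • L) = t⁻¹ • closedBall c R := by rw [h]
    rw [smul_smul, inv_mul_cancel₀ ht0.ne', one_smul, smul_closedBall' (inv_pos.2 ht0).ne',
      Real.norm_of_nonneg (inv_pos.2 ht0).le] at h2
    exact h2

end

end Pool.Agent.Helper74.Hom
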